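import Pool.Agent.LO86.Defs

set_option autoImplicit false
set_option linter.unusedSectionVars false
set_option linter.unusedVariables false
set_option linter.style.haveILetI false

namespace Pool.Agent.LO86

open Pool.Agent.LHF
open scoped commutatorElement

variable {G : Type*} [Group G] {ι : Type} [Fintype ι]

lemma vnm_inf {N N' : Subgroup G} (h : VNm N) (h' : VNm N') : VNm (N ⊓ N') := by
  obtain ⟨F, hF, k, hk⟩ := h
  obtain ⟨F', hF', k', hk'⟩ := h'
  haveI := hF
  haveI := hF'
  refine ⟨F ⊓ F', inferInstance, max k k', le_inf ?_ ?_⟩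
  · exact ((Subgroup.lowerCentralSeries_antitone (S := F ⊓ F')) (le_max_left k k')).trans
      ((Subgroup.lowerCentralSeries_mono k inf_le_left).trans hk)
  · exact ((Subgroup.lowerCentralSeries_antitone (S := F ⊓ F')) (le_max_right k k')).trans
      ((Subgroup.lowerCentralSeries_mono k' inf_le_right).trans hk')

lemma vnm_top : VNm (⊤ : Subgroup G) := ⟨⊤, inferInstance, 0, le_top⟩

lemma exists_inf (s : Finset (G → ℝ)) (hs : ∀ F ∈ s, VNm (annKer F)) :
    ∃ N : Subgroup G, N.Normal ∧ VNm N ∧ ∀ F ∈ s, N ≤ annKer F := by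
  classical
  induction s using Finset.induction_on with
  | empty => exact ⟨⊤, inferInstance, vnm_top, by simp⟩
  | insert F s hF ih =>
    obtain ⟨N, hN, hNv, hNs⟩ := ih (fun F' hF' => hs F' (Finset.mem_insert_of_mem hF'))
    haveI := hN
    haveI := annKer_normal F
    refine ⟨annKer F ⊓ N, inferInstance, vnm_inf (hs F (Finset.mem_insert_self F s)) hNv, ?_⟩
    intro F' hF'
    rcases Finset.mem_insert.mp hF' with rfl | h
    · exact inf_le_left
    · exact inf_le_right.trans (hNs F' h)

theorem exists_annih {σ : ι → G} (hFin : FinHF σ) (hQ : QQ G) :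
    ∃ N : Subgroup G, N.Normal ∧ VNm N ∧ N.FG ∧
      ∀ F : G → ℝ, IsLHF σ F → VNm (annKer F) → N ≤ annKer F := by
  obtain ⟨V, hV, hVm⟩ := hFin
  haveI := hV
  set A : Set (G → ℝ) := {F | IsLHF σ F ∧ VNm (annKer F)} with hA
  have hle : Submodule.span ℝ A ≤ V := by
    rw [Submodule.span_le]
    rintro F ⟨⟨hF, hF'⟩, -⟩
    exact hVm F hF hF'
  have hfd : FiniteDimensional ℝ (Submodule.span ℝ A) := Submodule.finiteDimensional_of_le hle
  have hfg : (Submodule.span ℝ A).FG := Module.Finite.iff_fg.mp hfd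
  obtain ⟨s, hsA, hspan⟩ := Submodule.fg_span_iff_fg_span_finset_subset A |>.mp hfg
  obtain ⟨N, hN, hNv, hNs⟩ := exists_inf s (fun F hF => (hsA hF).2)
  haveI := hN
  refine ⟨N, hN, hNv, (hQ N inferInstance hNv).1, ?_⟩
  intro F hF hFv n hn h x
  have hmem : F ∈ Submodule.span ℝ (s : Set (G → ℝ)) := by
    rw [← hspan]; exact Submodule.subset_span ⟨hF, hFv⟩
  clear hF hFv
  induction hmem using Submodule.span_induction with
  | mem F' hF' => exact hNs F' hF' hn h x
  | zero => rfl
  | add a b _ _ ha hb =>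
    show a (h * n * x) + b (h * n * x) = a (h * x) + b (h * x)
    rw [ha, hb]
  | smul c a _ ha =>
    show c * a (h * n * x) = c * a (h * x)
    rw [ha]

end Pool.Agent.LO86
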