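import Pool.Agent.LO86.Thin

set_option autoImplicit false
set_option linter.unusedSectionVars false
set_option linter.unusedVariables false

namespace Pool.Agent.LO86

open Pool.Agent.LHF

variable {G : Type*} [Group G] {ι : Type} [Fintype ι]

/-- arbitrarily large balls at `x` are contained in finite sets with `O(R)` boundary points -/
def CutAt {X : Type*} [MulAction G X] (σ : ι → G) (x : X) : Prop :=
  ∃ C : ℝ, ∀ R0 : ℕ, ∃ R : ℕ, R0 ≤ R ∧ ∃ B : Set X, B.Finite ∧
    (∀ g ∈ Ball σ R, g • x ∈ B) ∧ ((bdry σ B).ncard : ℝ) ≤ C * R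

/-- the same uniformly on a `G`-set: the radius may depend on the point but stays in a bounded
window, and the finite sets are contained in balls of a radius that does not depend on the point -/
def UCut (σ : ι → G) (X : Type*) [MulAction G X] : Prop :=
  ∃ C : ℝ, ∀ R0 : ℕ, ∃ R1 : ℕ, ∀ x : X, ∃ R : ℕ, R0 ≤ R ∧ R ≤ R1 ∧ ∃ B : Set X,
    (∀ g ∈ Ball σ R, g • x ∈ B) ∧ (∀ y ∈ B, ∃ g ∈ Ball σ R1, g • x = y) ∧
      ((bdry σ B).ncard : ℝ) ≤ C * R

/-- The cut property passes to the coset space of a limit stabilizer (compare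
`thinAt_limStab`). -/
theorem cutAt_limStab {σ : ι → G} {X : Type*} [MulAction G X] (h : UCut σ X) (y : ℕ → X) :
    CutAt (X := G ⧸ limStab y) σ ((1 : G) : G ⧸ limStab y) := by
  classical
  obtain ⟨C, hC⟩ := h
  refine ⟨C, fun R0 => ?_⟩
  obtain ⟨M, hB⟩ := hC R0
  -- one `n` for all pairs
  have hn : ∃ n : ℕ, ∀ p ∈ Ball σ (M + 1) ×ˢ Ball σ (M + 1),
      (p.1⁻¹ * p.2 ∈ limStab y ↔ p.1 • y n = p.2 • y n) := by
    have hfin : (Ball σ (M + 1) ×ˢ Ball σ (M + 1)).Finite :=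
      (ball_finite σ (M + 1)).prod (ball_finite σ (M + 1))
    have hev : ∀ᶠ n in (Filter.hyperfilter ℕ : Filter ℕ),
        ∀ p ∈ Ball σ (M + 1) ×ˢ Ball σ (M + 1),
          (p.1⁻¹ * p.2 ∈ limStab y ↔ p.1 • y n = p.2 • y n) := by
      rw [Filter.eventually_all_finite hfin]
      rintro ⟨g, g'⟩ -
      have e : ∀ n, ((g⁻¹ * g') • y n = y n ↔ g • y n = g' • y n) := by
        intro n
        rw [mul_smul, inv_smul_eq_iff]
        exact eq_comm
      by_cases hg : g⁻¹ * g' ∈ limStab y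
      · filter_upwards [mem_limStab.1 hg] with n hn
        exact ⟨fun _ => (e n).1 hn, fun _ => hg⟩
      · have h1 : ∀ᶠ n in (Filter.hyperfilter ℕ : Filter ℕ), ¬ (g⁻¹ * g') • y n = y n := by
          rw [Ultrafilter.eventually_not]
          exact fun h2 => hg (mem_limStab.2 h2)
        filter_upwards [h1] with n hn
        exact ⟨fun h2 => absurd h2 hg, fun h2 => absurd ((e n).2 h2) hn⟩
    exact hev.exists
  obtain ⟨n, hn⟩ := hn
  obtain ⟨R, hR, hRM, Bn, hBn1, hBn2, hBn3⟩ := hB (y n)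
  have hmk : ∀ g ∈ Ball σ (M + 1), ∀ g' ∈ Ball σ (M + 1),
      ((QuotientGroup.mk g : G ⧸ limStab y) = QuotientGroup.mk g' ↔ g • y n = g' • y n) := by
    intro g hg g' hg'
    rw [QuotientGroup.eq]
    exact hn (g, g') ⟨hg, hg'⟩
  have hMs : Ball σ M ⊆ Ball σ (M + 1) := ball_mono σ (Nat.le_succ M)
  set B : Set (G ⧸ limStab y) :=
    (fun g : G => (QuotientGroup.mk g : G ⧸ limStab y)) '' {g | g ∈ Ball σ M ∧ g • y n ∈ Bn}
    with hBdef
  have hex : ∀ z ∈ B, ∃ g, g ∈ Ball σ M ∧ g • y n ∈ Bn ∧ (QuotientGroup.mk g : G ⧸ limStab y) = z := by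
    rintro z ⟨g, ⟨hg1, hg2⟩, rfl⟩
    exact ⟨g, hg1, hg2, rfl⟩
  have hBnf : Bn.Finite := by
    refine ((ball_finite σ M).image fun g : G => g • y n).subset ?_
    intro z hz
    obtain ⟨g, hg, hgz⟩ := hBn2 z hz
    exact ⟨g, hg, hgz⟩
  refine ⟨R, hR, B, ?_, ?_, ?_⟩
  · exact ((ball_finite σ M).subset fun g hg => hg.1).image _
  · intro g hg
    refine ⟨g, ⟨ball_mono σ hRM hg, hBn1 g hg⟩, ?_⟩
    change (QuotientGroup.mk g : G ⧸ limStab y) = QuotientGroup.mk (g * 1)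
    rw [mul_one]
  · refine le_trans ?_ hBn3
    let f : G ⧸ limStab y → X := fun z =>
      if h : ∃ g, g ∈ Ball σ M ∧ g • y n ∈ Bn ∧ (QuotientGroup.mk g : G ⧸ limStab y) = z
      then h.choose • y n else y n
    have hf : ∀ z ∈ B, ∃ g, g ∈ Ball σ M ∧ g • y n ∈ Bn ∧
        (QuotientGroup.mk g : G ⧸ limStab y) = z ∧ f z = g • y n := by
      intro z hz
      have h1 := hex z hz
      refine ⟨h1.choose, h1.choose_spec.1, h1.choose_spec.2.1, h1.choose_spec.2.2, ?_⟩
      simp only [f]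
      rw [dif_pos h1]
    have hle : (bdry σ B).ncard ≤ (bdry σ Bn).ncard := by
      refine Set.ncard_le_ncard_of_injOn f ?_ ?_ (hBnf.subset fun z hz => hz.1)
      · rintro z ⟨hz, j, hj⟩
        obtain ⟨g, hg, hgB, hgz, hfz⟩ := hf z hz
        rw [hfz]
        refine ⟨hgB, j, ?_⟩
        intro hin
        apply hj
        obtain ⟨g'', hg''M, hg''e⟩ := hBn2 _ hin
        have hjg : σ j * g ∈ Ball σ (M + 1) := by
          have := mul_mem_ball σ (step_mem_ball σ j) hg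
          rwa [add_comm] at this
        have h2 : (QuotientGroup.mk g'' : G ⧸ limStab y) = QuotientGroup.mk (σ j * g) := by
          rw [hmk _ (hMs hg''M) _ hjg, hg''e, mul_smul]
        refine ⟨g'', ⟨hg''M, ?_⟩, ?_⟩
        · rw [hg''e]
          exact hin
        · change (QuotientGroup.mk g'' : G ⧸ limStab y) = σ j • z
          rw [h2, ← hgz]
          rfl
      · rintro z ⟨hz, -⟩ z' ⟨hz', -⟩ hzz
        obtain ⟨g, hg, hgB, hgz, hfz⟩ := hf z hz
        obtain ⟨g', hg', hgB', hgz', hfz'⟩ := hf z' hz'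
        rw [hfz, hfz'] at hzz
        rw [← hgz, ← hgz']
        exact (hmk g (hMs hg) g' (hMs hg')).2 hzz
    exact_mod_cast hle

end Pool.Agent.LO86
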