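import Pool.Agent.LO86.CSq
import Pool.Agent.LO86.CLimit
import Pool.Agent.LO86.CQuad

set_option autoImplicit false
set_option linter.unusedSectionVars false
set_option linter.unusedVariables false

namespace Pool.Agent.LO86

open Pool.Agent.LHF

variable {G : Type*} [Group G] {ι : Type} [Fintype ι]

/-- Linear cuts leave no room for infinitely many infinite orbits of `N`: by `ncard_le_sq_bdry`
they would force quadratic growth at the base point, which `relIndex_ne_zero_of_base` excludes. -/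
theorem relIndex_ne_zero_of_cut {σ : ι → G} (hσ : GenData σ) (hFin : FinHF σ)
    {K N : Subgroup G} (hNn : N.Normal) (hNfg : N.FG)
    (hN : ∀ F : G → ℝ, IsLHF σ F → VNm (annKer F) → N ≤ annKer F)
    {C' : ℝ} {d : ℕ} (hK : ∀ (z : G ⧸ K) (R : ℕ), (orbN σ z R : ℝ) ≤ C' * ((R : ℝ) + 1) ^ d)
    (hcut : CutAt (X := G ⧸ K) σ ((1 : G) : G ⧸ K)) (hL : (K ⊔ N).index = 0) :
    K.relIndex N ≠ 0 := by
  intro h0
  obtain ⟨c, hc⟩ := ncard_le_sq_bdry hσ hNn hNfg h0 hL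
  obtain ⟨C, hC⟩ := hcut
  refine relIndex_ne_zero_of_base hσ hFin hNn hNfg hN hK ⟨(c : ℝ) * C ^ 2, fun R0 => ?_⟩ hL h0
  obtain ⟨R, hR, B, hBf, hB, hbd⟩ := hC R0
  refine ⟨R, hR, ?_⟩
  have h1 : orbN σ (QuotientGroup.mk (1 : G) : G ⧸ K) R ≤ B.ncard := by
    refine Set.ncard_le_ncard ?_ hBf
    rintro _ ⟨g, hg, rfl⟩
    exact hB g hg
  have h2 := hc B hBf
  have h3 : ((bdry σ B).ncard : ℝ) ^ 2 ≤ (C * R) ^ 2 :=
    pow_le_pow_left₀ (Nat.cast_nonneg _) hbd 2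
  calc (orbN σ (QuotientGroup.mk (1 : G) : G ⧸ K) R : ℝ) ≤ (B.ncard : ℝ) := by exact_mod_cast h1
    _ ≤ (c : ℝ) * ((bdry σ B).ncard : ℝ) ^ 2 := by exact_mod_cast h2
    _ ≤ (c : ℝ) * (C * R) ^ 2 := mul_le_mul_of_nonneg_left h3 (Nat.cast_nonneg _)
    _ = (c : ℝ) * C ^ 2 * (R : ℝ) ^ 2 := by ring

end Pool.Agent.LO86
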