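import Pool.Agent.LO86.Defs

set_option autoImplicit false
set_option linter.unusedSectionVars false
set_option linter.unusedVariables false

namespace Pool.Agent.LO86

open Pool.Agent.LHF

variable {G : Type*} [Group G] {ι : Type} [Fintype ι]

/-- finitely many homomorphisms from a finitely generated group to a finite group -/
private theorem kernel_finite_hom {N P : Type*} [Group N] [Group P] [Finite P] (hN : Group.FG N) :
    Finite (N →* P) := by
  obtain ⟨S, hS⟩ := hN.out
  refine Finite.of_injective (β := (S → P)) (fun φ s => φ s.1) ?_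
  intro φ ψ h
  refine MonoidHom.eq_of_eqOn_dense hS ?_
  intro s hs
  exact congrFun h ⟨s, hs⟩

/-- a finitely generated normal subgroup with bounded orbits acts through a finite group -/
theorem vnm_ker_of_bounded {X : Type*} [MulAction G X] {N : Subgroup G} (hNn : N.Normal)
    (hNfg : N.FG) (hN : VNm N) {Q : ℕ} (hb : ∀ x : X, (subOrb N x).encard ≤ (Q : ℕ∞)) :
    VNm (MulAction.toPermHom G X).ker := by
  classical
  have : Finite (N →* Equiv.Perm (Fin Q)) :=
    kernel_finite_hom ((Group.fg_iff_subgroup_fg N).mpr hNfg)
  let K0 : Subgroup N := ⨅ φ : N →* Equiv.Perm (Fin Q), φ.ker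
  have hK0 : K0.FiniteIndex := Subgroup.finiteIndex_iInf fun φ => inferInstance
  have hfix : ∀ n : N, n ∈ K0 → ∀ x : X, (n : G) • x = x := by
    intro n hn x
    have hset : MulAction.orbit N x = subOrb N x := by
      ext y
      constructor
      · rintro ⟨m, rfl⟩
        exact ⟨m.1, m.2, rfl⟩
      · rintro ⟨m, hm, rfl⟩
        exact ⟨⟨m, hm⟩, rfl⟩
    have hcard : (MulAction.orbit N x).encard ≤ (Q : ℕ∞) := by rw [hset]; exact hb x
    have hfin : (MulAction.orbit N x).Finite := Set.finite_of_encard_le_coe hcard
    have : Fintype (MulAction.orbit N x) := hfin.fintype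
    have hc : Fintype.card (MulAction.orbit N x) ≤ Fintype.card (Fin Q) := by
      rw [Fintype.card_fin, ← Nat.card_eq_fintype_card, Nat.card_coe_set_eq]
      have h1 := hfin.cast_ncard_eq
      rw [← h1] at hcard
      exact_mod_cast hcard
    obtain ⟨e⟩ := Function.Embedding.nonempty_of_card_le hc
    let φ : N →* Equiv.Perm (Fin Q) :=
      (Equiv.Perm.viaEmbeddingHom e).comp (MulAction.toPermHom N (MulAction.orbit N x))
    have h1 : φ n = 1 := (Subgroup.mem_iInf.mp hn) φ
    have h2 : MulAction.toPermHom N (MulAction.orbit N x) n = 1 := by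
      apply Equiv.Perm.viaEmbeddingHom_injective e
      rw [map_one]
      exact h1
    have h3 : n • (⟨x, MulAction.mem_orbit_self x⟩ : MulAction.orbit N x) =
        ⟨x, MulAction.mem_orbit_self x⟩ := by
      have := congrArg (fun f : Equiv.Perm (MulAction.orbit N x) => f ⟨x, MulAction.mem_orbit_self x⟩) h2
      exact this
    exact congrArg Subtype.val h3
  have hkn : (MulAction.toPermHom G X).ker.Normal := inferInstance
  have hfi : (N ⊓ (MulAction.toPermHom G X).ker).relIndex N ≠ 0 := by
    have hle : K0 ≤ (N ⊓ (MulAction.toPermHom G X).ker).subgroupOf N := by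
      intro n hn
      rw [Subgroup.mem_subgroupOf]
      have hker : (n : G) ∈ (MulAction.toPermHom G X).ker := by
        rw [MonoidHom.mem_ker]
        ext x
        exact hfix n hn x
      exact Subgroup.mem_inf.mpr ⟨n.2, hker⟩
    exact (Subgroup.finiteIndex_of_le hle).index_ne_zero
  have hM2 : (N ⊓ (MulAction.toPermHom G X).ker).Normal := by
    have := hNn
    exact Subgroup.normal_inf_normal _ _
  exact (hN.of_finite_ext hNn hM2 inf_le_left hfi).mono inf_le_right

end Pool.Agent.LO86
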