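import Pool.Agent.LO86.Thin

set_option autoImplicit false
set_option linter.unusedSectionVars false
set_option linter.unusedVariables false

namespace Pool.Agent.LO86

open Pool.Agent.LHF

section words

variable {G : Type} [Group G]

/-- products of at most `R` elements of `S` -/
def SBall (S : Finset G) (R : ℕ) : Set G :=
  {g | ∃ l : List G, (∀ s ∈ l, s ∈ S) ∧ l.length ≤ R ∧ l.prod = g}

lemma sball_finite (S : Finset G) (R : ℕ) : (SBall S R).Finite := by
  refine (ball_finite (ι := S) (fun s => (s : G)) R).subset ?_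
  rintro _ ⟨l, hl, hR, rfl⟩
  lift l to List S using hl
  refine ⟨l, by simpa using hR, ?_⟩
  simp [wprod]

lemma exists_list (S : Finset G) (hsym : ∀ s ∈ S, s⁻¹ ∈ S)
    (hgen : Subgroup.closure (S : Set G) = ⊤) (g : G) :
    ∃ l : List G, (∀ s ∈ l, s ∈ S) ∧ l.prod = g := by
  have hg : g ∈ Subgroup.closure (S : Set G) := by rw [hgen]; trivial
  have hinv : ∀ l : List G, (∀ s ∈ l, s ∈ S) → ∃ l' : List G, (∀ s ∈ l', s ∈ S) ∧
      l'.prod = l.prod⁻¹ := by
    intro l hl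
    refine ⟨(l.map fun s => s⁻¹).reverse, ?_, ?_⟩
    · intro s hs
      rw [List.mem_reverse, List.mem_map] at hs
      obtain ⟨t, ht, rfl⟩ := hs
      exact hsym t (hl t ht)
    · rw [List.prod_inv_reverse]
  induction hg using Subgroup.closure_induction with
  | mem s hs => exact ⟨[s], by simpa using hs, by simp⟩
  | one => exact ⟨[], by simp, by simp⟩
  | mul a b _ _ iha ihb =>
    obtain ⟨l, hl, rfl⟩ := iha
    obtain ⟨l', hl', rfl⟩ := ihb
    refine ⟨l ++ l', fun s hs => ?_, List.prod_append⟩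
    rcases List.mem_append.mp hs with h | h
    · exact hl s h
    · exact hl' s h
  | inv a _ iha =>
    obtain ⟨l, hl, rfl⟩ := iha
    exact hinv l hl

lemma exists_scale_factor (S : Finset G) (hsym : ∀ s ∈ S, s⁻¹ ∈ S)
    (hgen : Subgroup.closure (S : Set G) = ⊤) {ι : Type} [Fintype ι] (σ : ι → G) :
    ∃ K : ℕ, 1 ≤ K ∧ ∀ R : ℕ, Ball σ R ⊆ SBall S (K * R) := by
  classical
  choose w hw hw' using exists_list S hsym hgen
  refine ⟨1 + Finset.univ.sup fun j => (w (σ j)).length, by omega, ?_⟩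
  intro R
  rintro _ ⟨l, hl, rfl⟩
  have key : ∀ l : List ι, ∃ l' : List G, (∀ s ∈ l', s ∈ S) ∧
      l'.length ≤ (1 + Finset.univ.sup fun j => (w (σ j)).length) * l.length ∧
      l'.prod = wprod σ l := by
    intro l
    induction l with
    | nil => exact ⟨[], by simp, by simp, by simp⟩
    | cons j l ih =>
      obtain ⟨l', h1, h2, h3⟩ := ih
      refine ⟨w (σ j) ++ l', ?_, ?_, ?_⟩
      · intro s hs
        rcases List.mem_append.mp hs with h | h
        · exact hw _ s h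
        · exact h1 s h
      · have h4 : (w (σ j)).length ≤ Finset.univ.sup fun j => (w (σ j)).length :=
          Finset.le_sup (f := fun j => (w (σ j)).length) (Finset.mem_univ j)
        rw [List.length_append, List.length_cons, Nat.mul_succ]
        omega
      · rw [List.prod_append, hw', h3, wprod_cons]
  obtain ⟨l', h1, h2, h3⟩ := key l
  exact ⟨l', h1, h2.trans (Nat.mul_le_mul_left _ hl), h3⟩

lemma sball_mono (S : Finset G) {R R' : ℕ} (h : R ≤ R') : SBall S R ⊆ SBall S R' := by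
  rintro _ ⟨l, h1, h2, rfl⟩
  exact ⟨l, h1, h2.trans h, rfl⟩

/-- `S`-words are `σ`-words, with linear control of the length -/
lemma exists_scale_factor' (S : Finset G) {ι : Type} [Fintype ι] {σ : ι → G} (hσ : GenData σ) :
    ∃ c : ℕ, ∀ R : ℕ, SBall S R ⊆ Ball σ (c * R) := by
  classical
  obtain ⟨c, hc⟩ := finite_subset_ball hσ (A := (S : Set G)) S.finite_toSet
  refine ⟨c, fun R => ?_⟩
  rintro _ ⟨l, hl, hR, rfl⟩
  apply ball_mono σ (Nat.mul_le_mul_left c hR)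
  clear hR
  induction l with
  | nil => exact one_mem_ball σ _
  | cons s l ih =>
    rw [List.prod_cons, List.length_cons, Nat.mul_succ, Nat.add_comm]
    exact mul_mem_ball σ (hc (hl s List.mem_cons_self))
      (ih fun x hx => hl x (List.mem_cons_of_mem _ hx))

/-- a word that leads out of `B` passes through the boundary -/
lemma exists_exit {X : Type*} [MulAction G X] (S : Finset G) (B : Set X) (l : List G)
    (hl : ∀ s ∈ l, s ∈ S) {y : X} (hy : y ∈ B) (hout : l.prod • y ∉ B) :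
    ∃ u ∈ SBall S l.length, u • y ∈ B ∧ ∃ s ∈ S, s • (u • y) ∉ B := by
  induction l with
  | nil => exact absurd (by simpa using hy) hout
  | cons s l ih =>
    by_cases h : l.prod • y ∈ B
    · refine ⟨l.prod, ⟨l, fun x hx => hl x (List.mem_cons_of_mem _ hx), by simp, rfl⟩, h,
        s, hl s List.mem_cons_self, ?_⟩
      rwa [List.prod_cons, mul_smul] at hout
    · obtain ⟨u, hu, h1, h2⟩ := ih (fun x hx => hl x (List.mem_cons_of_mem _ hx)) h
      exact ⟨u, sball_mono S (by simp) hu, h1, h2⟩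

/-- the points `s₁ ⋯ s_k • x` with `k ≤ R` and all `s_i` in `S` -/
def SOrb {X : Type} [MulAction G X] (S : Finset G) (x : X) (R : ℕ) : Set X :=
  {y : X | ∃ l : List G, (∀ s ∈ l, s ∈ S) ∧ l.length ≤ R ∧ l.prod • x = y}

section sorb

variable {X : Type} [MulAction G X] {ι : Type} [Fintype ι] {σ : ι → G} {S : Finset G}

lemma sorb_finite (S : Finset G) (x : X) (R : ℕ) : (SOrb S x R).Finite := by
  refine ((sball_finite S R).image (fun g => g • x)).subset ?_
  rintro _ ⟨l, hl1, hl2, rfl⟩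
  exact ⟨l.prod, ⟨l, hl1, hl2, rfl⟩, rfl⟩

lemma orbN_le {K : ℕ} (hK : ∀ R : ℕ, Ball σ R ⊆ SBall S (K * R)) (x : X) {R R' : ℕ}
    (h : K * R ≤ R') : orbN σ x R ≤ (SOrb S x R').ncard := by
  apply Set.ncard_le_ncard _ (sorb_finite S x _)
  rintro _ ⟨g, hg, rfl⟩
  obtain ⟨l, hl1, hl2, hl3⟩ := hK R hg
  exact ⟨l, hl1, hl2.trans h, by rw [hl3]⟩

lemma poly_of_sorb {K : ℕ} (hK1 : 1 ≤ K) (hK : ∀ R : ℕ, Ball σ R ⊆ SBall S (K * R)) {C d : ℕ}
    (hC : ∀ R : ℕ, 1 ≤ R → ∀ x : X, (SOrb S x R).ncard ≤ C * R ^ d) (x : X) (R : ℕ) :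
    (orbN σ x R : ℝ) ≤ ((C * K ^ d : ℕ) : ℝ) * ((R : ℝ) + 1) ^ d := by
  have h1 := hC (K * (R + 1)) (Nat.mul_pos hK1 (Nat.succ_pos R)) x
  have h2 : orbN σ x R ≤ (SOrb S x (K * (R + 1))).ncard :=
    orbN_le hK x (Nat.mul_le_mul_left K (Nat.le_succ R))
  have h3 := h2.trans h1
  rw [mul_pow, ← mul_assoc] at h3
  exact_mod_cast h3

lemma two_mul_div {K R : ℕ} (hK1 : 1 ≤ K) (hR : K ≤ R) :
    (R : ℝ) ≤ 2 * K * ((R / K : ℕ) : ℝ) := by
  have h0 : 1 ≤ R / K := by
    rw [Nat.le_div_iff_mul_le (by omega)]; omega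
  have h6 : R < K * (R / K + 1) := Nat.lt_mul_div_succ R (by omega)
  have h7 : K * (R / K + 1) ≤ 2 * K * (R / K) := by nlinarith
  exact_mod_cast h6.le.trans h7

lemma uthin_of_sorb (hσ : GenData σ) {K : ℕ} (hK1 : 1 ≤ K)
    (hK : ∀ R : ℕ, Ball σ R ⊆ SBall S (K * R))
    (hcut : ∀ ε : ℝ, 0 < ε → ∀ R₀ : ℕ, ∃ R : ℕ, R₀ ≤ R ∧ ∃ R' : ℕ, ∀ x : X, ∃ B : Set X,
      SOrb S x R ⊆ B ∧ B ⊆ SOrb S x R' ∧
      (({y : X | y ∈ B ∧ ∃ s ∈ S, s • y ∉ B}.ncard : ℕ) : ℝ) ≤ ε * (R : ℝ)) :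
    UThin σ X := by
  classical
  obtain ⟨c, hc⟩ := exists_scale_factor' S hσ
  intro ε hε R0
  set M : ℕ := (SBall S K).ncard with hM
  have hMpos : 0 < M := by
    rw [hM, Set.ncard_pos (sball_finite S K)]
    exact ⟨1, [], by simp, by simp, by simp⟩
  have hMpos' : (0 : ℝ) < M := by exact_mod_cast hMpos
  have hKpos : (0 : ℝ) < K := by exact_mod_cast hK1
  obtain ⟨R, hR, R', hR'⟩ := hcut (ε / (2 * K * M)) (by positivity) (K * (R0 + 1))
  have hdiv : R0 + 1 ≤ R / K := by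
    rw [Nat.le_div_iff_mul_le (by omega)]
    rwa [Nat.mul_comm]
  refine ⟨R / K, by omega, c * R', fun x => ?_⟩
  obtain ⟨B, hB1, hB2, hB3⟩ := hR' x
  have hBfin : B.Finite := (sorb_finite S x R').subset hB2
  refine ⟨B, ?_, ?_, ?_⟩
  · intro g hg
    obtain ⟨l, hl1, hl2, hl3⟩ := hK _ hg
    apply hB1
    exact ⟨l, hl1, hl2.trans (Nat.mul_div_le R K), by rw [hl3]⟩
  · intro y hy
    obtain ⟨l, hl1, hl2, hl3⟩ := hB2 hy
    exact ⟨l.prod, hc R' ⟨l, hl1, hl2, rfl⟩, hl3⟩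
  · have hsub : bdry σ B ⊆ Set.image2 (fun (u : G) (z : X) => u⁻¹ • z) (SBall S K)
        {y : X | y ∈ B ∧ ∃ s ∈ S, s • y ∉ B} := by
      rintro y ⟨hy, j, hj⟩
      obtain ⟨l, hl1, hl2, hl3⟩ := hK 1 (step_mem_ball σ j)
      rw [← hl3] at hj
      obtain ⟨u, hu, h1, h2⟩ := exists_exit S B l hl1 hy hj
      exact ⟨u, sball_mono S (by simpa using hl2) hu, u • y, ⟨h1, h2⟩, inv_smul_smul u y⟩
    have hfin2 : {y : X | y ∈ B ∧ ∃ s ∈ S, s • y ∉ B}.Finite := hBfin.subset fun y hy => hy.1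
    have h4 : (bdry σ B).ncard ≤ M * {y : X | y ∈ B ∧ ∃ s ∈ S, s • y ∉ B}.ncard := by
      refine (Set.ncard_le_ncard hsub (Set.Finite.image2 _ (sball_finite S K) hfin2)).trans ?_
      rw [← Set.image_prod, hM, ← Set.ncard_prod]
      exact Set.ncard_image_le ((sball_finite S K).prod hfin2)
    have h5 := two_mul_div hK1 (le_trans (by nlinarith) hR : K ≤ R)
    calc ((bdry σ B).ncard : ℝ)
        ≤ (M : ℝ) * ({y : X | y ∈ B ∧ ∃ s ∈ S, s • y ∉ B}.ncard : ℝ) := by exact_mod_cast h4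
      _ ≤ (M : ℝ) * (ε / (2 * K * M) * R) := by gcongr
      _ = ε / (2 * K) * R := by field_simp
      _ ≤ ε / (2 * K) * (2 * K * ((R / K : ℕ) : ℝ)) := by gcongr
      _ = ε * ((R / K : ℕ) : ℝ) := by field_simp

end sorb

end words

end Pool.Agent.LO86
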