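import Pool.Agent.LO86.Orbits
import Pool.Agent.LO86.Kernel
import Pool.Agent.LO86.Words
import Pool.Agent.LHF.Final

set_option autoImplicit false
set_option linter.unusedSectionVars false
set_option linter.unusedVariables false

namespace Pool.Agent.LO86

open Pool.Agent.LHF

theorem vnm_ker_of_thin {G : Type*} [Group G] {ι : Type} [Fintype ι] {σ : ι → G}
    (hσ : GenData σ) (hFin : FinHF σ) {X : Type*}
    [MulAction G X] {C : ℝ} {d : ℕ}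
    (hX : ∀ (x : X) (R : ℕ), (orbN σ x R : ℝ) ≤ C * ((R : ℝ) + 1) ^ d) (hthin : UThin σ X) :
    VNm (MulAction.toPermHom G X).ker := by
  have hQ : QQ G := FinG.qq ⟨ι, inferInstance, σ, hσ, hFin⟩
  obtain ⟨N, hNn, hNv, hNfg, hN⟩ := exists_annih hFin hQ
  obtain ⟨Q, hQb⟩ := subOrb_bounded hσ hFin hX hthin hNn hNfg hN
  exact vnm_ker_of_bounded hNn hNfg hNv hQb

theorem main_thin {G : Type} [Group G] (S : Finset G) (hsym : ∀ s ∈ S, s⁻¹ ∈ S)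
    (hgen : Subgroup.closure (S : Set G) = ⊤)
    (hfin : ∃ V : Submodule ℝ (G → ℝ), FiniteDimensional ℝ V ∧
        ∀ f : G → ℝ,
          (∀ g : G, ∑ s ∈ S, f (g * s) = (S.card : ℝ) * f g) →
          (∃ C : ℝ, ∀ g : G, ∀ s ∈ S, |f (g * s) - f g| ≤ C) →
          f ∈ V) {X : Type} [MulAction G X]
    (hgr : ∃ C d : ℕ, ∀ R : ℕ, 1 ≤ R → ∀ x : X, (SOrb S x R).ncard ≤ C * R ^ d)
    (h : ∀ ε : ℝ, 0 < ε → ∀ R₀ : ℕ, ∃ R : ℕ, R₀ ≤ R ∧ ∃ R' : ℕ, ∀ x : X, ∃ B : Set X,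
        SOrb S x R ⊆ B ∧ B ⊆ SOrb S x R' ∧
        (({y : X | y ∈ B ∧ ∃ s ∈ S, s • y ∉ B}.ncard : ℕ) : ℝ) ≤ ε * (R : ℝ)) :
    ∃ H : Subgroup (G ⧸ (MulAction.toPermHom G X).ker),
      H.FiniteIndex ∧ Group.IsNilpotent ↥H := by
  obtain ⟨ι, _, σ, hσ, hFin⟩ := finG_of_lhf S hsym hgen hfin
  obtain ⟨K, hK1, hK⟩ := exists_scale_factor S hsym hgen σ
  apply nilpotent_quotient_of_vnm
  obtain ⟨C, d, hC⟩ := hgr
  exact vnm_ker_of_thin hσ hFin (poly_of_sorb (σ := σ) hK1 hK hC) (uthin_of_sorb hσ hK1 hK h)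

end Pool.Agent.LO86
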