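import Pool.Agent.LO86.LimGrowth

set_option autoImplicit false
set_option linter.unusedSectionVars false
set_option linter.unusedVariables false

namespace Pool.Agent.LO86

open Pool.Agent.LHF Filter Topology

variable {G : Type*} [Group G] {ι : Type} [Fintype ι] {X : Type*} [MulAction G X]

private theorem qgrow_aux (σ : ι → G) (y : ℕ → X) (g : G) (R : ℕ) :
    ∃ n, orbN σ (QuotientGroup.mk g : G ⧸ limStab y) R ≤ orbN σ (g • y n) R := by
  classical
  obtain ⟨A, hAB, hbij⟩ := Set.exists_subset_bijOn (Ball σ R)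
    (fun h : G => h • (QuotientGroup.mk g : G ⧸ limStab y))
  have hAfin : A.Finite := (ball_finite σ R).subset hAB
  have hcos : orbN σ (QuotientGroup.mk g : G ⧸ limStab y) R = A.ncard := by
    unfold orbN
    rw [← hbij.image_eq, hbij.injOn.ncard_image]
  have hev : ∀ᶠ n in (Filter.hyperfilter ℕ : Filter ℕ), ∀ a ∈ A, ∀ b ∈ A, a ≠ b →
      a • (g • y n) ≠ b • (g • y n) := by
    rw [Filter.eventually_all_finite hAfin]
    intro a ha
    rw [Filter.eventually_all_finite hAfin]
    intro b hb
    by_cases hab : a = b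
    · exact Filter.Eventually.of_forall fun n h => absurd hab h
    · have h1 : ¬ ((a * g)⁻¹ * (b * g) ∈ limStab y) := fun h =>
        hab (hbij.injOn ha hb (by
          show (QuotientGroup.mk (a * g) : G ⧸ limStab y) = QuotientGroup.mk (b * g)
          exact QuotientGroup.eq.mpr h))
      rw [mem_limStab, ← Ultrafilter.eventually_not] at h1
      filter_upwards [h1] with n hn _ he
      apply hn
      rw [mul_smul, inv_smul_eq_iff, mul_smul, mul_smul]
      exact he.symm
  obtain ⟨n, hn⟩ := hev.exists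
  refine ⟨n, ?_⟩
  rw [hcos]
  unfold orbN
  have hinj : Set.InjOn (fun h : G => h • (g • y n)) A := by
    intro a ha b hb hab
    by_contra hne
    exact hn a ha b hb hne hab
  rw [← hinj.ncard_image]
  exact Set.ncard_le_ncard (Set.image_mono hAB) ((ball_finite σ R).image _)

/-- Growth of the coset space of the limit stabilizer at every point: for `z = g K` with
`K = limStab y` use `cosN_limStab_le` for the sequence `g • y n`, whose limit stabilizer is
`g K g⁻¹`; `h g K ↦ h (g K g⁻¹)` is a bijection of coset spaces. -/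
theorem orbN_limStab_le {σ : ι → G} {f : ℕ → ℝ}
    (hX : ∀ (x : X) (R : ℕ), (orbN σ x R : ℝ) ≤ f R) (y : ℕ → X) (z : G ⧸ limStab y) (R : ℕ) :
    (orbN σ z R : ℝ) ≤ f R := by
  obtain ⟨g, rfl⟩ := QuotientGroup.mk_surjective z
  obtain ⟨n, hn⟩ := qgrow_aux σ y g R
  exact le_trans (by exact_mod_cast hn) (hX (g • y n) R)

/-- the same for growth bounds at a single radius -/
theorem orbN_limStab_le' {σ : ι → G} {R : ℕ} {c : ℝ}
    (hX : ∀ x : X, (orbN σ x R : ℝ) ≤ c) (y : ℕ → X) (z : G ⧸ limStab y) :
    (orbN σ z R : ℝ) ≤ c := by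
  obtain ⟨g, rfl⟩ := QuotientGroup.mk_surjective z
  obtain ⟨n, hn⟩ := qgrow_aux σ y g R
  exact le_trans (by exact_mod_cast hn) (hX (g • y n))

end Pool.Agent.LO86
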