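import Pool.Agent.LO86.Orbits
import Pool.Agent.LO86.QGrow
import Pool.Agent.LO86.MainThin
import Pool.Agent.LO86.CIndex

set_option autoImplicit false
set_option linter.unusedSectionVars false
set_option linter.unusedVariables false

namespace Pool.Agent.LO86

open Pool.Agent.LHF

theorem vnm_ker_of_cut {G : Type*} [Group G] {ι : Type} [Fintype ι] {σ : ι → G}
    (hσ : GenData σ) (hFin : FinHF σ) {X : Type*}
    [MulAction G X] {C : ℝ} {d : ℕ}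
    (hX : ∀ (x : X) (R : ℕ), (orbN σ x R : ℝ) ≤ C * ((R : ℝ) + 1) ^ d) (hcut : UCut σ X) :
    VNm (MulAction.toPermHom G X).ker := by
  have hQ : QQ G := FinG.qq ⟨ι, inferInstance, σ, hσ, hFin⟩
  obtain ⟨N, hNn, hNv, hNfg, hN⟩ := exists_annih hFin hQ
  obtain ⟨Q, hQb⟩ := subOrb_bounded_of hσ hFin hX hNn hNfg hN fun y hL =>
    relIndex_ne_zero_of_cut hσ hFin hNn hNfg hN (C' := C) (d := d)
      (fun z R => orbN_limStab_le (f := fun R => C * ((R : ℝ) + 1) ^ d) hX y z R)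
      (cutAt_limStab hcut y) hL
  exact vnm_ker_of_bounded hNn hNfg hNv hQb

section sorb

variable {G : Type} [Group G] {X : Type} [MulAction G X] {ι : Type} [Fintype ι] {σ : ι → G}
  {S : Finset G}

lemma ucut_of_sorb (hσ : GenData σ) {K : ℕ} (hK1 : 1 ≤ K)
    (hK : ∀ R : ℕ, Ball σ R ⊆ SBall S (K * R))
    (hcut : ∃ C : ℕ, ∀ R₀ : ℕ, ∃ R₁ : ℕ, ∀ x : X, ∃ R : ℕ, R₀ ≤ R ∧ R ≤ R₁ ∧ ∃ B : Set X,
      SOrb S x R ⊆ B ∧ B ⊆ SOrb S x R₁ ∧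
      {y : X | y ∈ B ∧ ∃ s ∈ S, s • y ∉ B}.ncard ≤ C * R) :
    UCut σ X := by
  classical
  obtain ⟨c, hc⟩ := exists_scale_factor' S hσ
  obtain ⟨C, hC⟩ := hcut
  set M : ℕ := (SBall S K).ncard with hM
  refine ⟨(M : ℝ) * C * (2 * K), fun R0 => ?_⟩
  obtain ⟨R₁, hR₁⟩ := hC (K * (R0 + 1))
  refine ⟨c * R₁ + R₁, fun x => ?_⟩
  obtain ⟨R, hR, hRR, B, hB1, hB2, hB3⟩ := hR₁ x
  have hdiv : R0 + 1 ≤ R / K := by
    rw [Nat.le_div_iff_mul_le (by omega)]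
    rwa [Nat.mul_comm]
  have hdiv' : R / K ≤ R := Nat.div_le_self R K
  have hBfin : B.Finite := (sorb_finite S x R₁).subset hB2
  refine ⟨R / K, by omega, by omega, B, ?_, ?_, ?_⟩
  · intro g hg
    obtain ⟨l, hl1, hl2, hl3⟩ := hK _ hg
    apply hB1
    exact ⟨l, hl1, hl2.trans (Nat.mul_div_le R K), by rw [hl3]⟩
  · intro y hy
    obtain ⟨l, hl1, hl2, hl3⟩ := hB2 hy
    exact ⟨l.prod, ball_mono σ (Nat.le_add_right _ _) (hc R₁ ⟨l, hl1, hl2, rfl⟩), hl3⟩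
  · have hsub : bdry σ B ⊆ Set.image2 (fun (u : G) (z : X) => u⁻¹ • z) (SBall S K)
        {y : X | y ∈ B ∧ ∃ s ∈ S, s • y ∉ B} := by
      rintro y ⟨hy, j, hj⟩
      obtain ⟨l, hl1, hl2, hl3⟩ := hK 1 (step_mem_ball σ j)
      rw [← hl3] at hj
      obtain ⟨u, hu, h1, h2⟩ := exists_exit S B l hl1 hy hj
      exact ⟨u, sball_mono S (by simpa using hl2) hu, u • y, ⟨h1, h2⟩, inv_smul_smul u y⟩
    have hfin2 : {y : X | y ∈ B ∧ ∃ s ∈ S, s • y ∉ B}.Finite := hBfin.subset fun y hy => hy.1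
    have h4 : (bdry σ B).ncard ≤ M * {y : X | y ∈ B ∧ ∃ s ∈ S, s • y ∉ B}.ncard := by
      refine (Set.ncard_le_ncard hsub (Set.Finite.image2 _ (sball_finite S K) hfin2)).trans ?_
      rw [← Set.image_prod, hM, ← Set.ncard_prod]
      exact Set.ncard_image_le ((sball_finite S K).prod hfin2)
    have h5 := two_mul_div hK1 (le_trans (by nlinarith) hR : K ≤ R)
    have h6 : (bdry σ B).ncard ≤ M * (C * R) := h4.trans (Nat.mul_le_mul_left _ hB3)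
    calc ((bdry σ B).ncard : ℝ) ≤ (M : ℝ) * ((C : ℝ) * R) := by exact_mod_cast h6
      _ ≤ (M : ℝ) * ((C : ℝ) * (2 * K * ((R / K : ℕ) : ℝ))) := by gcongr
      _ = (M : ℝ) * C * (2 * K) * ((R / K : ℕ) : ℝ) := by ring

end sorb

theorem main_cut {G : Type} [Group G] (S : Finset G) (hsym : ∀ s ∈ S, s⁻¹ ∈ S)
    (hgen : Subgroup.closure (S : Set G) = ⊤)
    (hfin : ∃ V : Submodule ℝ (G → ℝ), FiniteDimensional ℝ V ∧
        ∀ f : G → ℝ,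
          (∀ g : G, ∑ s ∈ S, f (g * s) = (S.card : ℝ) * f g) →
          (∃ C : ℝ, ∀ g : G, ∀ s ∈ S, |f (g * s) - f g| ≤ C) →
          f ∈ V) {X : Type} [MulAction G X]
    (hgr : ∃ C d : ℕ, ∀ R : ℕ, 1 ≤ R → ∀ x : X, (SOrb S x R).ncard ≤ C * R ^ d)
    (h : ∃ C : ℕ, ∀ R₀ : ℕ, ∃ R₁ : ℕ, ∀ x : X, ∃ R : ℕ, R₀ ≤ R ∧ R ≤ R₁ ∧ ∃ B : Set X,
      SOrb S x R ⊆ B ∧ B ⊆ SOrb S x R₁ ∧
      {y : X | y ∈ B ∧ ∃ s ∈ S, s • y ∉ B}.ncard ≤ C * R) :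
    ∃ H : Subgroup (G ⧸ (MulAction.toPermHom G X).ker),
      H.FiniteIndex ∧ Group.IsNilpotent ↥H := by
  obtain ⟨ι, _, σ, hσ, hFin⟩ := finG_of_lhf S hsym hgen hfin
  obtain ⟨K, hK1, hK⟩ := exists_scale_factor S hsym hgen σ
  apply nilpotent_quotient_of_vnm
  obtain ⟨C, d, hC⟩ := hgr
  exact vnm_ker_of_cut hσ hFin (poly_of_sorb (σ := σ) hK1 hK hC) (ucut_of_sorb hσ hK1 hK h)

end Pool.Agent.LO86
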