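import Pool.Agent.LO86.ThinIndex

set_option autoImplicit false
set_option linter.unusedSectionVars false
set_option linter.unusedVariables false

namespace Pool.Agent.LO86

open Pool.Agent.LHF

variable {G : Type*} [Group G] {ι : Type} [Fintype ι]

/-- translates of an orbit of a normal subgroup that meet are equal -/
lemma csq_translate {X : Type*} [MulAction G X] {N : Subgroup G} (hNn : N.Normal) {e z z' : X}
    (hz : z ∈ subOrb N e) (hz' : z' ∈ subOrb N e) {u u' : G} (h : u • z = u' • z') :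
    ∀ w ∈ subOrb N e, ∃ w' ∈ subOrb N e, u' • w = u • w' := by
  rintro w ⟨m, hm, rfl⟩
  obtain ⟨m1, hm1, rfl⟩ := hz
  obtain ⟨m2, hm2, rfl⟩ := hz'
  -- `u' m e = u' m m2⁻¹ m2 e = (u' m m2⁻¹ u'⁻¹) u' m2 e = n u m1 e = u (u⁻¹ n u) m1 e`
  have hn : u' * (m * m2⁻¹) * u'⁻¹ ∈ N := hNn.conj_mem _ (N.mul_mem hm (N.inv_mem hm2)) u'
  have hn' : u⁻¹ * (u' * (m * m2⁻¹) * u'⁻¹) * u⁻¹⁻¹ ∈ N := hNn.conj_mem _ hn u⁻¹
  refine ⟨(u⁻¹ * (u' * (m * m2⁻¹) * u'⁻¹) * u⁻¹⁻¹ * m1) • e,
    ⟨_, N.mul_mem hn' hm1, rfl⟩, ?_⟩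
  have e1 : u • (u⁻¹ * (u' * (m * m2⁻¹) * u'⁻¹) * u⁻¹⁻¹ * m1) • e
      = (u' * (m * m2⁻¹) * u'⁻¹) • (u • m1 • e) := by
    simp only [← mul_smul]
    congr 1
    group
  rw [e1, h]
  simp only [← mul_smul]
  congr 1
  group

/-- if infinitely many orbits of `N` exist, some translate of an orbit avoids a finite set -/
lemma csq_avoid {K N : Subgroup G} (hNn : N.Normal) (hL : (K ⊔ N).index = 0) {B : Set (G ⧸ K)}
    (hB : B.Finite) (e : G ⧸ K) : ∃ g : G, ∀ z ∈ subOrb N e, g • z ∉ B := by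
  classical
  by_contra hcon
  push Not at hcon
  obtain ⟨a, rfl⟩ := QuotientGroup.mk_surjective e
  have hsurj : (Set.univ : Set (G ⧸ (K ⊔ N))) ⊆
      (fun z : G ⧸ K => (QuotientGroup.mk (Quotient.out z) : G ⧸ (K ⊔ N))) '' B := by
    intro q _
    obtain ⟨b, rfl⟩ := QuotientGroup.mk_surjective q
    obtain ⟨z, ⟨m, hm, rfl⟩, hzB⟩ := hcon (b * a⁻¹)
    refine ⟨_, hzB, ?_⟩
    have e1 : (b * a⁻¹) • m • (QuotientGroup.mk a : G ⧸ K) =
        (QuotientGroup.mk (b * a⁻¹ * (m * a)) : G ⧸ K) := rfl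
    have e2 : (QuotientGroup.mk (Quotient.out (QuotientGroup.mk (b * a⁻¹ * (m * a)) : G ⧸ K)) :
        G ⧸ K) = QuotientGroup.mk (b * a⁻¹ * (m * a)) := QuotientGroup.out_eq' _
    show (QuotientGroup.mk (Quotient.out ((b * a⁻¹) • m • (QuotientGroup.mk a : G ⧸ K))) :
      G ⧸ (K ⊔ N)) = QuotientGroup.mk b
    rw [e1]
    rw [QuotientGroup.eq] at e2 ⊢
    have e3 : (Quotient.out (QuotientGroup.mk (b * a⁻¹ * (m * a)) : G ⧸ K))⁻¹ * b =
        ((Quotient.out (QuotientGroup.mk (b * a⁻¹ * (m * a)) : G ⧸ K))⁻¹ *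
          (b * a⁻¹ * (m * a))) * (a⁻¹ * m⁻¹ * a⁻¹⁻¹) := by group
    rw [e3]
    exact mul_mem ((le_sup_left : K ≤ K ⊔ N) e2)
      ((le_sup_right : N ≤ K ⊔ N) (hNn.conj_mem _ (N.inv_mem hm) a⁻¹))
  have hfin : (Set.univ : Set (G ⧸ (K ⊔ N))).Finite := (hB.image _).subset hsurj
  have : Finite (G ⧸ (K ⊔ N)) := Set.finite_univ_iff.1 hfin
  exact Subgroup.index_ne_zero_of_finite (H := K ⊔ N) hL

/-- an orbit of `N` meets a finite set in at most as many points as the set has boundary points -/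
theorem ncard_inter_subOrb_le {σ : ι → G} (hσ : GenData σ) {K N : Subgroup G} (hNn : N.Normal)
    (hL : (K ⊔ N).index = 0) {B : Set (G ⧸ K)} (hB : B.Finite) (e : G ⧸ K) :
    (B ∩ subOrb N e).ncard ≤ (bdry σ B).ncard := by
  classical
  have hex : ∃ n : ℕ, ∃ l : List ι, (∀ z ∈ subOrb N e, wprod σ l • z ∉ B) ∧ l.length = n := by
    obtain ⟨g, hg⟩ := csq_avoid hNn hL hB e
    obtain ⟨l, rfl⟩ := hσ.gen g
    exact ⟨l.length, l, hg, rfl⟩
  obtain ⟨l, h1, h2⟩ := Nat.find_spec hex
  have hmin : ∀ l' : List ι, (∀ z ∈ subOrb N e, wprod σ l' • z ∉ B) → l.length ≤ l'.length := by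
    intro l' h3
    rw [h2]
    exact Nat.find_min' hex ⟨l', h3, rfl⟩
  -- the first exit
  have hexit : ∀ z ∈ B ∩ subOrb N e, ∃ i, i < l.length ∧ wprod σ (l.drop (i + 1)) • z ∈ B ∧
      wprod σ (l.drop i) • z ∉ B := by
    rintro z ⟨hzB, hzO⟩
    by_contra hcon
    push Not at hcon
    have hall : ∀ k ≤ l.length, wprod σ (l.drop (l.length - k)) • z ∈ B := by
      intro k
      induction k with
      | zero =>
        intro _
        rw [Nat.sub_zero, List.drop_length, wprod_nil, one_smul]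
        exact hzB
      | succ k ih =>
        intro hk
        have h3 := ih (by omega)
        have h4 := hcon (l.length - (k + 1)) (by omega)
        have e1 : l.length - (k + 1) + 1 = l.length - k := by omega
        rw [e1] at h4
        exact h4 h3
    have h3 := hall l.length le_rfl
    rw [Nat.sub_self, List.drop_zero] at h3
    exact h1 z hzO h3
  have hch : ∀ z : G ⧸ K, ∃ i, z ∈ B ∩ subOrb N e → (i < l.length ∧
      wprod σ (l.drop (i + 1)) • z ∈ B ∧ wprod σ (l.drop i) • z ∉ B) := by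
    intro z
    by_cases hz : z ∈ B ∩ subOrb N e
    · obtain ⟨i, hi⟩ := hexit z hz
      exact ⟨i, fun _ => hi⟩
    · exact ⟨0, fun h => absurd h hz⟩
  choose idx hidx using hch
  refine Set.ncard_le_ncard_of_injOn (fun z => wprod σ (l.drop (idx z + 1)) • z) ?_ ?_
    (hB.subset fun z hz => hz.1)
  · intro z hz
    obtain ⟨hi, hin, hout⟩ := hidx z hz
    refine ⟨hin, l[idx z], ?_⟩
    rw [List.drop_eq_getElem_cons hi, wprod_cons, mul_smul] at hout
    exact hout
  · have key : ∀ z ∈ B ∩ subOrb N e, ∀ z' ∈ B ∩ subOrb N e, idx z < idx z' →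
        wprod σ (l.drop (idx z + 1)) • z ≠ wprod σ (l.drop (idx z' + 1)) • z' := by
      intro z hz z' hz' hlt heq
      have hi' := (hidx z' hz').1
      have h3 := hmin (l.take (idx z + 1) ++ l.drop (idx z' + 1)) (by
        intro w hw
        obtain ⟨w', hw', hww⟩ := csq_translate hNn hz.2 hz'.2 heq w hw
        rw [wprod_append, mul_smul, hww, ← mul_smul, ← wprod_append, List.take_append_drop]
        exact h1 w' hw')
      rw [List.length_append, List.length_take, List.length_drop] at h3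
      omega
    intro z hz z' hz' heq
    rcases lt_trichotomy (idx z) (idx z') with h | h | h
    · exact absurd heq (key z hz z' hz' h)
    · simp only [h] at heq
      exact MulAction.injective _ heq
    · exact absurd heq.symm (key z' hz' z hz h)

/-- The square inequality: if the orbits of the finitely generated normal subgroup `N` on `G ⧸ K`
are infinite and there are infinitely many of them, then a finite set with `b` boundary points has
at most `c * b ^ 2` elements. -/
theorem ncard_le_sq_bdry {σ : ι → G} (hσ : GenData σ) {K N : Subgroup G} (hNn : N.Normal)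
    (hNfg : N.FG) (h0 : K.relIndex N = 0) (hL : (K ⊔ N).index = 0) :
    ∃ c : ℕ, ∀ B : Set (G ⧸ K), B.Finite → B.ncard ≤ c * (bdry σ B).ncard ^ 2 := by
  classical
  obtain ⟨κ, _, σ', hσ'⟩ := exists_family hNfg
  obtain ⟨lam, hlam0⟩ := finite_subset_ball hσ (Set.finite_range (fun j : κ => (σ' j : G)))
  have hlam : ∀ j, (σ' j : G) ∈ Ball σ lam := fun j => hlam0 ⟨j, rfl⟩
  refine ⟨(Ball σ lam).ncard, fun B hBf => ?_⟩
  have hbf : (bdry σ B).Finite := hBf.subset fun y hy => hy.1
  -- every `N`-orbit of a point of `B` meets `E`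
  have key : ∀ g : G, ((g : G) : G ⧸ K) ∈ B → ∃ n ∈ N,
      n • ((g : G) : G ⧸ K) ∈
        Set.image2 (fun (v : G) (y : G ⧸ K) => v • y) (Ball σ lam) (bdry σ B) := by
    intro g hgB
    by_contra hcon
    push Not at hcon
    have hstep : ∀ n ∈ N, n • ((g : G) : G ⧸ K) ∈ B → ∀ l : List ι, l.length ≤ lam →
        wprod σ l • (n • ((g : G) : G ⧸ K)) ∈ B := by
      intro n hn hnB l
      induction l with
      | nil =>
        intro _
        rw [wprod_nil, one_smul]
        exact hnB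
      | cons i l ih =>
        intro hl
        have hl' : l.length ≤ lam := by
          rw [List.length_cons] at hl
          omega
        have hy := ih hl'
        rw [wprod_cons, mul_smul]
        by_contra hout
        refine hcon n hn ⟨(wprod σ l)⁻¹, inv_mem_ball hσ ⟨l, hl', rfl⟩,
          wprod σ l • (n • ((g : G) : G ⧸ K)), ⟨hy, i, hout⟩, ?_⟩
        exact inv_smul_smul _ _
    have hall : ∀ l : List κ, ((wprod σ' l : N) : G) • ((g : G) : G ⧸ K) ∈ B := by
      intro l
      induction l with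
      | nil =>
        rw [wprod_nil, Subgroup.coe_one, one_smul]
        exact hgB
      | cons j l ih =>
        rw [wprod_cons, Subgroup.coe_mul, mul_smul]
        obtain ⟨w, hw, hwj⟩ := hlam j
        rw [← hwj]
        exact hstep _ (wprod σ' l).2 ih w hw
    have hall' : ∀ m : N, ((g * (m : G) : G) : G ⧸ K) ∈ B := by
      intro m
      have hn : g * (m : G) * g⁻¹ ∈ N := hNn.conj_mem _ m.2 g
      obtain ⟨l, hl⟩ := hσ' ⟨_, hn⟩
      have h1 := hall l
      rw [hl] at h1
      have h2 : (g * (m : G) * g⁻¹) • ((g : G) : G ⧸ K) = ((g * (m : G) : G) : G ⧸ K) := by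
        rw [MulAction.Quotient.smul_mk, smul_eq_mul, inv_mul_cancel_right]
      rw [← h2]
      exact h1
    have hfin : Finite (N ⧸ K.subgroupOf N) := by
      haveI : Finite B := hBf
      refine Finite.of_injective
        (fun q : N ⧸ K.subgroupOf N => (⟨_, hall' (Quotient.out q)⟩ : B)) ?_
      intro q q' h
      have h1 : ((g * ((Quotient.out q : N) : G) : G) : G ⧸ K) =
          ((g * ((Quotient.out q' : N) : G) : G) : G ⧸ K) := congrArg Subtype.val h
      rw [QuotientGroup.eq] at h1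
      have h2 : (Quotient.out q)⁻¹ * Quotient.out q' ∈ K.subgroupOf N := by
        rw [Subgroup.mem_subgroupOf, Subgroup.coe_mul, Subgroup.coe_inv]
        have e1 : ((Quotient.out q : N) : G)⁻¹ * ((Quotient.out q' : N) : G) =
            (g * ((Quotient.out q : N) : G))⁻¹ * (g * ((Quotient.out q' : N) : G)) := by group
        rw [e1]
        exact h1
      rw [← QuotientGroup.out_eq' q, ← QuotientGroup.out_eq' q']
      exact QuotientGroup.eq.2 h2
    exact Subgroup.index_ne_zero_of_finite h0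
  set E : Set (G ⧸ K) := Set.image2 (fun (v : G) (y : G ⧸ K) => v • y) (Ball σ lam) (bdry σ B)
    with hEdef
  have hE : E.Finite := Set.Finite.image2 _ (ball_finite σ lam) hbf
  have hEcard : E.ncard ≤ (Ball σ lam).ncard * (bdry σ B).ncard := by
    rw [hEdef, ← Set.image_uncurry_prod, ← Set.ncard_prod]
    exact Set.ncard_image_le ((ball_finite σ lam).prod hbf)
  have hcov : B ⊆ ⋃ e ∈ hE.toFinset, B ∩ subOrb N e := by
    intro z hz
    obtain ⟨g, rfl⟩ := QuotientGroup.mk_surjective z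
    obtain ⟨n, hn, hnE⟩ := key g hz
    simp only [Set.mem_iUnion]
    refine ⟨_, hE.mem_toFinset.2 hnE, hz, n⁻¹, N.inv_mem hn, ?_⟩
    exact inv_smul_smul _ _
  have h3 : B.ncard ≤ ∑ e ∈ hE.toFinset, (B ∩ subOrb N e).ncard := by
    refine (Set.ncard_le_ncard hcov ?_).trans (Finset.set_ncard_biUnion_le _ _)
    exact Set.Finite.subset hBf (Set.iUnion₂_subset fun e _ => Set.inter_subset_left)
  have h4 : ∑ e ∈ hE.toFinset, (B ∩ subOrb N e).ncard ≤ ∑ _e ∈ hE.toFinset, (bdry σ B).ncard :=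
    Finset.sum_le_sum fun e _ => ncard_inter_subOrb_le hσ hNn hL hBf e
  rw [Finset.sum_const, smul_eq_mul, ← Set.ncard_eq_toFinset_card _ hE] at h4
  calc B.ncard ≤ E.ncard * (bdry σ B).ncard := h3.trans h4
    _ ≤ ((Ball σ lam).ncard * (bdry σ B).ncard) * (bdry σ B).ncard :=
        Nat.mul_le_mul_right _ hEcard
    _ = (Ball σ lam).ncard * (bdry σ B).ncard ^ 2 := by ring

end Pool.Agent.LO86
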