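import Pool.Agent.LO86.Defs

set_option autoImplicit false
set_option linter.unusedSectionVars false
set_option linter.unusedVariables false

namespace Pool.Agent.LO86

open Pool.Agent.LHF

variable {G : Type*} [Group G] {ι : Type} [Fintype ι]

/-- balls meet at least linearly many cosets of a subgroup of infinite index -/
theorem succ_le_cosN {σ : ι → G} (hgen : ∀ g : G, ∃ l : List ι, wprod σ l = g)
    {L : Subgroup G} (hL : L.index = 0) (R : ℕ) : R + 1 ≤ cosN σ L R := by
  have hfin : ∀ R, ((fun g : G => (QuotientGroup.mk g : G ⧸ L)) '' Ball σ R).Finite :=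
    fun R => (ball_finite σ R).image _
  induction R with
  | zero =>
    rw [zero_add, Nat.one_le_iff_ne_zero, ← Nat.pos_iff_ne_zero]
    exact (Set.ncard_pos (hfin 0)).2 ⟨_, ⟨1, one_mem_ball σ 0, rfl⟩⟩
  | succ R ih =>
    by_contra hcon
    have h1 : cosN σ L (R + 1) ≤ cosN σ L R := by omega
    have h2 : (fun g : G => (QuotientGroup.mk g : G ⧸ L)) '' Ball σ R ⊆
        (fun g : G => (QuotientGroup.mk g : G ⧸ L)) '' Ball σ (R + 1) :=
      Set.image_mono (ball_mono σ (Nat.le_succ R))
    have h3 := Set.eq_of_subset_of_ncard_le h2 h1 (hfin (R + 1))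
    have h4 : ∀ l : List ι, (QuotientGroup.mk (wprod σ l) : G ⧸ L) ∈
        (fun g : G => (QuotientGroup.mk g : G ⧸ L)) '' Ball σ R := by
      intro l
      induction l with
      | nil => exact ⟨1, one_mem_ball σ R, by simp⟩
      | cons j l ihl =>
        obtain ⟨g, hg, hgl⟩ := ihl
        rw [h3]
        refine ⟨σ j * g, ?_, ?_⟩
        · rw [add_comm R 1]
          exact mul_mem_ball σ (step_mem_ball σ j) hg
        · rw [wprod_cons]
          have h5 : (QuotientGroup.mk g : G ⧸ L) = QuotientGroup.mk (wprod σ l) := hgl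
          rw [QuotientGroup.eq] at h5
          change (QuotientGroup.mk (σ j * g) : G ⧸ L) = QuotientGroup.mk (σ j * wprod σ l)
          rw [QuotientGroup.eq]
          have e : (σ j * g)⁻¹ * (σ j * wprod σ l) = g⁻¹ * wprod σ l := by group
          rw [e]
          exact h5
    have h6 : Finite (G ⧸ L) := by
      rw [← Set.finite_univ_iff]
      refine (hfin R).subset ?_
      intro q _
      obtain ⟨g, rfl⟩ := QuotientGroup.mk_surjective q
      obtain ⟨l, rfl⟩ := hgen g
      exact h4 l
    exact Subgroup.index_ne_zero_of_finite hL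

end Pool.Agent.LO86
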