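import Pool.Agent.LHF.QQ

set_option autoImplicit false
set_option linter.unusedSectionVars false
set_option linter.unusedVariables false

namespace Pool.Agent.LO86

open Pool.Agent.LHF

variable {G : Type*} [Group G] {ι : Type} [Fintype ι]

/-- elements that are products of at most `R` members of the family -/
def Ball (σ : ι → G) (R : ℕ) : Set G := {g | ∃ l : List ι, l.length ≤ R ∧ wprod σ l = g}

lemma one_mem_ball (σ : ι → G) (R : ℕ) : (1 : G) ∈ Ball σ R := ⟨[], by simp, rfl⟩

lemma ball_mono (σ : ι → G) {R R' : ℕ} (h : R ≤ R') : Ball σ R ⊆ Ball σ R' := by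
  rintro _ ⟨l, hl, rfl⟩
  exact ⟨l, hl.trans h, rfl⟩

lemma mul_mem_ball (σ : ι → G) {R R' : ℕ} {a b : G} (ha : a ∈ Ball σ R) (hb : b ∈ Ball σ R') :
    a * b ∈ Ball σ (R + R') := by
  obtain ⟨l, hl, rfl⟩ := ha
  obtain ⟨l', hl', rfl⟩ := hb
  exact ⟨l ++ l', by rw [List.length_append]; omega, wprod_append σ l l'⟩

lemma step_mem_ball (σ : ι → G) (j : ι) : σ j ∈ Ball σ 1 := ⟨[j], by simp, by simp⟩

lemma wprod_inv {σ : ι → G} {τ : ι → ι} (hτ : ∀ j, σ (τ j) = (σ j)⁻¹) (l : List ι) :
    wprod σ (l.reverse.map τ) = (wprod σ l)⁻¹ := by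
  induction l with
  | nil => simp
  | cons j l ih =>
    rw [List.reverse_cons, List.map_append, wprod_append, ih, wprod_cons, mul_inv_rev]
    simp [hτ]

lemma inv_mem_ball {σ : ι → G} (hσ : GenData σ) {R : ℕ} {a : G} (ha : a ∈ Ball σ R) :
    a⁻¹ ∈ Ball σ R := by
  obtain ⟨τ, hτ⟩ := hσ.sym
  obtain ⟨l, hl, rfl⟩ := ha
  exact ⟨l.reverse.map τ, by simpa using hl, wprod_inv hτ l⟩

lemma ball_finite (σ : ι → G) (R : ℕ) : (Ball σ R).Finite := by
  classical
  induction R with
  | zero =>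
    refine (Set.finite_singleton (1 : G)).subset ?_
    rintro _ ⟨l, hl, rfl⟩
    have : l = [] := List.length_eq_zero_iff.mp (Nat.le_zero.mp hl)
    subst this; simp
  | succ R ih =>
    refine ((Set.finite_singleton (1 : G)).union
      (Set.Finite.image2 (fun j g => σ j * g) (Set.finite_univ (α := ι)) ih)).subset ?_
    rintro _ ⟨l, hl, rfl⟩
    cases l with
    | nil => left; simp
    | cons j l =>
      right
      exact ⟨j, trivial, wprod σ l, ⟨l, by simpa using hl, rfl⟩, (wprod_cons σ j l).symm⟩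

lemma exists_mem_ball {σ : ι → G} (hσ : GenData σ) (g : G) : ∃ R, g ∈ Ball σ R := by
  obtain ⟨l, hl⟩ := hσ.gen g
  exact ⟨l.length, l, le_rfl, hl⟩

lemma finite_subset_ball {σ : ι → G} (hσ : GenData σ) {A : Set G} (hA : A.Finite) :
    ∃ R, A ⊆ Ball σ R := by
  induction A, hA using Set.Finite.induction_on with
  | empty => exact ⟨0, Set.empty_subset _⟩
  | insert _ _ ih =>
    rename_i a s _ _
    obtain ⟨R, hR⟩ := ih
    obtain ⟨R', hR'⟩ := exists_mem_ball hσ a
    refine ⟨max R R', ?_⟩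
    rintro x (rfl | hx)
    · exact ball_mono σ (le_max_right _ _) hR'
    · exact ball_mono σ (le_max_left _ _) (hR hx)

/-- Lipschitz harmonic functions -/
def IsLHF (σ : ι → G) (f : G → ℝ) : Prop :=
  avg σ f = f ∧ ∃ K : ℝ, ∀ x j, |f (x * σ j) - f x| ≤ K

/-- number of left cosets of `K` meeting the ball of radius `R` -/
noncomputable def cosN (σ : ι → G) (K : Subgroup G) (R : ℕ) : ℕ :=
  ((fun g : G => (QuotientGroup.mk g : G ⧸ K)) '' Ball σ R).ncard

/-- number of points of the orbit of `x` at distance at most `R` from `x` -/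
noncomputable def orbN {X : Type*} [MulAction G X] (σ : ι → G) (x : X) (R : ℕ) : ℕ :=
  ((fun g : G => g • x) '' Ball σ R).ncard

/-- growth functions of size `o(R ^ 2)` -/
def Subq (f : ℕ → ℝ) : Prop := ∀ ε : ℝ, 0 < ε → ∃ R0 : ℕ, ∀ R : ℕ, R0 ≤ R → f R ≤ ε * (R : ℝ) ^ 2

/-- the elements that fix `y n` for all `n` in the ultrafilter -/
def limStab {X : Type*} [MulAction G X] (y : ℕ → X) : Subgroup G where
  carrier := {k | ∀ᶠ n in (Filter.hyperfilter ℕ : Filter ℕ), k • y n = y n}
  one_mem' := by simp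
  mul_mem' := by
    intro a b ha hb
    change ∀ᶠ n in (Filter.hyperfilter ℕ : Filter ℕ), (a * b) • y n = y n
    change ∀ᶠ n in (Filter.hyperfilter ℕ : Filter ℕ), a • y n = y n at ha
    change ∀ᶠ n in (Filter.hyperfilter ℕ : Filter ℕ), b • y n = y n at hb
    filter_upwards [ha, hb] with n h1 h2
    rw [mul_smul, h2, h1]
  inv_mem' := by
    intro a ha
    change ∀ᶠ n in (Filter.hyperfilter ℕ : Filter ℕ), a⁻¹ • y n = y n
    change ∀ᶠ n in (Filter.hyperfilter ℕ : Filter ℕ), a • y n = y n at ha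
    filter_upwards [ha] with n h1
    rw [inv_smul_eq_iff, h1]

lemma mem_limStab {X : Type*} [MulAction G X] {y : ℕ → X} {k : G} :
    k ∈ limStab y ↔ ∀ᶠ n in (Filter.hyperfilter ℕ : Filter ℕ), k • y n = y n := Iff.rfl

/-- elements acting trivially on the gradients of all left translates of `F` -/
def linKer (σ : ι → G) (F : G → ℝ) : Subgroup G where
  carrier := {n | ∀ h x j, F (h * n * (x * σ j)) - F (h * n * x) = F (h * (x * σ j)) - F (h * x)}
  one_mem' := by intro h x j; simp
  mul_mem' := by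
    intro a b ha hb h x j
    have h1 := ha h (b * x) j
    have h2 := hb h x j
    have h3 := hb (h * a) x j
    have e1 : h * (a * b) * (x * σ j) = h * a * b * (x * σ j) := by group
    have e2 : h * (a * b) * x = h * a * b * x := by group
    have e3 : h * a * b * (x * σ j) = h * a * (b * x * σ j) := by group
    have e4 : h * a * b * x = h * a * (b * x) := by group
    have e5 : h * (b * x * σ j) = h * b * (x * σ j) := by group
    have e6 : h * (b * x) = h * b * x := by group
    rw [e1, e2, e3, e4, h1, e5, e6, h2]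
  inv_mem' := by
    intro a ha h x j
    have h1 := ha (h * a⁻¹) x j
    have e1 : h * a⁻¹ * a = h := by group
    rw [e1] at h1
    exact h1.symm

lemma mem_linKer {σ : ι → G} {F : G → ℝ} {n : G} :
    n ∈ linKer σ F ↔ ∀ h x j, F (h * n * (x * σ j)) - F (h * n * x) =
      F (h * (x * σ j)) - F (h * x) := Iff.rfl

lemma linKer_normal (σ : ι → G) (F : G → ℝ) : (linKer σ F).Normal := by
  constructor
  intro n hn g h x j
  have h1 := hn (h * g) (g⁻¹ * x) j
  have e1 : h * (g * n * g⁻¹) * (x * σ j) = h * g * n * (g⁻¹ * x * σ j) := by group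
  have e2 : h * (g * n * g⁻¹) * x = h * g * n * (g⁻¹ * x) := by group
  have e3 : h * (x * σ j) = h * g * (g⁻¹ * x * σ j) := by group
  have e4 : h * x = h * g * (g⁻¹ * x) := by group
  rw [e1, e2, e3, e4, h1]

/-- elements acting trivially on all left translates of `F` -/
def annKer (F : G → ℝ) : Subgroup G where
  carrier := {n | ∀ h x, F (h * n * x) = F (h * x)}
  one_mem' := by intro h x; simp
  mul_mem' := by
    intro a b ha hb h x
    have e1 : h * (a * b) * x = h * a * (b * x) := by group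
    have e2 : h * (b * x) = h * b * x := by group
    rw [e1, ha, e2, hb]
  inv_mem' := by
    intro a ha h x
    have h1 := ha (h * a⁻¹) x
    have e1 : h * a⁻¹ * a = h := by group
    rw [e1] at h1
    exact h1.symm

lemma mem_annKer {F : G → ℝ} {n : G} : n ∈ annKer F ↔ ∀ h x, F (h * n * x) = F (h * x) := Iff.rfl

lemma annKer_normal (F : G → ℝ) : (annKer F).Normal := by
  constructor
  intro n hn g h x
  have h1 := hn (h * g) (g⁻¹ * x)
  have e1 : h * (g * n * g⁻¹) * x = h * g * n * (g⁻¹ * x) := by group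
  have e2 : h * x = h * g * (g⁻¹ * x) := by group
  rw [e1, e2, h1]

/-- the orbit of `x` under a subgroup -/
def subOrb {X : Type*} [MulAction G X] (N : Subgroup G) (x : X) : Set X := {y | ∃ m ∈ N, m • x = y}

/-- left-normed commutators of weight `m + 1` of elements of `T` -/
def Cm (T : Set G) : ℕ → Set G
  | 0 => T
  | m + 1 => {g | ∃ c ∈ Cm T m, ∃ t ∈ T, g = c * t * c⁻¹ * t⁻¹}

/-- the product `g k ^ e k * g (k+1) ^ e (k+1) * ...` with `n` factors -/
def wp (g : ℕ → G) (e : ℕ → ℕ) : ℕ → ℕ → G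
  | _, 0 => 1
  | k, n + 1 => g k ^ e k * wp g e (k + 1) n

lemma Subq.poly {f : ℕ → ℝ} (hf : Subq f) : ∃ C : ℝ, 0 ≤ C ∧ ∀ R : ℕ, f R ≤ C * ((R : ℝ) + 1) ^ 2 := by
  obtain ⟨R0, hR0⟩ := hf 1 one_pos
  refine ⟨1 + ∑ R ∈ Finset.range R0, |f R|, by positivity, fun R => ?_⟩
  have h1 : (1 : ℝ) ≤ ((R : ℝ) + 1) ^ 2 := by
    have : (0 : ℝ) ≤ R := Nat.cast_nonneg R
    nlinarith
  have h0 : 0 ≤ ∑ R ∈ Finset.range R0, |f R| := by positivity
  by_cases h : R0 ≤ R
  · have h2 := hR0 R h
    have h3 : (R : ℝ) ^ 2 ≤ ((R : ℝ) + 1) ^ 2 := by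
      have : (0 : ℝ) ≤ R := Nat.cast_nonneg R
      nlinarith
    nlinarith
  · have h2 : |f R| ≤ ∑ R ∈ Finset.range R0, |f R| :=
      Finset.single_le_sum (f := fun R => |f R|) (fun _ _ => abs_nonneg _)
        (Finset.mem_range.mpr (by omega))
    have h3 := le_abs_self (f R)
    nlinarith

end Pool.Agent.LO86
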