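import Pool.Agent.LO86.Scale

set_option autoImplicit false
set_option linter.unusedSectionVars false
set_option linter.unusedVariables false

namespace Pool.Agent.LO86

open Pool.Agent.LHF

variable {G : Type*} [Group G] {ι : Type} [Fintype ι]

/-- least length of a word that carries `x` to `g⁻¹ • x` -/
noncomputable def dst (σ : ι → G) {X : Type*} [MulAction G X] (x : X) (g : G) : ℕ :=
  sInf {k | ∃ l : List ι, l.length = k ∧ wprod σ l • x = g⁻¹ • x}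

lemma dst_le {σ : ι → G} {X : Type*} [MulAction G X] {x : X} {g : G} (l : List ι)
    (hl : wprod σ l • x = g⁻¹ • x) : dst σ x g ≤ l.length :=
  Nat.sInf_le ⟨l, rfl, hl⟩

lemma dst_exists {σ : ι → G} (hσ : GenData σ) {X : Type*} [MulAction G X] (x : X) (g : G) :
    ∃ l : List ι, l.length = dst σ x g ∧ wprod σ l • x = g⁻¹ • x := by
  obtain ⟨l, hl⟩ := hσ.gen g⁻¹
  exact Nat.sInf_mem (s := {k | ∃ l : List ι, l.length = k ∧ wprod σ l • x = g⁻¹ • x})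
    ⟨l.length, l, rfl, by rw [hl]⟩

lemma dst_one (σ : ι → G) {X : Type*} [MulAction G X] (x : X) : dst σ x 1 = 0 := by
  have h : dst σ x 1 ≤ 0 := dst_le (σ := σ) (x := x) (g := 1) [] (by simp)
  omega

lemma dst_mul_left (σ : ι → G) {X : Type*} [MulAction G X] {x : X} {k : G} (hk : k • x = x)
    (g : G) : dst σ x (k * g) = dst σ x g := by
  have h : (k * g)⁻¹ • x = g⁻¹ • x := by
    rw [mul_inv_rev, mul_smul, inv_smul_eq_iff.mpr hk.symm]
  unfold dst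
  rw [h]

lemma dst_step {σ : ι → G} (hσ : GenData σ) {X : Type*} [MulAction G X] (x : X) (g : G) (j : ι) :
    dst σ x (g * σ j) ≤ dst σ x g + 1 ∧ dst σ x g ≤ dst σ x (g * σ j) + 1 := by
  obtain ⟨τ, hτ⟩ := hσ.sym
  constructor
  · obtain ⟨l, hl, hx⟩ := dst_exists hσ x g
    have h := dst_le (σ := σ) (x := x) (g := g * σ j) (τ j :: l) (by
      rw [wprod_cons, mul_smul, hx, hτ, mul_inv_rev, mul_smul])
    rw [List.length_cons, hl] at h
    exact h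
  · obtain ⟨l, hl, hx⟩ := dst_exists hσ x (g * σ j)
    have h := dst_le (σ := σ) (x := x) (g := g) (j :: l) (by
      rw [wprod_cons, mul_smul, hx, mul_inv_rev, mul_smul, smul_inv_smul])
    rw [List.length_cons, hl] at h
    exact h

/-- one scale, for two points of a `G`-set at distance at least `4 n` -/
theorem exists_scale {σ : ι → G} (hσ : GenData σ) {X : Type*} [MulAction G X] (x x' : X)
    (hx : ∃ g : G, g • x = x') {n : ℕ} (hn : 1 ≤ n)
    (hd : ∀ g ∈ Ball σ (4 * n - 1), g • x ≠ x') :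
    ∃ (y : X) (Ψ : G → ℝ), (∃ g : G, g • x = y) ∧ (∀ x j, |Ψ (x * σ j) - Ψ x| ≤ 1) ∧
      (∀ x, |Ψ x - avg σ Ψ x| ≤ 2) ∧
      (∀ x, |(Ψ x - avg σ Ψ x) - avg σ (fun y => Ψ y - avg σ Ψ y) x| ≤ 4 / (n : ℝ)) ∧
      (∃ j, 1 / 4 ≤ |Ψ (σ j) - Ψ 1|) ∧
      (∀ k : G, k • y = y → ∀ g, Ψ (k * g) = Ψ g) := by
  obtain ⟨τ, hτ⟩ := hσ.sym
  obtain ⟨g1, hg1⟩ := hx
  obtain ⟨w, hw, hwx⟩ := dst_exists hσ x g1⁻¹
  rw [inv_inv, hg1] at hwx
  have hlen : 4 * n ≤ w.length := by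
    by_contra hlt
    exact hd (wprod σ w) ⟨w, by omega, rfl⟩ hwx
  have hinv : wprod σ (w.reverse.map τ) = (wprod σ w)⁻¹ := wprod_inv hτ w
  have hll : (w.reverse.map τ).length = w.length := by simp
  have hval : dst σ x (wprod σ (w.reverse.map τ)) = w.length := by
    rw [hw]
    unfold dst
    rw [hinv, inv_inv, inv_inv, hwx, hg1]
  have hφ : ∀ (z : G) (j : ι), |((dst σ x (z * σ j) : ℕ) : ℝ) - ((dst σ x z : ℕ) : ℝ)| ≤ 1 := by
    intro z j
    obtain ⟨h1, h2⟩ := dst_step hσ x z j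
    have h1' : ((dst σ x (z * σ j) : ℕ) : ℝ) ≤ (dst σ x z : ℕ) + 1 := by exact_mod_cast h1
    have h2' : ((dst σ x z : ℕ) : ℝ) ≤ (dst σ x (z * σ j) : ℕ) + 1 := by exact_mod_cast h2
    rw [abs_le]
    constructor <;> linarith
  obtain ⟨g0, Ψ, hΨ1, hΨ2, hΨ3, hΨ4, hΨ5⟩ := scale hσ (φ := fun g => ((dst σ x g : ℕ) : ℝ)) hφ hn
    (w.reverse.map τ) (by rw [hll]; exact hlen) (by
      simp only [hval, dst_one, hll, Nat.cast_zero, sub_zero]
      exact le_refl _)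
  refine ⟨g0⁻¹ • x, Ψ, ⟨g0⁻¹, rfl⟩, hΨ1, hΨ2, hΨ3, hΨ4, fun k hk g => ?_⟩
  have hk' : (g0 * k * g0⁻¹) • x = x := by
    rw [mul_smul, mul_smul, hk, smul_inv_smul]
  have h := hΨ5 (g0 * k * g0⁻¹) (fun z => by
    simp only [dst_mul_left σ hk' z]) g
  have e : g0⁻¹ * (g0 * k * g0⁻¹) * g0 * g = k * g := by group
  rw [e] at h
  exact h

end Pool.Agent.LO86
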