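import Pool.Agent.LO86.Defs

set_option autoImplicit false
set_option linter.unusedSectionVars false
set_option linter.unusedVariables false

namespace Pool.Agent.LO86

open Pool.Agent.LHF
open scoped ENNReal Topology

section liou
variable {G : Type*} [Group G] {ι : Type} [Fintype ι]

section aux
variable [Nonempty ι] {σ : ι → G}

lemma max_step {v : G → ℝ} {s : ℝ} (hv : avg σ v = v) (hs : ∀ x, v x ≤ s) {x0 : G}
    (h0 : v x0 = s) (j : ι) : v (x0 * σ j) = s := by
  by_contra hne
  have hlt : v (x0 * σ j) < s := lt_of_le_of_ne (hs _) hne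
  have h1 : avg σ v x0 < s := by
    rw [avg_def, div_lt_iff₀ (card_pos' (ι := ι))]
    calc ∑ i, v (x0 * σ i) < ∑ _i : ι, s :=
          Finset.sum_lt_sum (fun i _ => hs _) ⟨j, Finset.mem_univ j, hlt⟩
      _ = s * (Fintype.card ι : ℝ) := by
          rw [Finset.sum_const, Finset.card_univ, nsmul_eq_mul, mul_comm]
  rw [hv, h0] at h1
  exact lt_irrefl _ h1

lemma max_principle {v : G → ℝ} {s : ℝ} (hv : avg σ v = v) (hs : ∀ x, v x ≤ s) {x0 : G}
    (h0 : v x0 = s) (l : List ι) : v (x0 * wprod σ l) = s := by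
  induction l generalizing x0 with
  | nil => simpa using h0
  | cons j l ih =>
    rw [wprod_cons, ← mul_assoc]
    exact ih (max_step hv hs h0 j)

lemma const_of_max (hgen : ∀ g : G, ∃ l : List ι, wprod σ l = g) {v : G → ℝ} {s : ℝ}
    (hv : avg σ v = v) (hs : ∀ x, v x ≤ s) {x0 : G} (h0 : v x0 = s) (x : G) : v x = s := by
  obtain ⟨l, hl⟩ := hgen (x0⁻¹ * x)
  have := max_principle hv hs h0 l
  rw [hl, mul_inv_cancel_left] at this
  exact this

/-- **Liouville property** -/
theorem liouville_aux (hFin : FinHF σ) (hgen : ∀ g : G, ∃ l : List ι, wprod σ l = g) {h : G → ℝ}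
    (hh : avg σ h = h) {B : ℝ} (hB : ∀ x, |h x| ≤ B) (x : G) : h x = h 1 := by
  classical
  obtain ⟨V, hV, hVm⟩ := hFin
  have hB0 : 0 ≤ B := (abs_nonneg _).trans (hB 1)
  let e : G → lp (fun _ : G => ℝ) ∞ := fun g => ⟨fun x => h (g * x), by
    apply memℓp_infty
    refine ⟨B, ?_⟩
    rintro _ ⟨i, rfl⟩
    exact hB _⟩
  have heval : ∀ g x, e g x = h (g * x) := fun g x => rfl
  set U : Submodule ℝ (lp (fun _ : G => ℝ) ∞) := Submodule.span ℝ (Set.range e) with hU
  let co : lp (fun _ : G => ℝ) ∞ →ₗ[ℝ] (G → ℝ) :=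
    { toFun := fun e => e
      map_add' := fun f g => rfl
      map_smul' := fun c f => rfl }
  have hco : ∀ u ∈ U, co u ∈ V := by
    intro u hu
    have : U ≤ V.comap co := by
      rw [hU, Submodule.span_le]
      rintro _ ⟨g, rfl⟩
      change (fun x => h (g * x)) ∈ V
      apply hVm
      · funext x
        rw [avg_translate, hh]
      · refine ⟨2 * B, fun x j => ?_⟩
        have h1 := hB (g * (x * σ j))
        have h2 := hB (g * x)
        rw [abs_le] at h1 h2 ⊢
        constructor <;> linarith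
    exact this hu
  have hUfin : FiniteDimensional ℝ U :=
    Module.Finite.of_injective (co.restrict (p := U) (q := V) hco)
      (fun x y hxy => by
        apply Subtype.ext
        apply lp.ext
        have h := congrArg Subtype.val hxy
        exact h)
  have hprop : ProperSpace U := FiniteDimensional.proper ℝ _
  let e' : G → U := fun g => ⟨e g, Submodule.subset_span ⟨g, rfl⟩⟩
  have hb : Bornology.IsBounded (Set.range e') := by
    rw [isBounded_iff_forall_norm_le]
    refine ⟨B, ?_⟩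
    rintro _ ⟨g, rfl⟩
    exact lp.norm_le_of_forall_le hB0 (fun i => hB _)
  have hK : IsCompact (closure (Set.range e')) := hb.isCompact_closure
  -- evaluations are continuous
  have hcont : ∀ x : G, Continuous (fun u : U => ((u : lp (fun _ : G => ℝ) ∞) : G → ℝ) x) := by
    intro x
    have : LipschitzWith 1 (fun u : U => ((u : lp (fun _ : G => ℝ) ∞) : G → ℝ) x) := by
      apply LipschitzWith.of_dist_le_mul
      intro u v
      rw [NNReal.coe_one, one_mul, Real.dist_eq, dist_eq_norm]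
      have := lp.norm_apply_le_norm (p := ∞) ENNReal.top_ne_zero
        ((u : lp (fun _ : G => ℝ) ∞) - (v : lp (fun _ : G => ℝ) ∞)) x
      exact this
    exact this.continuous
  obtain ⟨v, hvK, hvmax⟩ := hK.exists_isMaxOn ⟨e' 1, subset_closure ⟨1, rfl⟩⟩
    (hcont 1).continuousOn
  set s : ℝ := ((v : lp (fun _ : G => ℝ) ∞) : G → ℝ) 1 with hs
  have hle : ∀ g : G, h g ≤ s := by
    intro g
    have := hvmax (subset_closure (s := Set.range e') ⟨g, rfl⟩)
    change h (g * 1) ≤ s at this
    rwa [mul_one] at this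
  -- closed conditions
  have hvle : ∀ x : G, ((v : lp (fun _ : G => ℝ) ∞) : G → ℝ) x ≤ s := by
    intro x
    have hcl : IsClosed {u : U | ((u : lp (fun _ : G => ℝ) ∞) : G → ℝ) x ≤ s} :=
      isClosed_le (hcont x) continuous_const
    have hsub : closure (Set.range e') ⊆ {u : U | ((u : lp (fun _ : G => ℝ) ∞) : G → ℝ) x ≤ s} := by
      apply closure_minimal _ hcl
      rintro _ ⟨g, rfl⟩
      exact hle (g * x)
    exact hsub hvK
  have hvharm : avg σ ((v : lp (fun _ : G => ℝ) ∞) : G → ℝ)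
      = ((v : lp (fun _ : G => ℝ) ∞) : G → ℝ) := by
    funext x
    have hcl : IsClosed {u : U | avg σ ((u : lp (fun _ : G => ℝ) ∞) : G → ℝ) x
        = ((u : lp (fun _ : G => ℝ) ∞) : G → ℝ) x} := by
      apply isClosed_eq _ (hcont x)
      simp only [avg]
      exact (continuous_finsetSum _ (fun j _ => hcont (x * σ j))).div_const _
    have hsub : closure (Set.range e') ⊆ {u : U | avg σ ((u : lp (fun _ : G => ℝ) ∞) : G → ℝ) x
        = ((u : lp (fun _ : G => ℝ) ∞) : G → ℝ) x} := by
      apply closure_minimal _ hcl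
      rintro _ ⟨g, rfl⟩
      change avg σ (fun y => h (g * y)) x = h (g * x)
      rw [avg_translate, hh]
    exact hsub hvK
  have hvc : ∀ x, ((v : lp (fun _ : G => ℝ) ∞) : G → ℝ) x = s :=
    const_of_max hgen hvharm hvle (x0 := 1) rfl
  -- conclusion
  have hall : ∀ y : G, h y = s := by
    intro y
    by_contra hne
    have hpos : 0 < |h y - s| := abs_pos.mpr (sub_ne_zero.mpr hne)
    obtain ⟨_, ⟨g, rfl⟩, hg⟩ := Metric.mem_closure_iff.mp hvK _ hpos
    rw [dist_eq_norm] at hg
    have h1 := lp.norm_apply_le_norm (p := ∞) ENNReal.top_ne_zero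
        ((v : lp (fun _ : G => ℝ) ∞) - e g) (g⁻¹ * y)
    have h2 : |((v : lp (fun _ : G => ℝ) ∞) : G → ℝ) (g⁻¹ * y) - h (g * (g⁻¹ * y))|
        ≤ ‖v - e' g‖ := h1
    rw [hvc, mul_inv_cancel_left, abs_sub_comm] at h2
    linarith
  rw [hall, hall]

end aux

/-- bounded harmonic functions are constant -/
theorem liouville {σ : ι → G} (hσ : GenData σ) (hF : FinHF σ) {f : G → ℝ} (hf : avg σ f = f)
    {B : ℝ} (hB : ∀ x, |f x| ≤ B) (x : G) : f x = f 1 := by
  obtain ⟨i0, -⟩ := hσ.lazy
  have hne : Nonempty ι := ⟨i0⟩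
  exact liouville_aux hF hσ.gen hf hB x

/-- a subgroup under which a nonconstant Lipschitz harmonic function is invariant has infinite
index -/
theorem index_eq_zero {σ : ι → G} (hσ : GenData σ) (hFin : FinHF σ) {F : G → ℝ}
    (hF : IsLHF σ F) (hnc : ∃ g, F g ≠ F 1) {L : Subgroup G}
    (hL : ∀ k ∈ L, ∀ x, F (k * x) = F x) : L.index = 0 := by
  by_contra hne
  obtain ⟨i0, -⟩ := hσ.lazy
  have hne' : Nonempty ι := ⟨i0⟩
  have hfi : L.FiniteIndex := ⟨hne⟩
  have hfin : Finite (G ⧸ L) := Subgroup.finite_quotient_of_finiteIndex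
  let φ : G ⧸ L → ℝ := fun q => F (q.out)⁻¹
  have hφ : ∀ x : G, φ (QuotientGroup.mk x⁻¹) = F x := by
    intro x
    change F ((QuotientGroup.mk x⁻¹ : G ⧸ L).out)⁻¹ = F x
    obtain ⟨l, hl⟩ := QuotientGroup.mk_out_eq_mul L x⁻¹
    rw [hl, mul_inv_rev, inv_inv]
    exact hL _ (L.inv_mem l.2) x
  obtain ⟨q0, hq0⟩ := Finite.exists_max φ
  have hc : ∀ x, F x = φ q0 :=
    const_of_max hσ.gen hF.1 (fun x => by rw [← hφ x]; exact hq0 _) (x0 := (q0.out)⁻¹) rfl
  obtain ⟨g, hg⟩ := hnc
  exact hg (by rw [hc, hc])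

end liou

end Pool.Agent.LO86
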