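import Pool.Agent.LO86.Ulim
import Pool.Agent.LO86.Liouville

set_option autoImplicit false
set_option linter.unusedSectionVars false
set_option linter.unusedVariables false

namespace Pool.Agent.LO86

open Pool.Agent.LHF

variable {G : Type*} [Group G] {ι : Type} [Fintype ι]

/-- Cesaro means of the iterates of the averaging operator -/
noncomputable def cs (σ : ι → G) (n : ℕ) (f : G → ℝ) (x : G) : ℝ :=
  ((n : ℝ) + 1)⁻¹ * ∑ t ∈ Finset.range (n + 1), it σ t f x

lemma abs_it_le_const [Nonempty ι] (σ : ι → G) {f : G → ℝ} {K : ℝ} (hf : ∀ x, |f x| ≤ K)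
    (n : ℕ) (x : G) : |it σ n f x| ≤ K := by
  refine (abs_it_le σ n f x).trans ?_
  have h := it_mono σ n hf x
  rwa [it_const] at h

lemma abs_cs_le [Nonempty ι] (σ : ι → G) {f : G → ℝ} {K : ℝ} (hf : ∀ x, |f x| ≤ K)
    (n : ℕ) (x : G) : |cs σ n f x| ≤ K := by
  have hn : (0 : ℝ) < (n : ℝ) + 1 := by positivity
  unfold cs
  rw [abs_mul, abs_of_pos (inv_pos.2 hn)]
  have h1 : |∑ t ∈ Finset.range (n + 1), it σ t f x| ≤ ((n : ℝ) + 1) * K := by
    refine (Finset.abs_sum_le_sum_abs _ _).trans ?_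
    refine (Finset.sum_le_sum fun t _ => abs_it_le_const σ hf t x).trans ?_
    rw [Finset.sum_const, Finset.card_range, nsmul_eq_mul]
    push_cast
    exact le_rfl
  calc ((n : ℝ) + 1)⁻¹ * |∑ t ∈ Finset.range (n + 1), it σ t f x|
      ≤ ((n : ℝ) + 1)⁻¹ * (((n : ℝ) + 1) * K) :=
        mul_le_mul_of_nonneg_left h1 (inv_pos.2 hn).le
    _ = K := by field_simp

lemma avg_cs (σ : ι → G) (f : G → ℝ) (n : ℕ) (x : G) :
    avg σ (cs σ n f) x - cs σ n f x = ((n : ℝ) + 1)⁻¹ * (it σ (n + 1) f x - f x) := by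
  have h1 : avg σ (cs σ n f) x =
      ((n : ℝ) + 1)⁻¹ * ∑ t ∈ Finset.range (n + 1), it σ (t + 1) f x := by
    have : cs σ n f = fun y => ((n : ℝ) + 1)⁻¹ * ∑ t ∈ Finset.range (n + 1), it σ t f y := rfl
    rw [this, avg_smul, avg_sum]
    congr 1
    apply Finset.sum_congr rfl
    intro t _
    rw [it_succ']
  rw [h1, cs, ← mul_sub, ← Finset.sum_sub_distrib,
    Finset.sum_range_sub (fun t => it σ t f x) (n + 1)]
  rfl

lemma cs_translate (σ : ι → G) (n : ℕ) (g : G) (f : G → ℝ) (x : G) :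
    cs σ n (fun y => f (g * y)) x = cs σ n f (g * x) := by
  unfold cs
  congr 1
  apply Finset.sum_congr rfl
  intro t _
  rw [it_translate]

lemma it_sum (σ : ι → G) {κ : Type*} (s : Finset κ) (f : κ → G → ℝ) (n : ℕ) (x : G) :
    it σ n (fun y => ∑ k ∈ s, f k y) x = ∑ k ∈ s, it σ n (f k) x := by
  induction n generalizing x with
  | zero => rfl
  | succ n ih =>
    rw [it_succ']
    have h : it σ n (fun y => ∑ k ∈ s, f k y) = fun y => ∑ k ∈ s, it σ n (f k) y := funext ih
    rw [h, avg_sum]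
    apply Finset.sum_congr rfl
    intro k _
    rw [it_succ']

lemma cs_sum (σ : ι → G) {κ : Type*} (s : Finset κ) (f : κ → G → ℝ) (n : ℕ) (x : G) :
    cs σ n (fun y => ∑ k ∈ s, f k y) x = ∑ k ∈ s, cs σ n (f k) x := by
  unfold cs
  rw [← Finset.mul_sum, Finset.sum_comm]
  congr 1
  apply Finset.sum_congr rfl
  intro t _
  rw [it_sum]

lemma cs_sub (σ : ι → G) (n : ℕ) (f g : G → ℝ) (x : G) :
    cs σ n (fun y => f y - g y) x = cs σ n f x - cs σ n g x := by
  unfold cs
  rw [← mul_sub, ← Finset.sum_sub_distrib]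
  congr 1
  apply Finset.sum_congr rfl
  intro t _
  rw [it_sub]

lemma cs_const [Nonempty ι] (σ : ι → G) (n : ℕ) (c : ℝ) (x : G) :
    cs σ n (fun _ => c) x = c := by
  have hn : (0 : ℝ) < (n : ℝ) + 1 := by positivity
  unfold cs
  have : ∑ t ∈ Finset.range (n + 1), it σ t (fun _ : G => c) x = ((n : ℝ) + 1) * c := by
    rw [Finset.sum_congr rfl fun t _ => it_const σ t c x, Finset.sum_const, Finset.card_range,
      nsmul_eq_mul]
    push_cast
    rfl
  rw [this]
  field_simp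

/-- The limit of the Cesaro means of a bounded function is constant. -/
lemma ul_cs_const [Nonempty ι] {σ : ι → G} (hσ : GenData σ) (hFin : FinHF σ) {f : G → ℝ} {K : ℝ}
    (hf : ∀ x, |f x| ≤ K) (x : G) :
    ul (fun n => cs σ n f x) = ul (fun n => cs σ n f 1) := by
  have hb : ∀ n x, |cs σ n f x| ≤ K := fun n x => abs_cs_le σ hf n x
  have hK : 0 ≤ K := (abs_nonneg _).trans (hf 1)
  have hharm : avg σ (fun y => ul (fun n => cs σ n f y)) = fun y => ul (fun n => cs σ n f y) := by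
    funext y
    rw [avg_ul σ (B := fun _ => K) hb y]
    have hba : ∀ n : ℕ, |avg σ (cs σ n f) y| ≤ K := by
      intro n
      refine (abs_avg_le σ _ y).trans ?_
      exact avg_le σ fun j => hb n _
    have h0 : ul (fun n => avg σ (cs σ n f) y - cs σ n f y) = 0 := by
      apply ul_eq_zero (c := 2 * K)
      intro n
      have hn : (0 : ℝ) < (n : ℝ) + 1 := by positivity
      rw [avg_cs, abs_mul, abs_of_pos (inv_pos.2 hn), div_eq_inv_mul]
      apply mul_le_mul_of_nonneg_left _ (inv_pos.2 hn).le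
      have h1 := abs_it_le_const σ hf (n + 1) y
      have h2 := hf y
      calc |it σ (n + 1) f y - f y| ≤ |it σ (n + 1) f y| + |f y| := abs_sub _ _
        _ ≤ 2 * K := by linarith
    rw [ul_sub hba (fun n => hb n y)] at h0
    linarith
  exact liouville hσ hFin hharm (B := K) (fun y => abs_ul_le fun n => hb n y) x

/-- Lipschitz functions have no drift -/
theorem no_drift {σ : ι → G} (hσ : GenData σ) (hFin : FinHF σ) {F : G → ℝ} {K c : ℝ}
    (hL : ∀ x j, |F (x * σ j) - F x| ≤ K) (hc : ∀ x, F x - avg σ F x = c) : c = 0 := by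
  obtain ⟨τ, hτ⟩ := hσ.sym
  obtain ⟨i0, hi0⟩ := hσ.lazy
  have : Nonempty ι := ⟨i0⟩
  have hcard : (0 : ℝ) < (Fintype.card ι : ℝ) := card_pos'
  set v : ι → G → ℝ := fun j x => F (x⁻¹ * σ j) - F x⁻¹ with hvdef
  have hv : ∀ j x, |v j x| ≤ K := fun j x => hL x⁻¹ j
  have hsum : ∀ x, ∑ j, v j x = -((Fintype.card ι : ℝ) * c) := by
    intro x
    have h1 := hc x⁻¹
    rw [avg_def] at h1
    have h2 : ∑ j, v j x = ∑ j, F (x⁻¹ * σ j) - (Fintype.card ι : ℝ) * F x⁻¹ := by
      simp only [hvdef]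
      rw [Finset.sum_sub_distrib, Finset.sum_const, Finset.card_univ, nsmul_eq_mul]
    rw [h2, ← h1]
    field_simp
    ring
  have hflip : ∀ x, ∑ j, v j (σ j * x) = (Fintype.card ι : ℝ) * c := by
    intro x
    have h1 : ∀ j, v j (σ j * x) = - v (τ j) x := by
      intro j
      simp only [hvdef]
      rw [hτ j]
      have e1 : (σ j * x)⁻¹ * σ j = x⁻¹ := by group
      have e2 : (σ j * x)⁻¹ = x⁻¹ * (σ j)⁻¹ := by group
      rw [e1, e2]
      ring
    rw [Finset.sum_congr rfl fun j _ => h1 j, Finset.sum_neg_distrib,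
      Equiv.sum_comp τ (fun j => v j x), hsum]
    ring
  have htot : ∀ n : ℕ, ∑ j, (cs σ n (v j) 1 - cs σ n (v j) (σ j)) =
      -(2 * ((Fintype.card ι : ℝ) * c)) := by
    intro n
    have h1 : ∀ j, cs σ n (v j) 1 - cs σ n (v j) (σ j) =
        cs σ n (fun y => v j y - v j (σ j * y)) 1 := by
      intro j
      rw [cs_sub σ n (v j) (fun y => v j (σ j * y)) 1, cs_translate σ n (σ j) (v j) 1, mul_one]
    rw [Finset.sum_congr rfl fun j _ => h1 j,
      ← cs_sum σ Finset.univ (fun j y => v j y - v j (σ j * y)) n 1]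
    have h2 : (fun y => ∑ j, (v j y - v j (σ j * y))) =
        fun _ => -(2 * ((Fintype.card ι : ℝ) * c)) := by
      funext y
      rw [Finset.sum_sub_distrib, hsum, hflip]
      ring
    rw [h2, cs_const]
  have hul : ul (fun n => ∑ j, (cs σ n (v j) 1 - cs σ n (v j) (σ j))) =
      ∑ j, ul (fun n => cs σ n (v j) 1 - cs σ n (v j) (σ j)) := by
    apply ul_sum Finset.univ (a := fun j n => cs σ n (v j) 1 - cs σ n (v j) (σ j))
      (A := fun _ => 2 * K)
    intro j _ n
    calc |cs σ n (v j) 1 - cs σ n (v j) (σ j)|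
        ≤ |cs σ n (v j) 1| + |cs σ n (v j) (σ j)| := abs_sub _ _
      _ ≤ 2 * K := by
        have h1 := abs_cs_le σ (hv j) n 1
        have h2 := abs_cs_le σ (hv j) n (σ j)
        linarith
  have hzero : ∀ j, ul (fun n => cs σ n (v j) 1 - cs σ n (v j) (σ j)) = 0 := by
    intro j
    rw [ul_sub (fun n => abs_cs_le σ (hv j) n 1) (fun n => abs_cs_le σ (hv j) n (σ j)),
      ul_cs_const hσ hFin (hv j) (σ j), sub_self]
  have h1 : ul (fun n => ∑ j, (cs σ n (v j) 1 - cs σ n (v j) (σ j))) =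
      -(2 * ((Fintype.card ι : ℝ) * c)) := by
    have : (fun n => ∑ j, (cs σ n (v j) 1 - cs σ n (v j) (σ j))) =
        fun _ => -(2 * ((Fintype.card ι : ℝ) * c)) := funext htot
    rw [this, ul_const]
  rw [hul, Finset.sum_congr rfl fun j _ => hzero j, Finset.sum_const_zero] at h1
  have h2 : (Fintype.card ι : ℝ) * c = 0 := by linarith
  rcases mul_eq_zero.1 h2 with h3 | h3
  · exact absurd h3 hcard.ne'
  · exact h3

end Pool.Agent.LO86
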