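import Mathlib

set_option autoImplicit false
set_option linter.unusedSectionVars false
set_option linter.unusedVariables false

namespace Pool.Agent.LO86

open Module

private theorem exists_eval_aux {α : Type*} (n : ℕ) : ∀ (E : Submodule ℝ (α → ℝ))
    (_ : FiniteDimensional ℝ E), finrank ℝ E = n →
    ∃ (P : Finset α) (e : α → α → ℝ), (∀ p ∈ P, e p ∈ E) ∧
      (∀ u ∈ E, ∀ x, u x = ∑ p ∈ P, u p * e p x) ∧
      (∀ p ∈ P, e p p = 1) ∧ (∀ p ∈ P, ∀ q ∈ P, p ≠ q → e p q = 0) := by
  classical
  induction n using Nat.strong_induction_on with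
  | _ n ih =>
    intro E hE hn
    by_cases hbot : E = ⊥
    · refine ⟨∅, fun _ _ => 0, by simp, ?_, by simp, by simp⟩
      intro u hu x
      rw [hbot, Submodule.mem_bot] at hu
      rw [hu]
      simp
    obtain ⟨u0, hu0, hne⟩ := (Submodule.ne_bot_iff _).1 hbot
    obtain ⟨x0, hx0⟩ : ∃ x0, u0 x0 ≠ 0 := by
      by_contra h
      push Not at h
      exact hne (funext h)
    set E' : Submodule ℝ (α → ℝ) := E ⊓ LinearMap.ker (LinearMap.proj x0 : (α → ℝ) →ₗ[ℝ] ℝ) with hE'
    have hmem : ∀ u : α → ℝ, u ∈ E' ↔ u ∈ E ∧ u x0 = 0 := by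
      intro u
      rw [hE', Submodule.mem_inf, LinearMap.mem_ker]
      rfl
    have hlt : E' < E := by
      refine lt_of_le_of_ne inf_le_left ?_
      intro h
      rw [← h, hmem] at hu0
      exact hx0 hu0.2
    have : FiniteDimensional ℝ E' := Submodule.finiteDimensional_of_le hlt.le
    have hfin : finrank ℝ E' < n := hn ▸ Submodule.finrank_lt_finrank_of_lt hlt
    obtain ⟨P, e, heE, hev, hone, hzero⟩ := ih _ hfin E' inferInstance rfl
    have hPx0 : x0 ∉ P := by
      intro h
      have h1 := ((hmem _).1 (heE x0 h)).2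
      rw [hone x0 h] at h1
      exact one_ne_zero h1
    set f : α → ℝ := fun x => u0 x / u0 x0 - ∑ p ∈ P, (u0 p / u0 x0) * e p x with hf
    have hfE : f ∈ E := by
      have h1 : f = (u0 x0)⁻¹ • u0 - ∑ p ∈ P, (u0 p / u0 x0) • e p := by
        funext x
        rw [Pi.sub_apply, Pi.smul_apply, Finset.sum_apply, smul_eq_mul, hf]
        simp only [Pi.smul_apply, smul_eq_mul]
        ring
      rw [h1]
      exact E.sub_mem (E.smul_mem _ hu0) (E.sum_mem fun p hp => E.smul_mem _ (hlt.le (heE p hp)))
    refine ⟨insert x0 P, fun q => if q = x0 then f else e q, ?_, ?_, ?_, ?_⟩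
    · intro p hp
      rcases Finset.mem_insert.1 hp with rfl | hp
      · simpa using hfE
      · have hne' : p ≠ x0 := fun h => hPx0 (h ▸ hp)
        simpa [hne'] using hlt.le (heE p hp)
    · intro u hu x
      rw [Finset.sum_insert hPx0]
      have h1 : ∑ p ∈ P, u p * (if p = x0 then f else e p) x = ∑ p ∈ P, u p * e p x := by
        refine Finset.sum_congr rfl fun p hp => ?_
        have hne' : p ≠ x0 := fun h => hPx0 (h ▸ hp)
        rw [if_neg hne']
      have hw : (fun y => u y - (u x0 / u0 x0) * u0 y) ∈ E' := by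
        rw [hmem]
        refine ⟨?_, ?_⟩
        · exact E.sub_mem hu (E.smul_mem (u x0 / u0 x0) hu0)
        · show u x0 - u x0 / u0 x0 * u0 x0 = 0
          rw [div_mul_cancel₀ _ hx0, sub_self]
      have h2 : u x - u x0 / u0 x0 * u0 x =
          ∑ p ∈ P, (u p - u x0 / u0 x0 * u0 p) * e p x := hev _ hw x
      have h3 : ∑ p ∈ P, (u p - u x0 / u0 x0 * u0 p) * e p x =
          ∑ p ∈ P, u p * e p x - u x0 * ∑ p ∈ P, (u0 p / u0 x0) * e p x := by
        rw [Finset.mul_sum, ← Finset.sum_sub_distrib]
        refine Finset.sum_congr rfl fun p hp => ?_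
        ring
      rw [h3] at h2
      have h4 : (fun q => if q = x0 then f else e q) x0 = f := by simp
      show u x = u x0 * (if x0 = x0 then f else e x0) x + _
      rw [if_pos rfl, h1, hf]
      simp only
      have h5 : u x = u x0 / u0 x0 * u0 x +
          (∑ p ∈ P, u p * e p x - u x0 * ∑ p ∈ P, (u0 p / u0 x0) * e p x) := by linarith
      rw [h5]
      ring
    · intro p hp
      rcases Finset.mem_insert.1 hp with rfl | hp
      · simp only [if_true, hf]
        have h1 : ∑ q ∈ P, (u0 q / u0 p) * e q p = 0 :=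
          Finset.sum_eq_zero fun q hq => by rw [((hmem _).1 (heE q hq)).2, mul_zero]
        rw [h1, sub_zero, div_self hx0]
      · have hne' : p ≠ x0 := fun h => hPx0 (h ▸ hp)
        simpa [hne'] using hone p hp
    · intro p hp q hq hpq
      rcases Finset.mem_insert.1 hp with rfl | hp
      · rcases Finset.mem_insert.1 hq with rfl | hq
        · exact absurd rfl hpq
        · simp only [if_true, hf]
          have h1 : ∑ r ∈ P, (u0 r / u0 p) * e r q = u0 q / u0 p := by
            rw [Finset.sum_eq_single q]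
            · rw [hone q hq, mul_one]
            · intro r hr hrq
              rw [hzero r hr q hq hrq, mul_zero]
            · intro h
              exact absurd hq h
          rw [h1, sub_self]
      · have hne' : p ≠ x0 := fun h => hPx0 (h ▸ hp)
        rcases Finset.mem_insert.1 hq with hq | hq
        · rw [hq]
          simpa [hne'] using ((hmem _).1 (heE p hp)).2
        · simpa [hne'] using hzero p hp q hq hpq

/-- evaluation lemma for finite-dimensional spaces of functions -/
theorem exists_eval {α : Type*} (E : Submodule ℝ (α → ℝ)) [FiniteDimensional ℝ E] :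
    ∃ (P : Finset α) (e : α → α → ℝ), (∀ p ∈ P, e p ∈ E) ∧
      (∀ u ∈ E, ∀ x, u x = ∑ p ∈ P, u p * e p x) ∧
      (∀ p ∈ P, e p p = 1) ∧ (∀ p ∈ P, ∀ q ∈ P, p ≠ q → e p q = 0) :=
  exists_eval_aux _ E inferInstance rfl

end Pool.Agent.LO86
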