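import Pool.Agent.LO86.Cosets

set_option autoImplicit false
set_option linter.unusedSectionVars false
set_option linter.unusedVariables false

namespace Pool.Agent.LO86

open Pool.Agent.LHF

variable {G : Type*} [Group G] {ι : Type} [Fintype ι]

theorem coe_wprod {N : Subgroup G} {κ : Type} [Fintype κ] (σ' : κ → N) (l : List κ) :
    ((wprod σ' l : N) : G) = wprod (fun j => (σ' j : G)) l := by
  induction l with
  | nil => simp
  | cons j l ih => rw [wprod_cons, wprod_cons, Subgroup.coe_mul, ih]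

/-- a finitely generated subgroup has a finite family whose words are all its elements -/
theorem exists_family {N : Subgroup G} (hN : N.FG) :
    ∃ (κ : Type) (_ : Fintype κ) (σ' : κ → N), ∀ g : N, ∃ l : List κ, wprod σ' l = g := by
  classical
  obtain ⟨S, hS⟩ := hN
  let e := S.equivFin
  have hmem : ∀ i : Fin S.card, ((e.symm i : S) : G) ∈ N := by
    intro i
    rw [← hS]
    exact Subgroup.subset_closure (e.symm i).2
  let s : Fin S.card → N := fun i => ⟨e.symm i, hmem i⟩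
  let σ' : Bool × Fin S.card → N := fun p => if p.1 then s p.2 else (s p.2)⁻¹
  refine ⟨Bool × Fin S.card, inferInstance, σ', ?_⟩
  have hτ : ∀ j : Bool × Fin S.card, σ' ((fun j => (!j.1, j.2)) j) = (σ' j)⁻¹ := by
    rintro ⟨b, i⟩
    cases b <;> simp [σ']
  have key : ∀ x ∈ Subgroup.closure (S : Set G), ∃ l : List (Bool × Fin S.card),
      ((wprod σ' l : N) : G) = x := by
    intro x hx
    induction hx using Subgroup.closure_induction with
    | mem x hx =>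
      refine ⟨[(true, e ⟨x, hx⟩)], ?_⟩
      simp [σ', s]
    | one => exact ⟨[], by simp⟩
    | mul x y _ _ hx hy =>
      obtain ⟨l, rfl⟩ := hx
      obtain ⟨l', rfl⟩ := hy
      exact ⟨l ++ l', by rw [wprod_append, Subgroup.coe_mul]⟩
    | inv x _ hx =>
      obtain ⟨l, rfl⟩ := hx
      exact ⟨l.reverse.map (fun j => (!j.1, j.2)), by rw [wprod_inv hτ, Subgroup.coe_inv]⟩
  intro g
  obtain ⟨l, hl⟩ := key g (by rw [hS]; exact g.2)
  exact ⟨l, Subtype.ext hl⟩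

/-- words of `N` are short words of `G` -/
theorem coe_ball {σ : ι → G} {N : Subgroup G} {κ : Type} [Fintype κ] (σ' : κ → N) {lam : ℕ}
    (hlam : ∀ j, (σ' j : G) ∈ Ball σ lam) {k : ℕ} {g : N} (hg : g ∈ Ball σ' k) :
    (g : G) ∈ Ball σ (lam * k) := by
  obtain ⟨l, hl, rfl⟩ := hg
  refine ball_mono σ (Nat.mul_le_mul_left lam hl) ?_
  clear hl
  induction l with
  | nil =>
    rw [wprod_nil, Subgroup.coe_one]
    exact one_mem_ball σ _
  | cons j l ih =>
    rw [wprod_cons, Subgroup.coe_mul, List.length_cons, Nat.mul_add, Nat.mul_one, Nat.add_comm]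
    exact mul_mem_ball σ (hlam j) ih

/-- cosets of `K ⊔ N` in `G` and cosets of `K ∩ N` in `N` multiply -/
theorem cosN_mul_le {σ : ι → G} {K N : Subgroup G} {κ : Type} [Fintype κ] (σ' : κ → N) {lam : ℕ}
    (hlam : ∀ j, (σ' j : G) ∈ Ball σ lam) (r k : ℕ) :
    cosN σ (K ⊔ N) r * cosN σ' (K.subgroupOf N) k ≤ cosN σ K (r + lam * k) := by
  classical
  have hA : ∀ a : G ⧸ (K ⊔ N), ∃ g : G,
      a ∈ (fun g : G => (QuotientGroup.mk g : G ⧸ (K ⊔ N))) '' Ball σ r →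
        g ∈ Ball σ r ∧ (QuotientGroup.mk g : G ⧸ (K ⊔ N)) = a := by
    intro a
    by_cases h : a ∈ (fun g : G => (QuotientGroup.mk g : G ⧸ (K ⊔ N))) '' Ball σ r
    · obtain ⟨g, hg, hga⟩ := h
      exact ⟨g, fun _ => ⟨hg, hga⟩⟩
    · exact ⟨1, fun h' => absurd h' h⟩
  have hB : ∀ b : N ⧸ (K.subgroupOf N), ∃ g : N,
      b ∈ (fun g : N => (QuotientGroup.mk g : N ⧸ (K.subgroupOf N))) '' Ball σ' k →
        g ∈ Ball σ' k ∧ (QuotientGroup.mk g : N ⧸ (K.subgroupOf N)) = b := by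
    intro b
    by_cases h : b ∈ (fun g : N => (QuotientGroup.mk g : N ⧸ (K.subgroupOf N))) '' Ball σ' k
    · obtain ⟨g, hg, hga⟩ := h
      exact ⟨g, fun _ => ⟨hg, hga⟩⟩
    · exact ⟨1, fun h' => absurd h' h⟩
  choose gA hgA using hA
  choose gB hgB using hB
  unfold cosN
  rw [← Set.ncard_prod]
  refine Set.ncard_le_ncard_of_injOn (fun p => (QuotientGroup.mk (gA p.1 * (gB p.2 : G)) : G ⧸ K))
    ?_ ?_ ((ball_finite σ _).image _)
  · rintro ⟨a, b⟩ ⟨ha, hb⟩
    exact ⟨gA a * (gB b : G), mul_mem_ball σ (hgA a ha).1 (coe_ball σ' hlam (hgB b hb).1), rfl⟩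
  · rintro ⟨a, b⟩ ⟨ha, hb⟩ ⟨a', b'⟩ ⟨ha', hb'⟩ h
    have h1 : (gA a * (gB b : G))⁻¹ * (gA a' * (gB b' : G)) ∈ K := QuotientGroup.eq.1 h
    have h2 : (gA a)⁻¹ * gA a' ∈ K ⊔ N := by
      have e1 : (gA a)⁻¹ * gA a' = (gB b : G) * ((gA a * (gB b : G))⁻¹ * (gA a' * (gB b' : G))) *
          (gB b' : G)⁻¹ := by group
      rw [e1]
      exact mul_mem (mul_mem ((le_sup_right : N ≤ K ⊔ N) (gB b).2) ((le_sup_left : K ≤ K ⊔ N) h1))
        (inv_mem ((le_sup_right : N ≤ K ⊔ N) (gB b').2))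
    have h3 : a = a' := by
      rw [← (hgA a ha).2, ← (hgA a' ha').2]
      exact QuotientGroup.eq.2 h2
    subst h3
    have h4 : (gB b)⁻¹ * gB b' ∈ K.subgroupOf N := by
      rw [Subgroup.mem_subgroupOf]
      have e1 : (((gB b)⁻¹ * gB b' : N) : G) =
          (gA a * (gB b : G))⁻¹ * (gA a * (gB b' : G)) := by
        rw [Subgroup.coe_mul, Subgroup.coe_inv]
        group
      rw [e1]
      exact h1
    have h5 : b = b' := by
      rw [← (hgB b hb).2, ← (hgB b' hb').2]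
      exact QuotientGroup.eq.2 h4
    rw [h5]

/-- subquadratic growth leaves no room for an infinite orbit of `N` inside a coset space of
infinite index -/
theorem relIndex_ne_zero {σ : ι → G} (hσ : GenData σ) {K N : Subgroup G} (hNn : N.Normal)
    (hNfg : N.FG) {f : ℕ → ℝ} (hf : Subq f) (hK : ∀ R : ℕ, (cosN σ K R : ℝ) ≤ f R)
    (hL : (K ⊔ N).index = 0) : K.relIndex N ≠ 0 := by
  intro h0
  obtain ⟨κ, _, σ', hσ'⟩ := exists_family hNfg
  obtain ⟨lam0, hlam0⟩ := finite_subset_ball hσ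
    (Set.finite_range (fun j : κ => (σ' j : G)))
  obtain ⟨lam, hlam, hlam1⟩ : ∃ lam : ℕ, (∀ j, (σ' j : G) ∈ Ball σ lam) ∧ 1 ≤ lam :=
    ⟨lam0 + 1, fun j => ball_mono σ (Nat.le_succ _) (hlam0 ⟨j, rfl⟩), by omega⟩
  have hlamR : (1 : ℝ) ≤ lam := by exact_mod_cast hlam1
  obtain ⟨R0, hR0⟩ := hf (1 / (8 * lam)) (by positivity)
  have h1 : (R0 + 1) ≤ cosN σ' (K.subgroupOf N) R0 := succ_le_cosN hσ' h0 R0
  have h2 : lam * R0 + 1 ≤ cosN σ (K ⊔ N) (lam * R0) := succ_le_cosN hσ.gen hL _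
  have h3 := cosN_mul_le (K := K) σ' hlam (lam * R0) R0
  have h4 : (lam * R0 + 1) * (R0 + 1) ≤ cosN σ K (lam * R0 + lam * R0) :=
    (Nat.mul_le_mul h2 h1).trans h3
  have h5 : ((lam : ℝ) * R0 + 1) * (R0 + 1) ≤ f (lam * R0 + lam * R0) := by
    refine le_trans ?_ (hK _)
    exact_mod_cast h4
  have h6 := hR0 (lam * R0 + lam * R0) (by nlinarith)
  push_cast at h6
  have h7 : 1 / (8 * (lam : ℝ)) * ((lam : ℝ) * R0 + lam * R0) ^ 2 = lam * R0 ^ 2 / 2 := by
    field_simp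
    ring
  rw [h7] at h6
  have h8 : (0 : ℝ) ≤ R0 := Nat.cast_nonneg _
  nlinarith [mul_nonneg (by linarith : (0 : ℝ) ≤ lam) (mul_nonneg h8 h8)]

end Pool.Agent.LO86
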