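import Pool.Agent.LO86.Defs

set_option autoImplicit false
set_option linter.unusedSectionVars false
set_option linter.unusedVariables false

namespace Pool.Agent.LO86

open Pool.Agent.LHF

variable {G : Type*} [Group G] {ι : Type} [Fintype ι]

theorem cosN_limStab_le {σ : ι → G} {X : Type*} [MulAction G X] {f : ℕ → ℝ}
    (hX : ∀ (x : X) (R : ℕ), (orbN σ x R : ℝ) ≤ f R) (y : ℕ → X) (R : ℕ) :
    (cosN σ (limStab y) R : ℝ) ≤ f R := by
  classical
  obtain ⟨A, hAB, hbij⟩ := Set.exists_subset_bijOn (Ball σ R)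
    (fun g : G => (QuotientGroup.mk g : G ⧸ limStab y))
  have hAfin : A.Finite := (ball_finite σ R).subset hAB
  have hcos : cosN σ (limStab y) R = A.ncard := by
    unfold cosN
    rw [← hbij.image_eq, hbij.injOn.ncard_image]
  have hev : ∀ᶠ n in (Filter.hyperfilter ℕ : Filter ℕ), ∀ a ∈ A, ∀ b ∈ A, a ≠ b →
      a • y n ≠ b • y n := by
    rw [Filter.eventually_all_finite hAfin]
    intro a ha
    rw [Filter.eventually_all_finite hAfin]
    intro b hb
    by_cases hab : a = b
    · exact Filter.Eventually.of_forall fun n h => absurd hab h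
    · have h1 : ¬ (a⁻¹ * b ∈ limStab y) := fun h =>
        hab (hbij.injOn ha hb (QuotientGroup.eq.mpr h))
      rw [mem_limStab, ← Ultrafilter.eventually_not] at h1
      filter_upwards [h1] with n hn _ he
      apply hn
      rw [mul_smul, inv_smul_eq_iff]
      exact he.symm
  obtain ⟨n, hn⟩ := hev.exists
  have h2 : A.ncard ≤ orbN σ (y n) R := by
    unfold orbN
    have hinj : Set.InjOn (fun g : G => g • y n) A := by
      intro a ha b hb hab
      by_contra hne
      exact hn a ha b hb hne hab
    rw [← hinj.ncard_image]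
    exact Set.ncard_le_ncard (Set.image_mono hAB) ((ball_finite σ R).image _)
  rw [hcos]
  exact le_trans (by exact_mod_cast h2) (hX (y n) R)

/-- finitely generated subgroups of the limit stabilizer fix `y n` for many `n` -/
theorem fg_le_limStab {X : Type*} [MulAction G X] {y : ℕ → X} {M : Subgroup G} (hM : M.FG)
    (h : M ≤ limStab y) :
    ∀ᶠ n in (Filter.hyperfilter ℕ : Filter ℕ), ∀ k ∈ M, k • y n = y n := by
  obtain ⟨T, hT⟩ := hM
  have h1 : ∀ᶠ n in (Filter.hyperfilter ℕ : Filter ℕ), ∀ t ∈ (T : Set G), t • y n = y n := by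
    rw [Filter.eventually_all_finite T.finite_toSet]
    intro t ht
    have : t ∈ limStab y := h (hT ▸ Subgroup.subset_closure ht)
    exact this
  filter_upwards [h1] with n hn k hk
  have h2 : M ≤ MulAction.stabilizer G (y n) := by
    rw [← hT, Subgroup.closure_le]
    intro t ht
    exact MulAction.mem_stabilizer_iff.mpr (hn t ht)
  exact MulAction.mem_stabilizer_iff.mp (h2 hk)

/-- if the limit stabilizer meets `N` in finite index, then the orbits of `N` at `y n` stay
bounded -/
theorem subOrb_le_of_relIndex {X : Type*} [MulAction G X] {y : ℕ → X} {N : Subgroup G}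
    (hN : N.FG) (h : (limStab y).relIndex N ≠ 0) :
    ∀ᶠ n in (Filter.hyperfilter ℕ : Filter ℕ),
      (subOrb N (y n)).encard ≤ ((limStab y).relIndex N : ℕ∞) := by
  classical
  set K : Subgroup N := (limStab y).subgroupOf N with hK
  have hidx : K.index ≠ 0 := h
  have : Group.FG N := (Group.fg_iff_subgroup_fg N).mpr hN
  have : K.FiniteIndex := ⟨hidx⟩
  have hKfg : Group.FG K := inferInstance
  have hKfg' : K.FG := (Group.fg_iff_subgroup_fg K).mp hKfg
  have hM : (K.map N.subtype).FG := by
    obtain ⟨T, hT⟩ := hKfg'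
    refine ⟨T.image N.subtype, ?_⟩
    rw [Finset.coe_image, ← MonoidHom.map_closure, hT]
  have hle : K.map N.subtype ≤ limStab y := by
    rintro _ ⟨k, hk, rfl⟩
    exact hk
  filter_upwards [fg_le_limStab hM hle] with n hn
  have : Finite (N ⧸ K) := Subgroup.finite_quotient_of_finiteIndex
  let φ : N ⧸ K → X := Quotient.lift (fun m : N => (m : G) • y n) (by
    intro a b hab
    have h1 : a⁻¹ * b ∈ K := QuotientGroup.leftRel_apply.mp hab
    have h2 := hn _ (Subgroup.mem_map_of_mem N.subtype h1)
    have h3 : ((a : G)⁻¹ * (b : G)) • y n = y n := h2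
    rw [mul_smul, inv_smul_eq_iff] at h3
    exact h3.symm)
  have hsub : subOrb N (y n) ⊆ φ '' Set.univ := by
    rintro x ⟨m, hm, rfl⟩
    exact ⟨QuotientGroup.mk (⟨m, hm⟩ : N), Set.mem_univ _, rfl⟩
  calc (subOrb N (y n)).encard ≤ (φ '' Set.univ).encard := Set.encard_le_encard hsub
    _ ≤ (Set.univ : Set (N ⧸ K)).encard := Set.encard_image_le _ _
    _ = ((limStab y).relIndex N : ℕ∞) := by
      rw [Set.encard_univ, ENat.card_eq_coe_natCard]
      rfl

end Pool.Agent.LO86
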