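import Pool.Agent.LO86.Ulim
import Pool.Agent.LO86.Liouville
import Pool.Agent.LO65.Limit

set_option autoImplicit false
set_option linter.unusedSectionVars false
set_option linter.unusedVariables false

namespace Pool.Agent.LO86

open Pool.Agent.LHF

variable {G : Type*} [Group G] {ι : Type} [Fintype ι]

lemma lip_word {σ : ι → G} {f : G → ℝ} (h : ∀ x j, |f (x * σ j) - f x| ≤ 1) (l : List ι) :
    ∀ x, |f (x * wprod σ l) - f x| ≤ l.length := by
  induction l with
  | nil => intro x; simp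
  | cons j l ih =>
    intro x
    have h1 := ih (x * σ j)
    have h2 := h x j
    rw [wprod_cons, ← mul_assoc, List.length_cons]
    push_cast
    rw [abs_le] at h1 h2 ⊢
    constructor <;> linarith

/-- the limit of the functions of all scales is a nonconstant Lipschitz harmonic function -/
theorem limit_harm {σ : ι → G} (hσ : GenData σ) (hFin : FinHF σ) {Ψ : ℕ → G → ℝ}
    (h1 : ∀ n x j, |Ψ n (x * σ j) - Ψ n x| ≤ 1)
    (h2 : ∀ n x, |Ψ n x - avg σ (Ψ n) x| ≤ 2)
    (h3 : ∀ n x, |(Ψ n x - avg σ (Ψ n) x) - avg σ (fun y => Ψ n y - avg σ (Ψ n) y) x| ≤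
      4 / ((n : ℝ) + 1))
    (h4 : ∀ n, ∃ j, 1 / 4 ≤ |Ψ n (σ j) - Ψ n 1|) :
    ∃ F : G → ℝ, IsLHF σ F ∧ (∃ g, F g ≠ F 1) ∧
      ∀ k : G, (∀ᶠ n in (Filter.hyperfilter ℕ : Filter ℕ), ∀ x, Ψ n (k * x) = Ψ n x) →
        ∀ x, F (k * x) = F x := by
  obtain ⟨i0, hi0⟩ := hσ.lazy
  haveI : Nonempty ι := ⟨i0⟩
  have hw : ∀ x : G, ∃ l : List ι, wprod σ l = x := fun x => hσ.gen x
  choose l hl using hw
  have hbd : ∀ n x, |Ψ n x - Ψ n 1| ≤ ((l x).length : ℝ) := by
    intro n x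
    have h := lip_word (h1 n) (l x) 1
    rwa [one_mul, hl x] at h
  set F : G → ℝ := fun x => ul (fun n => Ψ n x - Ψ n 1) with hF
  have hF1 : F 1 = 0 := by
    have : (fun n => Ψ n 1 - Ψ n 1) = fun _ : ℕ => (0 : ℝ) := by funext n; ring
    show ul (fun n => Ψ n 1 - Ψ n 1) = 0
    rw [this, ul_const]
  -- Lipschitz
  have hlip : ∀ x j, |F (x * σ j) - F x| ≤ 1 := by
    intro x j
    have e : F (x * σ j) - F x
        = ul (fun n => (Ψ n (x * σ j) - Ψ n 1) - (Ψ n x - Ψ n 1)) :=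
      (ul_sub (fun n => hbd n (x * σ j)) (fun n => hbd n x)).symm
    rw [e]
    refine abs_ul_le fun n => ?_
    have e2 : (Ψ n (x * σ j) - Ψ n 1) - (Ψ n x - Ψ n 1) = Ψ n (x * σ j) - Ψ n x := by ring
    rw [e2]
    exact h1 n x j
  -- the defect
  set H : G → ℝ := fun x => ul (fun n => Ψ n x - avg σ (Ψ n) x) with hH
  have havg : ∀ n x, avg σ (fun y => Ψ n y - Ψ n 1) x = avg σ (Ψ n) x - Ψ n 1 := by
    intro n x
    rw [avg_sub, avg_const]
  have hab : ∀ n x, |avg σ (fun y => Ψ n y - Ψ n 1) x| ≤ ((l x).length : ℝ) + 2 := by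
    intro n x
    rw [havg]
    have a1 := hbd n x
    have a2 := h2 n x
    rw [abs_le] at a1 a2 ⊢
    constructor <;> linarith
  have hdef : ∀ x, F x - avg σ F x = H x := by
    intro x
    have e1 : avg σ F x = ul (fun n => avg σ (fun y => Ψ n y - Ψ n 1) x) :=
      avg_ul σ (Ψ := fun n y => Ψ n y - Ψ n 1) (fun n y => hbd n y) x
    rw [e1]
    have e2 := ul_sub (fun n => hbd n x) (fun n => hab n x)
    show ul (fun n => Ψ n x - Ψ n 1) - _ = _
    rw [← e2, hH]
    congr 1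
    funext n
    rw [havg]
    ring
  have hHh : avg σ H = H := by
    funext x
    have e1 : avg σ H x = ul (fun n => avg σ (fun y => Ψ n y - avg σ (Ψ n) y) x) :=
      avg_ul σ (Ψ := fun n y => Ψ n y - avg σ (Ψ n) y) (B := fun _ => 2) (fun n y => h2 n y) x
    have hab2 : ∀ n, |avg σ (fun y => Ψ n y - avg σ (Ψ n) y) x| ≤ 2 := by
      intro n
      rw [abs_le]
      constructor
      · exact le_avg σ fun j => (abs_le.mp (h2 n (x * σ j))).1
      · exact avg_le σ fun j => (abs_le.mp (h2 n (x * σ j))).2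
    have e2 := ul_sub (fun n => h2 n x) hab2
    have e3 : ul (fun n => (Ψ n x - avg σ (Ψ n) x)
        - avg σ (fun y => Ψ n y - avg σ (Ψ n) y) x) = 0 := ul_eq_zero (fun n => h3 n x)
    rw [e3] at e2
    rw [e1]
    show _ = ul (fun n => Ψ n x - avg σ (Ψ n) x)
    linarith
  have hHb : ∀ x, |H x| ≤ 2 := fun x => abs_ul_le fun n => h2 n x
  have hconst : ∀ x, H x = H 1 := fun x => liouville hσ hFin hHh hHb x
  have hc : -(H 1) = 0 := Pool.LO65.drift_zero hσ hFin hlip (c := -(H 1)) (fun x => by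
    have a1 := hdef x
    rw [hconst x] at a1
    linarith)
  have hharm : avg σ F = F := by
    funext x
    have a1 := hdef x
    rw [hconst x] at a1
    linarith
  refine ⟨F, ⟨hharm, 1, hlip⟩, ?_, ?_⟩
  · have h5 : ∀ᶠ n in (Filter.hyperfilter ℕ : Filter ℕ), ∃ j, 1 / 4 ≤ |Ψ n (σ j) - Ψ n 1| :=
      Filter.Eventually.of_forall h4
    rw [Ultrafilter.eventually_exists_iff] at h5
    obtain ⟨j, hj⟩ := h5
    refine ⟨σ j, fun hh => ?_⟩
    have h6 : 1 / 4 ≤ |F (σ j)| := le_abs_ul (fun n => hbd n (σ j)) hj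
    rw [hh, hF1, abs_zero] at h6
    norm_num at h6
  · intro k hk x
    refine ul_congr ?_
    filter_upwards [hk] with n hn
    rw [hn x]

end Pool.Agent.LO86
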