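import Pool.Agent.LO86.QOrbits
import Pool.Agent.LO86.MainThin

set_option autoImplicit false
set_option linter.unusedSectionVars false
set_option linter.unusedVariables false

namespace Pool.Agent.LO86

open Pool.Agent.LHF

theorem vnm_ker_of_quad {G : Type*} [Group G] {ι : Type} [Fintype ι] {σ : ι → G}
    (hσ : GenData σ) (hFin : FinHF σ) {X : Type*}
    [MulAction G X] {C : ℝ} {d : ℕ}
    (hX : ∀ (x : X) (R : ℕ), (orbN σ x R : ℝ) ≤ C * ((R : ℝ) + 1) ^ d) (hquad : QGr σ X) :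
    VNm (MulAction.toPermHom G X).ker := by
  have hQ : QQ G := FinG.qq ⟨ι, inferInstance, σ, hσ, hFin⟩
  obtain ⟨N, hNn, hNv, hNfg, hN⟩ := exists_annih hFin hQ
  obtain ⟨Q, hQb⟩ := subOrb_bounded_quad hσ hFin hX hquad hNn hNfg hN
  exact vnm_ker_of_bounded hNn hNfg hNv hQb

section sorb

variable {G : Type} [Group G] {X : Type} [MulAction G X] {ι : Type} [Fintype ι] {σ : ι → G}
  {S : Finset G}

lemma qgr_of_sorb {K : ℕ} (hK1 : 1 ≤ K) (hK : ∀ R : ℕ, Ball σ R ⊆ SBall S (K * R))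
    (hq : ∃ C : ℕ, ∀ R₀ : ℕ, ∃ R : ℕ, R₀ ≤ R ∧ ∀ x : X, (SOrb S x R).ncard ≤ C * R ^ 2) :
    QGr σ X := by
  obtain ⟨C, hC⟩ := hq
  refine ⟨(C : ℝ) * (2 * K) ^ 2, fun R0 => ?_⟩
  obtain ⟨R, hR, h⟩ := hC (K * (R0 + 1))
  have hdiv : R0 + 1 ≤ R / K := by
    rw [Nat.le_div_iff_mul_le (by omega)]
    rwa [Nat.mul_comm]
  refine ⟨R / K, by omega, fun x => ?_⟩
  have h1 : orbN σ x (R / K) ≤ (SOrb S x R).ncard := orbN_le hK x (Nat.mul_div_le R K)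
  have h2 := two_mul_div hK1 (le_trans (by nlinarith) hR : K ≤ R)
  have h3 : (orbN σ x (R / K) : ℝ) ≤ (C : ℝ) * (R : ℝ) ^ 2 := by exact_mod_cast h1.trans (h x)
  calc (orbN σ x (R / K) : ℝ) ≤ (C : ℝ) * (R : ℝ) ^ 2 := h3
    _ ≤ (C : ℝ) * (2 * K * ((R / K : ℕ) : ℝ)) ^ 2 := by gcongr
    _ = _ := by ring

end sorb

theorem main {G : Type} [Group G] (S : Finset G) (hsym : ∀ s ∈ S, s⁻¹ ∈ S)
    (hgen : Subgroup.closure (S : Set G) = ⊤)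
    (hfin : ∃ V : Submodule ℝ (G → ℝ), FiniteDimensional ℝ V ∧
        ∀ f : G → ℝ,
          (∀ g : G, ∑ s ∈ S, f (g * s) = (S.card : ℝ) * f g) →
          (∃ C : ℝ, ∀ g : G, ∀ s ∈ S, |f (g * s) - f g| ≤ C) →
          f ∈ V) {X : Type} [MulAction G X]
    (hgr : ∃ C d : ℕ, ∀ R : ℕ, 1 ≤ R → ∀ x : X, (SOrb S x R).ncard ≤ C * R ^ d)
    (h : (∃ C : ℕ, ∀ R₀ : ℕ, ∃ R : ℕ, R₀ ≤ R ∧ ∀ x : X, (SOrb S x R).ncard ≤ C * R ^ 2) ∨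
      (∀ ε : ℝ, 0 < ε → ∀ R₀ : ℕ, ∃ R : ℕ, R₀ ≤ R ∧ ∃ R' : ℕ, ∀ x : X, ∃ B : Set X,
        SOrb S x R ⊆ B ∧ B ⊆ SOrb S x R' ∧
        (({y : X | y ∈ B ∧ ∃ s ∈ S, s • y ∉ B}.ncard : ℕ) : ℝ) ≤ ε * (R : ℝ))) :
    ∃ H : Subgroup (G ⧸ (MulAction.toPermHom G X).ker),
      H.FiniteIndex ∧ Group.IsNilpotent ↥H := by
  obtain ⟨ι, _, σ, hσ, hFin⟩ := finG_of_lhf S hsym hgen hfin
  obtain ⟨K, hK1, hK⟩ := exists_scale_factor S hsym hgen σ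
  apply nilpotent_quotient_of_vnm
  obtain ⟨C, d, hC⟩ := hgr
  have hpoly := poly_of_sorb (σ := σ) hK1 hK hC
  rcases h with h | h
  · exact vnm_ker_of_quad hσ hFin hpoly (qgr_of_sorb hK1 hK h)
  · exact vnm_ker_of_thin hσ hFin hpoly (uthin_of_sorb hσ hK1 hK h)

end Pool.Agent.LO86
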