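import Pool.Agent.LO86.Defs

set_option autoImplicit false
set_option linter.unusedSectionVars false
set_option linter.unusedVariables false

namespace Pool.Agent.LO86

open scoped commutatorElement

/-- a displacement function on a group -/
structure Disp {K : Type*} [Group K] (N : K → ℝ) : Prop where
  one : N 1 = 0
  pos : ∀ g : K, g ≠ 1 → 0 < N g
  mul : ∀ g h : K, N (g * h) ≤ N g + N h
  inv : ∀ g : K, N g⁻¹ ≤ N g
  comm : ∀ g h : K, N ⁅g, h⁆ ≤ 2 * N g * N h
  pow : ∀ (g : K) (n : ℕ), (n : ℝ) * N g ≤ 1 → (n : ℝ) * N g / 2 ≤ N (g ^ n)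

/-- a length function on a group -/
structure Len {K : Type*} [Group K] (l : K → ℕ) : Prop where
  one : l 1 = 0
  mul : ∀ g h : K, l (g * h) ≤ l g + l h
  inv : ∀ g : K, l g⁻¹ ≤ l g

section abs
variable {K : Type*} [Group K] {N : K → ℝ} {l : K → ℕ}

lemma Disp.nonneg (hN : Disp N) (g : K) : 0 ≤ N g := by
  by_cases h : g = 1
  · rw [h, hN.one]
  · exact (hN.pos g h).le

lemma Disp.pow_le (hN : Disp N) (g : K) (n : ℕ) : N (g ^ n) ≤ (n : ℝ) * N g := by
  induction n with
  | zero => simp [hN.one]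
  | succ n ih =>
    rw [pow_succ]
    have := hN.mul (g ^ n) g
    push_cast
    linarith

lemma Len.pow_le (hl : Len l) (g : K) (n : ℕ) : l (g ^ n) ≤ n * l g := by
  induction n with
  | zero => simp [hl.one]
  | succ n ih =>
    rw [pow_succ]
    have := hl.mul (g ^ n) g
    have h2 : (n + 1) * l g = n * l g + l g := by ring
    omega

lemma Len.comm_le (hl : Len l) (g h : K) : l ⁅g, h⁆ ≤ 2 * l g + 2 * l h := by
  rw [commutatorElement_def]
  have h1 := hl.mul (g * h * g⁻¹) h⁻¹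
  have h2 := hl.mul (g * h) g⁻¹
  have h3 := hl.mul g h
  have h4 := hl.inv g
  have h5 := hl.inv h
  omega

open Classical in
/-- the set of the products of bounded powers -/
noncomputable def TT (M : ℕ) : ℕ → (ℕ → K) → Finset K
  | 0, _ => {1}
  | m + 1, g => Finset.image₂ (fun (i : ℕ) (t : K) => g 0 ^ i * t) (Finset.range (M + 1))
      (TT M m (fun k => g (k + 1)))

lemma TT_props (hN : Disp N) (hl : Len l) (M : ℕ) (q ε : ℝ) (hq : q ≤ 1 / 2) (hq0 : 0 ≤ q)
    (hMq : 8 * (M : ℝ) * q < 1) (hMe : (M : ℝ) * ε ≤ 1) (m : ℕ) :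
    ∀ (g : ℕ → K) (L : ℕ), (∀ k < m, g k ≠ 1) → (∀ k < m, N (g k) ≤ ε) →
      (∀ k, k + 1 < m → N (g (k + 1)) ≤ q * N (g k)) → (∀ k < m, l (g k) ≤ L * 4 ^ k) →
      (TT M m g).card = (M + 1) ^ m ∧ (∀ t ∈ TT M m g, N t ≤ 2 * (M : ℝ) * N (g 0)) ∧
        (∀ t ∈ TT M m g, l t + M * L ≤ M * L * 4 ^ m) := by
  induction m with
  | zero =>
    intro g L _ _ _ _
    have hM0 : (0 : ℝ) ≤ M := Nat.cast_nonneg M
    refine ⟨by simp [TT], ?_, ?_⟩
    · intro t ht
      have ht1 : t = 1 := by simpa [TT] using ht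
      rw [ht1, hN.one]
      have := hN.nonneg (g 0)
      positivity
    · intro t ht
      have ht1 : t = 1 := by simpa [TT] using ht
      rw [ht1, hl.one]
      simp
  | succ m ih =>
    intro g L h1 h2 h3 h4
    have hM0 : (0 : ℝ) ≤ M := Nat.cast_nonneg M
    obtain ⟨c1, c2, c3⟩ := ih (fun k => g (k + 1)) (4 * L)
      (fun k hk => h1 (k + 1) (by omega)) (fun k hk => h2 (k + 1) (by omega))
      (fun k hk => h3 (k + 1) (by omega))
      (fun k hk => by
        have := h4 (k + 1) (by omega)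
        calc l (g (k + 1)) ≤ L * 4 ^ (k + 1) := this
          _ = 4 * L * 4 ^ k := by ring)
    have hg0 : 0 < N (g 0) := hN.pos _ (h1 0 (by omega))
    have hg0e : N (g 0) ≤ ε := h2 0 (by omega)
    -- the norm bound of the tail
    have ct : ∀ t ∈ TT M m (fun k => g (k + 1)), N t ≤ 2 * (M : ℝ) * q * N (g 0) := by
      intro t ht
      rcases Nat.eq_zero_or_pos m with hm | hm
      · subst hm
        have ht1 : t = 1 := by simpa [TT] using ht
        rw [ht1, hN.one]
        positivity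
      · have e1 := c2 t ht
        have e2 := h3 0 (by omega)
        have e3 : 2 * (M : ℝ) * N (g (0 + 1)) ≤ 2 * (M : ℝ) * (q * N (g 0)) := by
          apply mul_le_mul_of_nonneg_left e2
          positivity
        calc N t ≤ 2 * (M : ℝ) * N (g (0 + 1)) := e1
          _ ≤ 2 * (M : ℝ) * (q * N (g 0)) := e3
          _ = 2 * (M : ℝ) * q * N (g 0) := by ring
    -- key separation
    have key : ∀ (i j : ℕ) (t t' : K), i < j → j ≤ M → t ∈ TT M m (fun k => g (k + 1)) →
        t' ∈ TT M m (fun k => g (k + 1)) → g 0 ^ i * t ≠ g 0 ^ j * t' := by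
      intro i j t t' hij hjM ht ht' he
      have e1 : g 0 ^ (j - i) = t * t'⁻¹ := by
        have : g 0 ^ j = g 0 ^ i * g 0 ^ (j - i) := by rw [← pow_add]; congr 1; omega
        rw [this, mul_assoc] at he
        have he2 := mul_left_cancel he
        rw [he2, mul_inv_cancel_right]
      have hn1 : (1 : ℝ) ≤ ((j - i : ℕ) : ℝ) := by
        exact_mod_cast (by omega : 1 ≤ j - i)
      have hnM : ((j - i : ℕ) : ℝ) ≤ (M : ℝ) := by
        exact_mod_cast (by omega : j - i ≤ M)
      have hle : ((j - i : ℕ) : ℝ) * N (g 0) ≤ 1 := by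
        calc ((j - i : ℕ) : ℝ) * N (g 0) ≤ (M : ℝ) * ε := by
              apply mul_le_mul hnM hg0e hg0.le hM0
          _ ≤ 1 := hMe
      have e2 := hN.pow (g 0) (j - i) hle
      rw [e1] at e2
      have e3 := hN.mul t t'⁻¹
      have e4 := hN.inv t'
      have e5 := ct t ht
      have e6 := ct t' ht'
      have e7 : N (g 0) / 2 ≤ ((j - i : ℕ) : ℝ) * N (g 0) / 2 := by
        have : 1 * N (g 0) ≤ ((j - i : ℕ) : ℝ) * N (g 0) :=
          mul_le_mul_of_nonneg_right hn1 hg0.le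
        linarith
      have e8 : 8 * (M : ℝ) * q * N (g 0) < 1 * N (g 0) :=
        mul_lt_mul_of_pos_right hMq hg0
      linarith
    refine ⟨?_, ?_, ?_⟩
    · have : (TT M (m + 1) g).card = (Finset.range (M + 1)).card
          * (TT M m (fun k => g (k + 1))).card := by
        classical
        rw [show TT M (m + 1) g = Finset.image₂ (fun (i : ℕ) (t : K) => g 0 ^ i * t)
          (Finset.range (M + 1)) (TT M m (fun k => g (k + 1))) from rfl]
        rw [Finset.card_image₂_iff.mpr]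
        intro x hx y hy hxy
        obtain ⟨i, t⟩ := x
        obtain ⟨j, t'⟩ := y
        simp only [Set.mem_prod, Finset.mem_coe, Finset.mem_range] at hx hy
        change g 0 ^ i * t = g 0 ^ j * t' at hxy
        rcases lt_trichotomy i j with h | h | h
        · exact absurd hxy (key i j t t' h (by omega) hx.2 hy.2)
        · subst h
          rw [mul_left_cancel hxy]
        · exact absurd hxy.symm (key j i t' t h (by omega) hy.2 hx.2)
      rw [this, c1, Finset.card_range, pow_succ]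
      ring
    · intro t ht
      classical
      obtain ⟨i, hi, t', ht', rfl⟩ := Finset.mem_image₂.mp ht
      have hiM : (i : ℝ) ≤ M := by
        exact_mod_cast Nat.lt_succ_iff.mp (Finset.mem_range.mp hi)
      have e1 := hN.mul (g 0 ^ i) t'
      have e2 := hN.pow_le (g 0) i
      have e3 := ct t' ht'
      have e4 : (i : ℝ) * N (g 0) ≤ (M : ℝ) * N (g 0) :=
        mul_le_mul_of_nonneg_right hiM hg0.le
      have e5 : 2 * (M : ℝ) * q * N (g 0) ≤ (M : ℝ) * N (g 0) := by
        have : (M : ℝ) * N (g 0) * (2 * q) ≤ (M : ℝ) * N (g 0) * 1 := by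
          apply mul_le_mul_of_nonneg_left (by linarith) (by positivity)
        linarith
      linarith
    · intro t ht
      classical
      obtain ⟨i, hi, t', ht', rfl⟩ := Finset.mem_image₂.mp ht
      have hiM : i ≤ M := Nat.lt_succ_iff.mp (Finset.mem_range.mp hi)
      have e1 := hl.mul (g 0 ^ i) t'
      have e2 := hl.pow_le (g 0) i
      have e3 := c3 t' ht'
      have e4 : l (g 0) ≤ L := by simpa using h4 0 (by omega)
      have e5 : i * l (g 0) ≤ M * L := Nat.mul_le_mul hiM e4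
      have e6 : M * (4 * L) = 4 * (M * L) := by ring
      have e7 : M * (4 * L) * 4 ^ m = M * L * 4 ^ (m + 1) := by ring
      have e8 : g 0 ^ i * t' = (fun (i : ℕ) (t : K) => g 0 ^ i * t) i t' := rfl
      change l (g 0 ^ i * t') + M * L ≤ M * L * 4 ^ (m + 1)
      rw [e7, e6] at e3
      omega

/-- iterated commutator sets -/
def XX (S : Set K) : ℕ → Set K
  | 0 => S
  | m + 1 => {y | ∃ x ∈ XX S m, ∃ s ∈ S, y = ⁅x, s⁆}

lemma exists_chain (hN : Disp N) (hl : Len l) (S : Set K) (ε : ℝ) (r : ℕ) (hε : ε ≤ 1 / 2)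
    (hS : ∀ s ∈ S, N s ≤ ε) (hr : ∀ s ∈ S, l s ≤ r) (m : ℕ) :
    ∀ x ∈ XX S m, x ≠ 1 → ∃ g : ℕ → K, g m = x ∧ (∀ k ≤ m, g k ≠ 1) ∧ (∀ k ≤ m, N (g k) ≤ ε) ∧
      (∀ k < m, N (g (k + 1)) ≤ 2 * ε * N (g k)) ∧ (∀ k ≤ m, l (g k) ≤ r * 4 ^ k) := by
  induction m with
  | zero =>
    intro x hx hx1
    refine ⟨fun _ => x, rfl, fun k _ => hx1, fun k _ => hS x hx, fun k hk => by omega, ?_⟩
    intro k hk
    obtain rfl : k = 0 := by omega
    simpa using hr x hx
  | succ m ih =>
    intro y hy hy1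
    obtain ⟨x, hx, s, hs, rfl⟩ := hy
    have hx1 : x ≠ 1 := by
      rintro rfl
      exact hy1 (commutatorElement_one_left s)
    obtain ⟨g, h0, h1, h2, h3, h4⟩ := ih x hx hx1
    have hNx : N x ≤ ε := by rw [← h0]; exact h2 m le_rfl
    have hlx : l x ≤ r * 4 ^ m := by rw [← h0]; exact h4 m le_rfl
    have hc : N ⁅x, s⁆ ≤ 2 * ε * N x := by
      have e1 := hN.comm x s
      have e2 := hS s hs
      have e3 := hN.nonneg x
      nlinarith
    have hε0 : 0 ≤ ε := (hN.nonneg x).trans hNx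
    refine ⟨Function.update g (m + 1) ⁅x, s⁆, by simp, ?_, ?_, ?_, ?_⟩
    · intro k hk
      by_cases hkm : k = m + 1
      · subst hkm; simpa using hy1
      · rw [Function.update_of_ne hkm]; exact h1 k (by omega)
    · intro k hk
      by_cases hkm : k = m + 1
      · subst hkm
        rw [Function.update_self]
        have e3 := hN.nonneg x
        nlinarith
      · rw [Function.update_of_ne hkm]; exact h2 k (by omega)
    · intro k hk
      by_cases hkm : k = m
      · subst hkm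
        rw [Function.update_self, Function.update_of_ne (by omega), h0]
        exact hc
      · rw [Function.update_of_ne (by omega), Function.update_of_ne (by omega)]
        exact h3 k (by omega)
    · intro k hk
      by_cases hkm : k = m + 1
      · subst hkm
        rw [Function.update_self]
        have e1 := hl.comm_le x s
        have e2 := hr s hs
        have e3 : 1 ≤ 4 ^ m := Nat.one_le_pow _ _ (by norm_num)
        have e4 : r * 1 ≤ r * 4 ^ m := Nat.mul_le_mul_left r e3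
        have e5 : r * 4 ^ (m + 1) = 4 * (r * 4 ^ m) := by ring
        omega
      · rw [Function.update_of_ne hkm]; exact h4 k (by omega)

end abs


section abs2
variable {K : Type*} [Group K] {N : K → ℝ} {l : K → ℕ}

/-- polynomial growth: iterated commutators of elements with small displacement vanish -/
lemma exists_vanish (hN : Disp N) (hl : Len l) (C d : ℕ)
    (hgr : ∀ (R : ℕ), 1 ≤ R → ∀ T : Finset K, (∀ g ∈ T, l g ≤ R) → T.card ≤ C * R ^ d)
    (S : Set K) (r : ℕ) (hS : ∀ s ∈ S, N s ≤ 1 / (32 * 4 ^ d)) (hr : ∀ s ∈ S, l s ≤ r) :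
    ∃ m : ℕ, ∀ x ∈ XX S m, x = 1 := by
  by_contra hcon
  push Not at hcon
  have h4 : (1 : ℝ) ≤ 4 ^ d := one_le_pow₀ (by norm_num)
  have h4p : (0 : ℝ) < 4 ^ d := by positivity
  have hε : (1 : ℝ) / (32 * 4 ^ d) ≤ 1 / 2 := by
    rw [div_le_div_iff₀ (by positivity) (by norm_num)]
    linarith
  have hMe : ((4 ^ d : ℕ) : ℝ) * (1 / (32 * 4 ^ d)) = 1 / 32 := by
    push_cast
    field_simp
  have hy : (1 : ℝ) < (((4 ^ d : ℕ) : ℝ) + 1) / ((4 ^ d : ℕ) : ℝ) := by
    rw [lt_div_iff₀ (by push_cast; exact h4p)]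
    linarith
  obtain ⟨m, hm⟩ := pow_unbounded_of_one_lt ((C * (4 ^ d * (r + 1)) ^ d : ℕ) : ℝ) hy
  obtain ⟨x, hx, hx1⟩ := hcon m
  obtain ⟨g, h0, h1, h2, h3, h5⟩ := exists_chain hN hl S (1 / (32 * 4 ^ d)) (r + 1) hε hS
    (fun s hs => (hr s hs).trans (Nat.le_succ r)) m x hx hx1
  obtain ⟨c1, _, c3⟩ := TT_props hN hl (4 ^ d) (2 * (1 / (32 * 4 ^ d))) (1 / (32 * 4 ^ d))
    (by
      have : (1 : ℝ) / (32 * 4 ^ d) ≤ 1 / 4 := by
        rw [div_le_div_iff₀ (by positivity) (by norm_num)]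
        linarith
      linarith) (by positivity)
    (by
      have : 8 * ((4 ^ d : ℕ) : ℝ) * (2 * (1 / (32 * 4 ^ d)))
          = 16 * (((4 ^ d : ℕ) : ℝ) * (1 / (32 * 4 ^ d))) := by ring
      rw [this, hMe]
      norm_num)
    (by rw [hMe]; norm_num) m g (r + 1) (fun k hk => h1 k hk.le) (fun k hk => h2 k hk.le)
    (fun k hk => h3 k (by omega)) (fun k hk => h5 k hk.le)
  have c4 := hgr (4 ^ d * (r + 1) * 4 ^ m) (Nat.one_le_iff_ne_zero.mpr (by positivity))
    (TT (4 ^ d) m g) (fun t ht => by have := c3 t ht; omega)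
  rw [c1] at c4
  have c5 : C * (4 ^ d * (r + 1) * 4 ^ m) ^ d = C * (4 ^ d * (r + 1)) ^ d * (4 ^ d) ^ m := by
    rw [mul_pow (4 ^ d * (r + 1)), ← pow_mul, ← pow_mul, mul_comm m d, mul_assoc]
  rw [c5] at c4
  have c6 : ((((4 ^ d : ℕ) : ℝ) + 1)) ^ m
      ≤ ((C * (4 ^ d * (r + 1)) ^ d : ℕ) : ℝ) * ((4 ^ d : ℕ) : ℝ) ^ m := by
    exact_mod_cast c4
  rw [div_pow, lt_div_iff₀ (by push_cast; positivity)] at hm
  linarith

/-- nilpotency criterion -/
lemma nilp_of_vanish (S : Set K) (hS : Subgroup.closure S = ⊤) (m : ℕ)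
    (h : ∀ x ∈ XX S m, x = 1) : Group.IsNilpotent K := by
  have key : ∀ k : ℕ, (⊤ : Subgroup K).lowerCentralSeries k ≤ Subgroup.normalClosure (XX S k) := by
    intro k
    induction k with
    | zero =>
      rw [Subgroup.lowerCentralSeries_zero, ← hS]
      exact Subgroup.closure_le_normalClosure
    | succ k ih =>
      rw [Subgroup.lowerCentralSeries_succ]
      refine (Subgroup.commutator_mono ih le_rfl).trans ?_
      set P : Subgroup K := Subgroup.normalClosure (XX S (k + 1)) with hP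
      have hx : ∀ x ∈ XX S k, ∀ b : K, ⁅x, b⁆ ∈ P := by
        intro x hx b
        have hb : b ∈ Subgroup.closure S := by rw [hS]; trivial
        have hcl : Subgroup.closure S ≤
            (Subgroup.centralizer {(QuotientGroup.mk' P) x}).comap (QuotientGroup.mk' P) := by
          rw [Subgroup.closure_le]
          intro s hs
          change (QuotientGroup.mk' P) s ∈ Subgroup.centralizer {(QuotientGroup.mk' P) x}
          rw [Subgroup.mem_centralizer_singleton_iff]
          have hm : ⁅x, s⁆ ∈ P := Subgroup.subset_normalClosure ⟨x, hx, s, hs, rfl⟩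
          have h1 : (QuotientGroup.mk' P) ⁅x, s⁆ = 1 := (QuotientGroup.eq_one_iff _).mpr hm
          rw [map_commutatorElement, commutatorElement_eq_one_iff_mul_comm] at h1
          exact h1.symm
        have h2 := hcl hb
        change (QuotientGroup.mk' P) b ∈ Subgroup.centralizer {(QuotientGroup.mk' P) x} at h2
        rw [Subgroup.mem_centralizer_singleton_iff] at h2
        have h3 : (QuotientGroup.mk' P) ⁅x, b⁆ = 1 := by
          rw [map_commutatorElement, commutatorElement_eq_one_iff_mul_comm]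
          exact h2.symm
        exact (QuotientGroup.eq_one_iff _).mp h3
      have hc : Subgroup.normalClosure (XX S k) ≤
          (Subgroup.center (K ⧸ P)).comap (QuotientGroup.mk' P) := by
        apply Subgroup.normalClosure_le_normal
        intro x hxx
        change (QuotientGroup.mk' P) x ∈ Subgroup.center (K ⧸ P)
        rw [Subgroup.mem_center_iff]
        intro y
        obtain ⟨b, rfl⟩ := QuotientGroup.mk'_surjective P y
        have h3 : (QuotientGroup.mk' P) ⁅x, b⁆ = 1 := (QuotientGroup.eq_one_iff _).mpr (hx x hxx b)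
        rw [map_commutatorElement, commutatorElement_eq_one_iff_mul_comm] at h3
        exact h3.symm
      rw [Subgroup.commutator_le]
      intro a ha b _
      have h4 := hc ha
      change (QuotientGroup.mk' P) a ∈ Subgroup.center (K ⧸ P) at h4
      rw [Subgroup.mem_center_iff] at h4
      have h5 := h4 ((QuotientGroup.mk' P) b)
      apply (QuotientGroup.eq_one_iff _).mp
      change (QuotientGroup.mk' P) ⁅a, b⁆ = 1
      rw [map_commutatorElement, commutatorElement_eq_one_iff_mul_comm]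
      exact h5.symm
  have hm := key m
  have h0 : Subgroup.normalClosure (XX S m) ≤ ⊥ := by
    apply Subgroup.normalClosure_le_normal
    intro x hx
    exact (h x hx : x = 1)
  rw [Subgroup.nilpotent_iff_lowerCentralSeries]
  exact ⟨m, le_bot_iff.mp (hm.trans h0)⟩

lemma mem_closure_finite {X : Set K} {x : K} (hx : x ∈ Subgroup.closure X) :
    ∃ F : Set K, F.Finite ∧ F ⊆ X ∧ x ∈ Subgroup.closure F := by
  induction hx using Subgroup.closure_induction with
  | mem x hx => exact ⟨{x}, Set.finite_singleton x, by simpa using hx,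
      Subgroup.subset_closure rfl⟩
  | one => exact ⟨∅, Set.finite_empty, Set.empty_subset _, Subgroup.one_mem _⟩
  | mul a b _ _ iha ihb =>
    obtain ⟨F, h1, h2, h3⟩ := iha
    obtain ⟨F', h1', h2', h3'⟩ := ihb
    exact ⟨F ∪ F', h1.union h1', Set.union_subset h2 h2',
      Subgroup.mul_mem _ (Subgroup.closure_mono Set.subset_union_left h3)
        (Subgroup.closure_mono Set.subset_union_right h3')⟩
  | inv a _ iha =>
    obtain ⟨F, h1, h2, h3⟩ := iha
    exact ⟨F, h1, h2, Subgroup.inv_mem _ h3⟩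

lemma fg_closure_finite {X : Set K} (h : (Subgroup.closure X).FG) :
    ∃ F : Set K, F.Finite ∧ F ⊆ X ∧ Subgroup.closure F = Subgroup.closure X := by
  obtain ⟨T, hT⟩ := h
  have h1 : ∀ t : K, ∃ F : Set K, F.Finite ∧ F ⊆ X ∧ (t ∈ T → t ∈ Subgroup.closure F) := by
    intro t
    by_cases ht : t ∈ T
    · obtain ⟨F, h1, h2, h3⟩ := mem_closure_finite
        (show t ∈ Subgroup.closure X by rw [← hT]; exact Subgroup.subset_closure ht)
      exact ⟨F, h1, h2, fun _ => h3⟩
    · exact ⟨∅, Set.finite_empty, Set.empty_subset _, fun h => absurd h ht⟩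
  choose F hF1 hF2 hF3 using h1
  refine ⟨⋃ t ∈ T, F t, T.finite_toSet.biUnion (fun t _ => hF1 t), ?_, ?_⟩
  · exact Set.iUnion₂_subset (fun t _ => hF2 t)
  · apply le_antisymm
    · exact Subgroup.closure_mono (Set.iUnion₂_subset (fun t _ => hF2 t))
    · rw [← hT, Subgroup.closure_le]
      intro t ht
      exact Subgroup.closure_mono (Set.subset_biUnion_of_mem (u := F) ht) (hF3 t ht)

/-- finite index of the subgroup generated by the elements with small displacement -/
lemma finiteIndex_small (ε : ℝ)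
    (hF : ∃ F : Finset K, ∀ g : K, ∃ f ∈ F, N (f⁻¹ * g) ≤ ε) :
    (Subgroup.closure {g : K | N g ≤ ε}).FiniteIndex := by
  obtain ⟨F, hF⟩ := hF
  have : Finite (K ⧸ Subgroup.closure {g : K | N g ≤ ε}) := by
    apply Set.finite_univ_iff.mp
    apply (F.finite_toSet.image
      (fun f : K => (QuotientGroup.mk f : K ⧸ Subgroup.closure {g : K | N g ≤ ε}))).subset
    intro x _
    obtain ⟨g, rfl⟩ := QuotientGroup.mk_surjective x
    obtain ⟨f, hf, hfg⟩ := hF g
    refine ⟨f, hf, ?_⟩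
    apply QuotientGroup.eq.mpr
    exact Subgroup.subset_closure hfg
  exact Subgroup.finiteIndex_of_finite_quotient

/-- commutator contraction, abstract form -/
theorem vnilp_abs [hfg : Group.FG K] (hN : Disp N) (hl : Len l) (C d : ℕ)
    (hgr : ∀ (R : ℕ), 1 ≤ R → ∀ T : Finset K, (∀ g ∈ T, l g ≤ R) → T.card ≤ C * R ^ d)
    (hpre : ∀ ε : ℝ, 0 < ε → ∃ F : Finset K, ∀ g : K, ∃ f ∈ F, N (f⁻¹ * g) ≤ ε) :
    ∃ H : Subgroup K, H.FiniteIndex ∧ Group.IsNilpotent ↥H := by
  have hε : (0 : ℝ) < 1 / (32 * 4 ^ d) := by positivity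
  have hfi := finiteIndex_small (N := N) _ (hpre _ hε)
  set H : Subgroup K := Subgroup.closure {g : K | N g ≤ 1 / (32 * 4 ^ d)} with hH
  have hHfg : H.FG := (Group.fg_iff_subgroup_fg H).mp (Subgroup.fg_of_index_ne_zero H)
  obtain ⟨F, hF1, hF2, hF3⟩ := fg_closure_finite hHfg
  refine ⟨H, hfi, ?_⟩
  have hFH : F ⊆ (H : Set K) := by
    rw [hH, ← hF3]; exact Subgroup.subset_closure
  let S : Set H := {x | (x : K) ∈ F}
  have hSc : Subgroup.closure S = ⊤ := by
    rw [eq_top_iff]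
    intro x _
    have hx : (x : K) ∈ Subgroup.closure F := by rw [hF3]; exact x.2
    have h2 : Subgroup.closure F ≤ (Subgroup.closure S).map H.subtype := by
      rw [Subgroup.closure_le]
      intro f hf
      exact ⟨⟨f, hFH hf⟩, Subgroup.subset_closure (show f ∈ F from hf), rfl⟩
    obtain ⟨y, hy, hyx⟩ := h2 hx
    have : y = x := Subtype.ext hyx
    rw [← this]
    exact hy
  obtain ⟨r, hr⟩ : ∃ r : ℕ, ∀ f ∈ F, l f ≤ r := by
    obtain ⟨r, hr⟩ := (hF1.image l).bddAbove
    exact ⟨r, fun f hf => hr ⟨f, hf, rfl⟩⟩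
  have hN' : Disp (fun x : H => N (x : K)) :=
    { one := by simpa using hN.one
      pos := fun g hg => hN.pos _ (by simpa using hg)
      mul := fun g h => by simpa using hN.mul g h
      inv := fun g => by simpa using hN.inv g
      comm := fun g h => hN.comm g h
      pow := fun g n hn => hN.pow g n hn }
  have hl' : Len (fun x : H => l (x : K)) :=
    { one := by simpa using hl.one
      mul := fun g h => by simpa using hl.mul g h
      inv := fun g => by simpa using hl.inv g }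
  obtain ⟨m, hm⟩ := exists_vanish hN' hl' C d
    (fun R hR T hT => by
      have := hgr R hR (T.map ⟨fun x : H => (x : K), Subtype.val_injective⟩)
        (fun g hg => by
          obtain ⟨y, hy, rfl⟩ := Finset.mem_map.mp hg
          exact hT y hy)
      rwa [Finset.card_map] at this)
    S r (fun s hs => hF2 hs) (fun s hs => hr _ hs)
  exact nilp_of_vanish S hSc m hm

end abs2

section ring
variable {K : Type*} [Group K] {A : Type*} [NormedRing A] [NormedAlgebra ℝ A] (ρ : K →* A)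

omit [NormedAlgebra ℝ A] in
lemma norm_pow_sub_le (a : A) (ha : ‖a‖ ≤ 1) (n : ℕ) : ‖a ^ n - 1‖ ≤ (n : ℝ) * ‖a - 1‖ := by
  induction n with
  | zero => simp
  | succ n ih =>
    have e : a ^ (n + 1) - 1 = a * (a ^ n - 1) + (a - 1) := by
      rw [pow_succ']; noncomm_ring
    rw [e]
    have h1 := norm_add_le (a * (a ^ n - 1)) (a - 1)
    have h2 := norm_mul_le a (a ^ n - 1)
    have h3 : ‖a‖ * ‖a ^ n - 1‖ ≤ 1 * ‖a ^ n - 1‖ :=
      mul_le_mul_of_nonneg_right ha (norm_nonneg _)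
    push_cast
    linarith

lemma norm_pow_sub_sub_le (a : A) (ha : ‖a‖ ≤ 1) (n : ℕ) :
    ‖a ^ n - 1 - (n : ℝ) • (a - 1 : A)‖ ≤ (n : ℝ) ^ 2 / 2 * ‖a - 1‖ ^ 2 := by
  induction n with
  | zero => simp
  | succ n ih =>
    have e : a ^ (n + 1) - 1 - ((n + 1 : ℕ) : ℝ) • (a - 1 : A)
        = (a ^ n - 1 - (n : ℝ) • (a - 1 : A)) + (a ^ n - 1) * (a - 1) := by
      have e1 : ((n + 1 : ℕ) : ℝ) • (a - 1 : A) = (n : ℝ) • (a - 1 : A) + (a - 1) := by
        push_cast
        rw [add_smul, one_smul]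
      rw [e1, pow_succ]
      noncomm_ring
    rw [e]
    have h1 := norm_add_le (a ^ n - 1 - (n : ℝ) • (a - 1 : A)) ((a ^ n - 1) * (a - 1))
    have h2 := norm_mul_le (a ^ n - 1) (a - 1)
    have h3 : ‖a ^ n - 1‖ * ‖a - 1‖ ≤ (n : ℝ) * ‖a - 1‖ * ‖a - 1‖ :=
      mul_le_mul_of_nonneg_right (norm_pow_sub_le a ha n) (norm_nonneg _)
    have h4 : 0 ≤ ‖a - 1‖ ^ 2 := by positivity
    push_cast
    nlinarith

lemma disp_of_rep (hinj : Function.Injective ρ) (hnorm : ∀ g, ‖ρ g‖ ≤ 1) :
    Disp (fun g : K => ‖ρ g - 1‖) where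
  one := by simp
  pos := fun g hg => by
    rw [norm_pos_iff, sub_ne_zero]
    intro h
    exact hg (hinj (by rw [h, map_one]))
  mul := fun g h => by
    have e : ρ (g * h) - 1 = (ρ g - 1) * ρ h + (ρ h - 1) := by
      rw [map_mul]; noncomm_ring
    rw [e]
    have h1 := norm_add_le ((ρ g - 1) * ρ h) (ρ h - 1)
    have h2 := norm_mul_le (ρ g - 1) (ρ h)
    have h3 : ‖ρ g - 1‖ * ‖ρ h‖ ≤ ‖ρ g - 1‖ * 1 :=
      mul_le_mul_of_nonneg_left (hnorm h) (norm_nonneg _)
    linarith
  inv := fun g => by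
    have e : ρ g⁻¹ - 1 = - (ρ g⁻¹ * (ρ g - 1)) := by
      rw [mul_sub, ← map_mul, inv_mul_cancel, map_one]; noncomm_ring
    rw [e, norm_neg]
    have h2 := norm_mul_le (ρ g⁻¹) (ρ g - 1)
    have h3 : ‖ρ g⁻¹‖ * ‖ρ g - 1‖ ≤ 1 * ‖ρ g - 1‖ :=
      mul_le_mul_of_nonneg_right (hnorm _) (norm_nonneg _)
    linarith
  comm := fun g h => by
    have e0 : ⁅g, h⁆ * (h * g) = g * h := by rw [commutatorElement_def]; group
    have e : ρ ⁅g, h⁆ - 1 = ((ρ g - 1) * (ρ h - 1) - (ρ h - 1) * (ρ g - 1)) * ρ (h * g)⁻¹ := by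
      have e1 : ρ ⁅g, h⁆ = ρ (g * h) * ρ (h * g)⁻¹ := by
        rw [← map_mul, ← e0]; congr 1; group
      have e2 : (1 : A) = ρ (h * g) * ρ (h * g)⁻¹ := by
        rw [← map_mul, mul_inv_cancel, map_one]
      calc ρ ⁅g, h⁆ - 1 = (ρ (g * h) - ρ (h * g)) * ρ (h * g)⁻¹ := by
            rw [sub_mul, ← e1, ← e2]
        _ = _ := by
            rw [map_mul, map_mul ρ h g]; noncomm_ring
    rw [e]
    have h1 := norm_mul_le ((ρ g - 1) * (ρ h - 1) - (ρ h - 1) * (ρ g - 1)) (ρ (h * g)⁻¹)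
    have h2 := norm_sub_le ((ρ g - 1) * (ρ h - 1)) ((ρ h - 1) * (ρ g - 1))
    have h3 := norm_mul_le (ρ g - 1) (ρ h - 1)
    have h4 := norm_mul_le (ρ h - 1) (ρ g - 1)
    have h5 : ‖(ρ g - 1) * (ρ h - 1) - (ρ h - 1) * (ρ g - 1)‖ * ‖ρ (h * g)⁻¹‖
        ≤ ‖(ρ g - 1) * (ρ h - 1) - (ρ h - 1) * (ρ g - 1)‖ * 1 :=
      mul_le_mul_of_nonneg_left (hnorm _) (norm_nonneg _)
    nlinarith
  pow := fun g n hn => by
    have h1 := norm_pow_sub_sub_le (ρ g) (hnorm g) n
    have h2 : ‖(n : ℝ) • (ρ g - 1 : A)‖ = (n : ℝ) * ‖ρ g - 1‖ := by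
      rw [norm_smul, Real.norm_eq_abs, abs_of_nonneg (Nat.cast_nonneg n)]
    have h3 := norm_sub_norm_le ((n : ℝ) • (ρ g - 1 : A)) (ρ g ^ n - 1)
    rw [norm_sub_rev ((n : ℝ) • (ρ g - 1 : A)) (ρ g ^ n - 1)] at h3
    rw [map_pow]
    have h4 : (n : ℝ) ^ 2 / 2 * ‖ρ g - 1‖ ^ 2
        = ((n : ℝ) * ‖ρ g - 1‖) * ((n : ℝ) * ‖ρ g - 1‖) / 2 := by ring
    have h5 : ((n : ℝ) * ‖ρ g - 1‖) * ((n : ℝ) * ‖ρ g - 1‖) ≤ ((n : ℝ) * ‖ρ g - 1‖) * 1 :=
      mul_le_mul_of_nonneg_left hn (by positivity)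
    linarith

omit [NormedAlgebra ℝ A] in
lemma precompact_of_rep (hnorm : ∀ g, ‖ρ g‖ ≤ 1) (htb : TotallyBounded (Set.range ρ))
    (ε : ℝ) (hε : 0 < ε) : ∃ F : Finset K, ∀ g : K, ∃ f ∈ F, ‖ρ (f⁻¹ * g) - 1‖ ≤ ε := by
  classical
  obtain ⟨t, ht1, ht2, ht3⟩ := Metric.finite_approx_of_totallyBounded htb ε hε
  choose! pre hpre using fun (y : A) (hy : y ∈ Set.range ρ) => hy
  refine ⟨ht2.toFinset.image pre, ?_⟩
  intro g
  obtain ⟨y, hy, hyg⟩ := Set.mem_iUnion₂.mp (ht3 ⟨g, rfl⟩)
  refine ⟨pre y, Finset.mem_image.mpr ⟨y, ht2.mem_toFinset.mpr hy, rfl⟩, ?_⟩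
  have e1 : ρ (pre y) = y := hpre y (ht1 hy)
  have e : ρ ((pre y)⁻¹ * g) - 1 = ρ (pre y)⁻¹ * (ρ g - ρ (pre y)) := by
    rw [mul_sub, ← map_mul, ← map_mul, inv_mul_cancel, map_one]
  rw [e]
  have h2 := norm_mul_le (ρ (pre y)⁻¹) (ρ g - ρ (pre y))
  have h3 : ‖ρ (pre y)⁻¹‖ * ‖ρ g - ρ (pre y)‖ ≤ 1 * ‖ρ g - ρ (pre y)‖ :=
    mul_le_mul_of_nonneg_right (hnorm _) (norm_nonneg _)
  rw [Metric.mem_ball, dist_eq_norm] at hyg
  rw [e1] at h2 h3 ⊢
  linarith

/-- **Commutator contraction.** A finitely generated group of polynomial growth with a faithful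
representation with totally bounded image, all of norm at most one, is virtually nilpotent. -/
theorem vnilp_rep [hfg : Group.FG K] (hinj : Function.Injective ρ) (hnorm : ∀ g, ‖ρ g‖ ≤ 1)
    (htb : TotallyBounded (Set.range ρ)) {l : K → ℕ} (hl : Len l) (C d : ℕ)
    (hgr : ∀ (R : ℕ), 1 ≤ R → ∀ T : Finset K, (∀ g ∈ T, l g ≤ R) → T.card ≤ C * R ^ d) :
    ∃ H : Subgroup K, H.FiniteIndex ∧ Group.IsNilpotent ↥H :=
  vnilp_abs (disp_of_rep ρ hinj hnorm) hl C d hgr
    (fun ε hε => precompact_of_rep ρ hnorm htb ε hε)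

end ring

section finrep
variable {K : Type*} [Group K] {V : Type*} [NormedAddCommGroup V] [NormedSpace ℝ V]
  [FiniteDimensional ℝ V]

/-- the case of linear contractions of a finite dimensional normed space -/
theorem vnilp_lin [hfg : Group.FG K] (ρ : K →* (V →ₗ[ℝ] V)) (hinj : Function.Injective ρ)
    (hnorm : ∀ g v, ‖ρ g v‖ ≤ ‖v‖) {l : K → ℕ} (hl : Len l) (C d : ℕ)
    (hgr : ∀ (R : ℕ), 1 ≤ R → ∀ T : Finset K, (∀ g ∈ T, l g ≤ R) → T.card ≤ C * R ^ d) :
    ∃ H : Subgroup K, H.FiniteIndex ∧ Group.IsNilpotent ↥H := by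
  let σ : K →* (V →L[ℝ] V) :=
    { toFun := fun g => LinearMap.toContinuousLinearMap (ρ g)
      map_one' := by
        ext v
        simp
      map_mul' := fun g h => by
        ext v
        simp [map_mul] }
  have hσ : ∀ g v, σ g v = ρ g v := fun g v => rfl
  have hn : ∀ g, ‖σ g‖ ≤ 1 := fun g =>
    ContinuousLinearMap.opNorm_le_bound _ zero_le_one (fun v => by
      rw [hσ, one_mul]; exact hnorm g v)
  refine vnilp_rep σ ?_ hn ?_ hl C d hgr
  · intro g h hgh
    apply hinj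
    ext v
    rw [← hσ, ← hσ, hgh]
  · have : ProperSpace (V →L[ℝ] V) := FiniteDimensional.proper ℝ _
    have hb : Bornology.IsBounded (Set.range σ) := by
      rw [isBounded_iff_forall_norm_le]
      exact ⟨1, by rintro _ ⟨g, rfl⟩; exact hn g⟩
    exact hb.isCompact_closure.totallyBounded.subset subset_closure

end finrep

section img
open Pool.Agent.LHF

variable {G : Type*} [Group G]

/-- length of the elements of the range of a homomorphism -/
noncomputable def imgLen {A : Type*} [Group A] (φ : G →* A) (l : G → ℕ) (k : φ.range) : ℕ :=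
  sInf {n | ∃ g : G, φ g = k ∧ l g = n}

lemma imgLen_spec {A : Type*} [Group A] (φ : G →* A) (l : G → ℕ) (k : φ.range) :
    ∃ g : G, φ g = k ∧ l g = imgLen φ l k := by
  have hne : {n | ∃ g : G, φ g = k ∧ l g = n}.Nonempty := by
    obtain ⟨g, hg⟩ := k.2
    exact ⟨l g, g, hg, rfl⟩
  exact Nat.sInf_mem hne

lemma imgLen_le {A : Type*} [Group A] (φ : G →* A) (l : G → ℕ) (k : φ.range) (g : G)
    (hg : φ g = k) : imgLen φ l k ≤ l g :=
  Nat.sInf_le ⟨g, hg, rfl⟩

lemma imgLen_len {A : Type*} [Group A] (φ : G →* A) {l : G → ℕ} (hl : Len l) :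
    Len (imgLen φ l) where
  one := by
    have := imgLen_le φ l 1 1 (by simp)
    rw [hl.one] at this
    omega
  mul := fun g h => by
    obtain ⟨x, hx, hx2⟩ := imgLen_spec φ l g
    obtain ⟨y, hy, hy2⟩ := imgLen_spec φ l h
    rw [← hx2, ← hy2]
    exact (imgLen_le φ l (g * h) (x * y) (by rw [map_mul, hx, hy]; rfl)).trans (hl.mul x y)
  inv := fun g => by
    obtain ⟨x, hx, hx2⟩ := imgLen_spec φ l g
    rw [← hx2]
    exact (imgLen_le φ l g⁻¹ x⁻¹ (by rw [map_inv, hx]; rfl)).trans (hl.inv x)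

/-- commutator contraction for a representation which need not be faithful -/
theorem vnm_of_rep [hfg : Group.FG G] {U : Type*} [NormedAddCommGroup U] [NormedSpace ℝ U]
    [FiniteDimensional ℝ U] (ρ : G →* (U →ₗ[ℝ] U)) (hnorm : ∀ g v, ‖ρ g v‖ ≤ ‖v‖)
    {l : G → ℕ} (hl : Len l) (C d : ℕ)
    (hgr : ∀ R : ℕ, 1 ≤ R → ∀ T : Finset (U →ₗ[ℝ] U), (∀ a ∈ T, ∃ g, l g ≤ R ∧ ρ g = a) →
      T.card ≤ C * R ^ d) : VNm ρ.toHomUnits.ker := by
  set φ : G →* (U →ₗ[ℝ] U)ˣ := ρ.toHomUnits with hφ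
  have hφv : ∀ g, ((φ g : (U →ₗ[ℝ] U)ˣ) : U →ₗ[ℝ] U) = ρ g := fun g => rfl
  let σ : φ.range →* (U →ₗ[ℝ] U) := (Units.coeHom _).comp φ.range.subtype
  have hσ : ∀ k : φ.range, ∃ g, φ g = k ∧ σ k = ρ g := by
    intro k
    obtain ⟨g, hg⟩ := k.2
    refine ⟨g, hg, ?_⟩
    change ((k : (U →ₗ[ℝ] U)ˣ) : U →ₗ[ℝ] U) = ρ g
    rw [← hg]
    rfl
  have hσinj : Function.Injective σ := by
    intro a b hab
    apply Subtype.ext
    apply Units.ext
    exact hab
  have hFG : Group.FG φ.range := Group.fg_of_surjective φ.rangeRestrict_surjective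
  obtain ⟨H, hH1, hH2⟩ := vnilp_lin σ hσinj (fun k v => by
      obtain ⟨g, _, hg⟩ := hσ k
      rw [hg]
      exact hnorm g v) (imgLen_len φ hl) C d (fun R hR T hT => by
      have h1 := hgr R hR (T.map ⟨σ, hσinj⟩) (fun a ha => by
        obtain ⟨k, hk, rfl⟩ := Finset.mem_map.mp ha
        obtain ⟨g, hg, hg2⟩ := imgLen_spec φ l k
        refine ⟨g, by rw [hg2]; exact hT k hk, ?_⟩
        change ρ g = ((k : (U →ₗ[ℝ] U)ˣ) : U →ₗ[ℝ] U)
        rw [← hg]
        rfl)
      rwa [Finset.card_map] at h1)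
  obtain ⟨k, hk⟩ := (Subgroup.isNilpotent_iff_lowerCentralSeries H).mp hH2
  have h1 : VNm (⊥ : Subgroup φ.range) := ⟨H, hH1, k, hk.le⟩
  have h2 := h1.comap φ.rangeRestrict
  rwa [MonoidHom.comap_bot, MonoidHom.ker_rangeRestrict] at h2

/-- growth of the image from the growth of the orbits of a spanning family -/
lemma growth_of_orbits {U : Type*} [AddCommGroup U] [Module ℝ U]
    (ρ : G →* (U →ₗ[ℝ] U)) {l : G → ℕ} (hl : Len l) {κ : Type*} [Fintype κ] (u : κ → U)
    (hu : Submodule.span ℝ (Set.range u) = ⊤) (C : ℕ)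
    (d : ℕ)
    (horb : ∀ R : ℕ, 1 ≤ R → ∀ i : κ, ∀ T : Finset U, (∀ a ∈ T, ∃ g, l g ≤ R ∧ ρ g (u i) = a) →
      T.card ≤ C * R ^ d) :
    ∀ R : ℕ, 1 ≤ R → ∀ T : Finset (U →ₗ[ℝ] U), (∀ a ∈ T, ∃ g, l g ≤ R ∧ ρ g = a) →
      T.card ≤ C ^ Fintype.card κ * R ^ (d * Fintype.card κ) := by
  classical
  intro R hR T hT
  let ev : (U →ₗ[ℝ] U) → (κ → U) := fun a i => a (u i)
  have hev : Function.Injective ev := by
    intro a b hab
    have : Set.EqOn a b (Set.range u) := by
      rintro _ ⟨i, rfl⟩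
      exact congrFun hab i
    exact LinearMap.ext_on hu this
  have h1 : T.image ev ⊆ Fintype.piFinset (fun i => T.image (fun a => a (u i))) := by
    intro x hx
    obtain ⟨a, ha, rfl⟩ := Finset.mem_image.mp hx
    rw [Fintype.mem_piFinset]
    intro i
    exact Finset.mem_image.mpr ⟨a, ha, rfl⟩
  have h2 := Finset.card_le_card h1
  rw [Finset.card_image_of_injective T hev, Fintype.card_piFinset] at h2
  refine h2.trans ?_
  rw [pow_mul, ← mul_pow]
  have h3 : ∏ i : κ, (T.image (fun a => a (u i))).card ≤ ∏ _i : κ, (C * R ^ d) := by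
    apply Finset.prod_le_prod'
    intro i _
    apply horb R hR i
    intro v hv
    obtain ⟨a, ha, rfl⟩ := Finset.mem_image.mp hv
    obtain ⟨g, hg, rfl⟩ := hT a ha
    exact ⟨g, hg, rfl⟩
  simpa using h3

end img

section translates
open Pool.Agent.LHF
open scoped commutatorElement ENNReal

variable {G : Type*} [Group G]

/-- right invariance under generators -/
lemma right_inv_of_gen {S : Set G} (hgen : Subgroup.closure S = ⊤) {h : G → ℝ}
    (hh : ∀ y, ∀ s ∈ S, h (y * s) = h y) (y : G) : h y = h 1 := by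
  have hy : y ∈ Subgroup.closure S := by rw [hgen]; trivial
  have key : ∀ z, h (z * y) = h z := by
    induction hy using Subgroup.closure_induction with
    | mem s hs => exact fun z => hh z s hs
    | one => intro z; rw [mul_one]
    | mul a b _ _ iha ihb => intro z; rw [← mul_assoc, ihb, iha]
    | inv a _ iha =>
      intro z
      have := iha (z * a⁻¹)
      rw [inv_mul_cancel_right] at this
      exact this.symm
  have := key 1
  rwa [one_mul] at this

/-- translation on bounded functions -/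
noncomputable def trl (S : Set G) (g : G) :
    lp (fun _ : S × G => ℝ) ∞ →ₗ[ℝ] lp (fun _ : S × G => ℝ) ∞ where
  toFun := fun e => ⟨fun i => e (i.1, g⁻¹ * i.2), by
    apply memℓp_infty
    refine ⟨‖e‖, ?_⟩
    rintro _ ⟨i, rfl⟩
    exact lp.norm_apply_le_norm ENNReal.top_ne_zero e _⟩
  map_add' := fun e f => by
    ext i
    rfl
  map_smul' := fun c e => by
    ext i
    rfl

lemma trl_apply (S : Set G) (g : G) (e : lp (fun _ : S × G => ℝ) ∞) (i : S × G) :
    trl S g e i = e (i.1, g⁻¹ * i.2) := rfl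

lemma trl_norm (S : Set G) (g : G) (e : lp (fun _ : S × G => ℝ) ∞) : ‖trl S g e‖ ≤ ‖e‖ :=
  lp.norm_le_of_forall_le (norm_nonneg _) (fun i =>
    lp.norm_apply_le_norm ENNReal.top_ne_zero e _)

/-- the gradient of a translate as a bounded function -/
noncomputable def grd (S : Set G) (F : G → ℝ) (L : ℝ)
    (hLip : ∀ x, ∀ s ∈ S, |F (x * s) - F x| ≤ L) (x : G) : lp (fun _ : S × G => ℝ) ∞ :=
  ⟨fun i => F (x * i.2 * i.1) - F (x * i.2), by
    apply memℓp_infty
    refine ⟨L, ?_⟩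
    rintro _ ⟨i, rfl⟩
    exact hLip (x * i.2) i.1 i.1.2⟩

/-- **Translates with linear growth.** -/
theorem vnm_of_translates (hG : FinG G) (S : Set G) (hgen : Subgroup.closure S = ⊤)
    (V : Submodule ℝ (G → ℝ)) [FiniteDimensional ℝ V] (F : G → ℝ)
    (hF : ∀ g : G, (fun x => F (g * x)) ∈ V) (L : ℝ)
    (hLip : ∀ x, ∀ s ∈ S, |F (x * s) - F x| ≤ L) {l : G → ℕ} (hl : Len l) (C d : ℕ)
    (hgr : ∀ R : ℕ, 1 ≤ R → ∀ T : Finset (G → ℝ),
      (∀ f ∈ T, ∃ g, l g ≤ R ∧ f = fun x => F (g * x)) → T.card ≤ C * R ^ d) :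
    VNm (annKer F) := by
  classical
  have hFG : Group.FG G := hG.fg
  set e : G → lp (fun _ : S × G => ℝ) ∞ := grd S F L hLip with he
  have heval : ∀ (x : G) (i : S × G), e x i = F (x * i.2 * i.1) - F (x * i.2) := fun x i => rfl
  have htr : ∀ g x : G, trl S g (e x) = e (x * g⁻¹) := by
    intro g x
    ext i
    rw [trl_apply, heval, heval, mul_assoc x g⁻¹]
  set U : Submodule ℝ (lp (fun _ : S × G => ℝ) ∞) := Submodule.span ℝ (Set.range e) with hU
  -- finite dimension
  let D : (G → ℝ) →ₗ[ℝ] (S × G → ℝ) :=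
    { toFun := fun f i => f (i.2 * i.1) - f i.2
      map_add' := fun f g => by
        funext i
        simp only [Pi.add_apply]
        ring
      map_smul' := fun c f => by
        funext i
        simp only [Pi.smul_apply, smul_eq_mul, RingHom.id_apply]
        ring }
  let co : lp (fun _ : S × G => ℝ) ∞ →ₗ[ℝ] (S × G → ℝ) :=
    { toFun := fun e => e
      map_add' := fun f g => rfl
      map_smul' := fun c f => rfl }
  have hco : ∀ u ∈ U, co u ∈ V.map D := by
    intro u hu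
    have : U ≤ (V.map D).comap co := by
      rw [hU, Submodule.span_le]
      rintro _ ⟨x, rfl⟩
      refine ⟨fun y => F (x * y), hF x, ?_⟩
      funext i
      change F (x * (i.2 * i.1)) - F (x * i.2) = F (x * i.2 * i.1) - F (x * i.2)
      rw [mul_assoc]
    exact this hu
  have hUfin : FiniteDimensional ℝ U := by
    have : FiniteDimensional ℝ (V.map D) := inferInstance
    exact Module.Finite.of_injective (co.restrict (p := U) (q := V.map D) hco)
      (fun x y hxy => by
        apply Subtype.ext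
        apply lp.ext
        have h := congrArg Subtype.val hxy
        exact h)
  -- the representation
  have hinv : ∀ g : G, ∀ u ∈ U, trl S g u ∈ U := by
    intro g u hu
    have : U ≤ U.comap (trl S g) := by
      conv_lhs => rw [hU]
      rw [Submodule.span_le]
      rintro _ ⟨x, rfl⟩
      change trl S g (e x) ∈ U
      rw [htr]
      exact Submodule.subset_span ⟨_, rfl⟩
    exact this hu
  let ρ : G →* (U →ₗ[ℝ] U) :=
    { toFun := fun g => (trl S g).restrict (hinv g)
      map_one' := by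
        apply LinearMap.ext
        intro u
        apply Subtype.ext
        apply lp.ext
        funext i
        change (u : lp (fun _ : S × G => ℝ) ∞) (i.1, (1 : G)⁻¹ * i.2)
          = (u : lp (fun _ : S × G => ℝ) ∞) i
        simp
      map_mul' := fun g h => by
        apply LinearMap.ext
        intro u
        apply Subtype.ext
        apply lp.ext
        funext i
        change (u : lp (fun _ : S × G => ℝ) ∞) (i.1, (g * h)⁻¹ * i.2)
          = (u : lp (fun _ : S × G => ℝ) ∞) (i.1, h⁻¹ * (g⁻¹ * i.2))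
        rw [mul_inv_rev, mul_assoc] }
  have hρ : ∀ (g : G) (u : U), ((ρ g u : U) : lp (fun _ : S × G => ℝ) ∞) = trl S g u :=
    fun g u => rfl
  -- finite spanning family
  obtain ⟨t, ht1, ht2⟩ := (Submodule.fg_span_iff_fg_span_finset_subset (R := ℝ) (Set.range e)).mp
    ((Module.Finite.iff_fg).mp hUfin)
  choose! xx hxx using fun (v : lp (fun _ : S × G => ℝ) ∞) (hv : v ∈ t) => ht1 hv
  let u : t → U := fun v => ⟨v, Submodule.subset_span (ht1 v.2)⟩
  have hu : Submodule.span ℝ (Set.range u) = ⊤ := by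
    rw [eq_top_iff]
    intro w _
    have h1 : (w : lp (fun _ : S × G => ℝ) ∞) ∈ Submodule.span ℝ (t : Set _) := by
      rw [← ht2]; exact w.2
    have h2 : Submodule.span ℝ (t : Set (lp (fun _ : S × G => ℝ) ∞))
        ≤ (Submodule.span ℝ (Set.range u)).map U.subtype := by
      rw [Submodule.span_le]
      intro v hv
      exact ⟨u ⟨v, hv⟩, Submodule.subset_span ⟨⟨v, hv⟩, rfl⟩, rfl⟩
    obtain ⟨w', hw', hww⟩ := h2 h1
    have : w' = w := Subtype.ext hww
    rw [← this]
    exact hw'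
  obtain ⟨r, hr⟩ : ∃ r : ℕ, ∀ v ∈ t, l (xx v) ≤ r :=
    ⟨t.sup (fun v => l (xx v)), fun v hv => Finset.le_sup (f := fun v => l (xx v)) hv⟩
  -- orbit growth
  have horb : ∀ R : ℕ, 1 ≤ R → ∀ i : t, ∀ T : Finset U,
      (∀ a ∈ T, ∃ g, l g ≤ R ∧ ρ g (u i) = a) → T.card ≤ (C * (r + 1) ^ d) * R ^ d := by
    intro R hR i T hT
    have hxi : e (xx i) = (i : lp (fun _ : S × G => ℝ) ∞) := hxx i i.2
    choose! γ hγ1 hγ2 using hT
    have hval : ∀ a ∈ T, ((a : U) : lp (fun _ : S × G => ℝ) ∞) = e (xx i * (γ a)⁻¹) := by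
      intro a ha
      calc ((a : U) : lp (fun _ : S × G => ℝ) ∞)
          = ((ρ (γ a) (u i) : U) : lp (fun _ : S × G => ℝ) ∞) := by rw [hγ2 a ha]
        _ = trl S (γ a) (i : lp (fun _ : S × G => ℝ) ∞) := rfl
        _ = e (xx i * (γ a)⁻¹) := by rw [← htr, hxi]
    have h1 := hgr ((r + 1) * R) (by nlinarith)
      (T.image (fun a => fun x => F (xx i * (γ a)⁻¹ * x))) (by
        intro f hf
        obtain ⟨a, ha, rfl⟩ := Finset.mem_image.mp hf
        refine ⟨xx i * (γ a)⁻¹, ?_, rfl⟩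
        have e1 := hl.mul (xx i) (γ a)⁻¹
        have e2 := hl.inv (γ a)
        have e3 := hγ1 a ha
        have e4 := hr i i.2
        have e5 : (r + 1) * R = r * R + R := by ring
        have e6 : r * 1 ≤ r * R := Nat.mul_le_mul_left r hR
        omega)
    rw [Finset.card_image_of_injOn] at h1
    · calc T.card ≤ C * ((r + 1) * R) ^ d := h1
        _ = C * (r + 1) ^ d * R ^ d := by rw [mul_pow, mul_assoc]
    · intro a ha b hb hab
      apply Subtype.ext
      rw [hval a ha, hval b hb]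
      apply lp.ext
      funext j
      have hab' : ∀ x, F (xx i * (γ a)⁻¹ * x) = F (xx i * (γ b)⁻¹ * x) := fun x => congrFun hab x
      rw [heval, heval, hab' j.2, mul_assoc (xx i * (γ a)⁻¹), hab' (j.2 * j.1), ← mul_assoc]
  have hgrow := growth_of_orbits ρ hl u hu (C * (r + 1) ^ d) d horb
  have hA := vnm_of_rep ρ (fun g v => trl_norm S g v) hl _ _ hgrow
  have hAn : (ρ.toHomUnits.ker).Normal := inferInstance
  obtain ⟨_, h3⟩ := hG.qq _ hAn hA
  refine h3.mono ?_
  -- elements of the kernel shift all translates by constants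
  have hker : ∀ a ∈ ρ.toHomUnits.ker, ∀ x : G, ∃ c : ℝ, ∀ y : G, F (x * (a * y)) = F (x * y) + c := by
    intro a ha x
    have ha' : a⁻¹ ∈ ρ.toHomUnits.ker := Subgroup.inv_mem _ ha
    have h4 : ρ a⁻¹ = 1 := by
      have : ρ.toHomUnits a⁻¹ = 1 := ha'
      have h5 := congrArg (fun z : (U →ₗ[ℝ] U)ˣ => (z : U →ₗ[ℝ] U)) this
      exact h5
    have h5 : trl S a⁻¹ (e x) = e x := by
      have h6 := congrArg (fun z : U →ₗ[ℝ] U => ((z ⟨e x, Submodule.subset_span ⟨x, rfl⟩⟩ : U) :
        lp (fun _ : S × G => ℝ) ∞)) h4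
      exact h6
    rw [htr, inv_inv] at h5
    have h7 : ∀ y, ∀ s ∈ S, F (x * (a * (y * s))) - F (x * (y * s))
        = F (x * (a * y)) - F (x * y) := by
      intro y s hs
      have h8 : e (x * a) (⟨s, hs⟩, y) = e x (⟨s, hs⟩, y) := by rw [h5]
      rw [heval, heval] at h8
      change F (x * a * y * s) - F (x * a * y) = F (x * y * s) - F (x * y) at h8
      rw [show x * (a * (y * s)) = x * a * y * s by group,
        show x * (y * s) = x * y * s by group, show x * (a * y) = x * a * y by group]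
      linarith
    refine ⟨F (x * (a * 1)) - F (x * 1), fun y => ?_⟩
    have h9 : F (x * (a * y)) - F (x * y) = F (x * (a * 1)) - F (x * 1) :=
      right_inv_of_gen hgen (h := fun y => F (x * (a * y)) - F (x * y)) h7 y
    linarith
  rw [Subgroup.commutator_le]
  intro a ha b hb
  rw [mem_annKer]
  intro g x
  obtain ⟨ca, hca⟩ := hker a ha g
  obtain ⟨cb, hcb⟩ := hker b hb g
  have h1 : ∀ y, F (g * (a * (b * y))) = F (g * (b * (a * y))) := by
    intro y
    rw [hca, hcb, hcb, hca]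
    ring
  have h2 := h1 (a⁻¹ * (b⁻¹ * x))
  rw [mul_inv_cancel_left, mul_inv_cancel_left] at h2
  rw [← h2, commutatorElement_def]
  congr 1
  group

end translates

section final
open Pool.Agent.LHF

variable {G : Type*} [Group G] {ι : Type} [Fintype ι]

/-- word length -/
noncomputable def wlen (σ : ι → G) (g : G) : ℕ := sInf {R | g ∈ Ball σ R}

lemma wlen_le_iff {σ : ι → G} (hσ : GenData σ) {g : G} {R : ℕ} :
    wlen σ g ≤ R ↔ g ∈ Ball σ R := by
  constructor
  · intro h
    have h1 : g ∈ Ball σ (wlen σ g) := Nat.sInf_mem (exists_mem_ball hσ g)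
    exact ball_mono σ h h1
  · intro h
    exact Nat.sInf_le h

lemma wlen_len {σ : ι → G} (hσ : GenData σ) : Len (wlen σ) where
  one := Nat.le_zero.mp ((wlen_le_iff hσ).mpr (one_mem_ball σ 0))
  mul := fun g h => (wlen_le_iff hσ).mpr
    (mul_mem_ball σ ((wlen_le_iff hσ).mp le_rfl) ((wlen_le_iff hσ).mp le_rfl))
  inv := fun g => (wlen_le_iff hσ).mpr (inv_mem_ball hσ ((wlen_le_iff hσ).mp le_rfl))

/-- a Lipschitz harmonic function that is invariant under a subgroup with polynomially growing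
coset space has an annihilator with virtually nilpotent quotient -/
theorem vnm_annKer_of_growth {σ : ι → G} (hσ : GenData σ) (hFin : FinHF σ) {F : G → ℝ}
    (hF : IsLHF σ F) {K : Subgroup G} (hFK : ∀ k ∈ K, ∀ x, F (k * x) = F x) {C : ℝ} {d : ℕ}
    (hK : ∀ R : ℕ, (cosN σ K R : ℝ) ≤ C * ((R : ℝ) + 1) ^ d) : VNm (annKer F) := by
  classical
  have hG : FinG G := ⟨ι, inferInstance, σ, hσ, hFin⟩
  obtain ⟨V, hV, hVm⟩ := hFin
  obtain ⟨hF1, L, hL⟩ := hF
  have hgen : Subgroup.closure (Set.range σ) = ⊤ := by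
    rw [eq_top_iff]
    intro g _
    obtain ⟨l, rfl⟩ := hσ.gen g
    induction l with
    | nil => exact Subgroup.one_mem _
    | cons j l ih =>
      rw [wprod_cons]
      exact Subgroup.mul_mem _ (Subgroup.subset_closure ⟨j, rfl⟩) (ih trivial)
  refine vnm_of_translates hG (Set.range σ) hgen V F ?_ L ?_ (wlen_len hσ) ⌈C * 2 ^ d⌉₊ d ?_
  · intro g
    apply hVm
    · funext x
      rw [avg_translate, hF1]
    · exact ⟨L, fun x j => by
        have := hL (g * x) j
        rwa [mul_assoc] at this⟩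
  · rintro x _ ⟨j, rfl⟩
    exact hL x j
  · intro R hR T hT
    choose! γ hγ1 hγ2 using hT
    have h1 : T.card ≤ cosN σ K R := by
      rw [cosN, ← Set.ncard_coe_finset]
      refine Set.ncard_le_ncard_of_injOn (fun f => (QuotientGroup.mk (γ f)⁻¹ : G ⧸ K)) ?_ ?_
        ((ball_finite σ R).image _)
      · intro f hf
        exact ⟨(γ f)⁻¹, inv_mem_ball hσ ((wlen_le_iff hσ).mp (hγ1 f hf)), rfl⟩
      · intro f hf f' hf' hff
        have h2 : (γ f)⁻¹⁻¹ * (γ f')⁻¹ ∈ K := QuotientGroup.eq.mp hff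
        rw [inv_inv] at h2
        rw [hγ2 f hf, hγ2 f' hf']
        funext x
        have h3 := hFK _ h2 (γ f' * x)
        rw [← h3]
        congr 1
        group
    have hR1 : (1 : ℝ) ≤ R := by exact_mod_cast hR
    have hC0 : 0 ≤ C := by
      by_contra hneg
      push Not at hneg
      have h5 := hK 0
      have h6 : (0 : ℝ) ≤ (cosN σ K 0 : ℝ) := Nat.cast_nonneg _
      rw [Nat.cast_zero, zero_add, one_pow, mul_one] at h5
      linarith
    have h2 : (T.card : ℝ) ≤ C * 2 ^ d * (R : ℝ) ^ d := by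
      calc (T.card : ℝ) ≤ (cosN σ K R : ℝ) := by exact_mod_cast h1
        _ ≤ C * ((R : ℝ) + 1) ^ d := hK R
        _ ≤ C * (2 * (R : ℝ)) ^ d := by
            apply mul_le_mul_of_nonneg_left _ hC0
            apply pow_le_pow_left₀ (by linarith)
            linarith
        _ = C * 2 ^ d * (R : ℝ) ^ d := by rw [mul_pow]; ring
    have h3 : C * 2 ^ d * (R : ℝ) ^ d ≤ (⌈C * 2 ^ d⌉₊ : ℝ) * (R : ℝ) ^ d :=
      mul_le_mul_of_nonneg_right (Nat.le_ceil _) (by positivity)
    exact_mod_cast h2.trans h3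

end final

end Pool.Agent.LO86
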