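import Pool.Agent.LO86.Thin
import Pool.Agent.LO86.Index

set_option autoImplicit false
set_option linter.unusedSectionVars false
set_option linter.unusedVariables false

namespace Pool.Agent.LO86

open Pool.Agent.LHF

variable {G : Type*} [Group G] {ι : Type} [Fintype ι]

/-- Thinness leaves no room for infinitely many infinite orbits of `N`. Proof: suppose
`K.relIndex N = 0`. Then all `N`-orbits on `Z = G ⧸ K` are infinite (`N (gK) = g (N K)`).
`N` is generated by a finite `T ⊆ Ball σ lam`. Take `ε = 1 / (Ball σ lam).ncard`, `R ≥ 1`, `B`.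
By `succ_le_cosN` for `L = K ⊔ N` there are `R + 1` elements `g_i ∈ Ball σ R` with distinct
cosets `g_i L`, so the `R + 1` orbits `O_i = N (g_i K) = g_i L / K` are disjoint, and
`g_i K ∈ B`. As `O_i` is infinite and `B` finite, some `σ`-path that realizes a word in `T`
leaves `B`: there are `w ∈ O_i` and a prefix `u ∈ Ball σ lam` of the `σ`-word of an element of
`T` with `u • w ∈ bdry σ B`. So `O_i` meets `{v • y : v ∈ Ball σ lam, y ∈ bdry σ B}` (take
`v = u⁻¹`), a set with at most `(Ball σ lam).ncard * (bdry σ B).ncard ≤ R` elements;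
contradiction. -/
theorem relIndex_ne_zero_of_thin {σ : ι → G} (hσ : GenData σ) {K N : Subgroup G}
    (hNn : N.Normal) (hNfg : N.FG)
    (hK : ThinAt (X := G ⧸ K) σ ((1 : G) : G ⧸ K))
    (hL : (K ⊔ N).index = 0) : K.relIndex N ≠ 0 := by
  classical
  intro h0
  obtain ⟨κ, _, σ', hσ'⟩ := exists_family hNfg
  obtain ⟨lam, hlam0⟩ := finite_subset_ball hσ (Set.finite_range (fun j : κ => (σ' j : G)))
  have hlam : ∀ j, (σ' j : G) ∈ Ball σ lam := fun j => hlam0 ⟨j, rfl⟩
  have hβ : 0 < (Ball σ lam).ncard :=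
    (Set.ncard_pos (ball_finite σ lam)).2 ⟨1, one_mem_ball σ lam⟩
  have hβR : (0 : ℝ) < (Ball σ lam).ncard := by exact_mod_cast hβ
  obtain ⟨R, _, B, hBf, hB, hbd⟩ := hK (1 / (Ball σ lam).ncard) (by positivity) 0
  have hbd' : (Ball σ lam).ncard * (bdry σ B).ncard ≤ R := by
    have h1 : ((Ball σ lam).ncard : ℝ) * (bdry σ B).ncard ≤ R := by
      calc ((Ball σ lam).ncard : ℝ) * (bdry σ B).ncard
          ≤ (Ball σ lam).ncard * (1 / (Ball σ lam).ncard * R) :=
            mul_le_mul_of_nonneg_left hbd hβR.le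
        _ = R := by
            field_simp
    exact_mod_cast h1
  have hbf : (bdry σ B).Finite := hBf.subset fun y hy => hy.1
  -- every `N`-orbit of a point of the ball meets `E`
  have key : ∀ g ∈ Ball σ R, ∃ n ∈ N,
      n • ((g : G) : G ⧸ K) ∈ Set.image2 (fun (v : G) (y : G ⧸ K) => v • y) (Ball σ lam) (bdry σ B) := by
    intro g hg
    by_contra hcon
    push Not at hcon
    have hgB : ((g : G) : G ⧸ K) ∈ B := by
      have h1 := hB g hg
      have h2 : g • ((1 : G) : G ⧸ K) = ((g : G) : G ⧸ K) := by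
        rw [MulAction.Quotient.smul_mk, smul_eq_mul, mul_one]
      rwa [h2] at h1
    have hstep : ∀ n ∈ N, n • ((g : G) : G ⧸ K) ∈ B → ∀ l : List ι, l.length ≤ lam →
        wprod σ l • (n • ((g : G) : G ⧸ K)) ∈ B := by
      intro n hn hnB l
      induction l with
      | nil =>
        intro _
        rw [wprod_nil, one_smul]
        exact hnB
      | cons i l ih =>
        intro hl
        have hl' : l.length ≤ lam := by
          rw [List.length_cons] at hl
          omega
        have hy := ih hl'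
        rw [wprod_cons, mul_smul]
        by_contra hout
        refine hcon n hn ⟨(wprod σ l)⁻¹, inv_mem_ball hσ ⟨l, hl', rfl⟩,
          wprod σ l • (n • ((g : G) : G ⧸ K)), ⟨hy, i, hout⟩, ?_⟩
        exact inv_smul_smul _ _
    have hall : ∀ l : List κ, ((wprod σ' l : N) : G) • ((g : G) : G ⧸ K) ∈ B := by
      intro l
      induction l with
      | nil =>
        rw [wprod_nil, Subgroup.coe_one, one_smul]
        exact hgB
      | cons j l ih =>
        rw [wprod_cons, Subgroup.coe_mul, mul_smul]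
        obtain ⟨w, hw, hwj⟩ := hlam j
        rw [← hwj]
        exact hstep _ (wprod σ' l).2 ih w hw
    have hall' : ∀ m : N, ((g * (m : G) : G) : G ⧸ K) ∈ B := by
      intro m
      have hn : g * (m : G) * g⁻¹ ∈ N := hNn.conj_mem _ m.2 g
      obtain ⟨l, hl⟩ := hσ' ⟨_, hn⟩
      have h1 := hall l
      rw [hl] at h1
      have h2 : (g * (m : G) * g⁻¹) • ((g : G) : G ⧸ K) = ((g * (m : G) : G) : G ⧸ K) := by
        rw [MulAction.Quotient.smul_mk, smul_eq_mul, inv_mul_cancel_right]
      rw [← h2]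
      exact h1
    have hfin : Finite (N ⧸ K.subgroupOf N) := by
      haveI : Finite B := hBf
      refine Finite.of_injective
        (fun q : N ⧸ K.subgroupOf N => (⟨_, hall' (Quotient.out q)⟩ : B)) ?_
      intro q q' h
      have h1 : ((g * ((Quotient.out q : N) : G) : G) : G ⧸ K) =
          ((g * ((Quotient.out q' : N) : G) : G) : G ⧸ K) := congrArg Subtype.val h
      rw [QuotientGroup.eq] at h1
      have h2 : (Quotient.out q)⁻¹ * Quotient.out q' ∈ K.subgroupOf N := by
        rw [Subgroup.mem_subgroupOf, Subgroup.coe_mul, Subgroup.coe_inv]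
        have e1 : ((Quotient.out q : N) : G)⁻¹ * ((Quotient.out q' : N) : G) =
            (g * ((Quotient.out q : N) : G))⁻¹ * (g * ((Quotient.out q' : N) : G)) := by group
        rw [e1]
        exact h1
      rw [← QuotientGroup.out_eq' q, ← QuotientGroup.out_eq' q']
      exact QuotientGroup.eq.2 h2
    exact Subgroup.index_ne_zero_of_finite h0
  -- representatives
  have hrep : ∀ a : G ⧸ (K ⊔ N), ∃ z : G ⧸ K,
      a ∈ (fun g : G => (QuotientGroup.mk g : G ⧸ (K ⊔ N))) '' Ball σ R →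
        z ∈ Set.image2 (fun (v : G) (y : G ⧸ K) => v • y) (Ball σ lam) (bdry σ B) ∧
        ∃ g : G, (QuotientGroup.mk g : G ⧸ (K ⊔ N)) = a ∧ ∃ n ∈ N, n • ((g : G) : G ⧸ K) = z := by
    intro a
    by_cases h : a ∈ (fun g : G => (QuotientGroup.mk g : G ⧸ (K ⊔ N))) '' Ball σ R
    · obtain ⟨g, hg, hga⟩ := h
      obtain ⟨n, hn, hz⟩ := key g hg
      exact ⟨_, fun _ => ⟨hz, g, hga, n, hn, rfl⟩⟩
    · exact ⟨((1 : G) : G ⧸ K), fun h' => absurd h' h⟩
  choose z hz using hrep
  have hE : (Set.image2 (fun (v : G) (y : G ⧸ K) => v • y) (Ball σ lam) (bdry σ B)).Finite :=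
    Set.Finite.image2 _ (ball_finite σ lam) hbf
  have hcard : cosN σ (K ⊔ N) R ≤
      (Set.image2 (fun (v : G) (y : G ⧸ K) => v • y) (Ball σ lam) (bdry σ B)).ncard := by
    unfold cosN
    refine Set.ncard_le_ncard_of_injOn z (fun a ha => (hz a ha).1) ?_ hE
    intro a ha a' ha' h
    obtain ⟨-, g, hga, n, hn, hgz⟩ := hz a ha
    obtain ⟨-, g', hga', n', hn', hgz'⟩ := hz a' ha'
    rw [← hga, ← hga']
    refine QuotientGroup.eq.2 ?_
    have h1 : ((n * g : G) : G ⧸ K) = ((n' * g' : G) : G ⧸ K) := by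
      have e1 : ((n * g : G) : G ⧸ K) = n • ((g : G) : G ⧸ K) := by
        rw [MulAction.Quotient.smul_mk, smul_eq_mul]
      have e2 : ((n' * g' : G) : G ⧸ K) = n' • ((g' : G) : G ⧸ K) := by
        rw [MulAction.Quotient.smul_mk, smul_eq_mul]
      rw [e1, e2, hgz, hgz', h]
    rw [QuotientGroup.eq] at h1
    have hx : g⁻¹ * (n⁻¹ * n') * g⁻¹⁻¹ ∈ N :=
      hNn.conj_mem _ (N.mul_mem (N.inv_mem hn) hn') g⁻¹
    have e3 : g⁻¹ * g' = (g⁻¹ * (n⁻¹ * n') * g⁻¹⁻¹)⁻¹ * ((n * g)⁻¹ * (n' * g')) := by group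
    rw [e3]
    exact mul_mem (inv_mem ((le_sup_right : N ≤ K ⊔ N) hx)) ((le_sup_left : K ≤ K ⊔ N) h1)
  have hcard2 : (Set.image2 (fun (v : G) (y : G ⧸ K) => v • y) (Ball σ lam) (bdry σ B)).ncard ≤
      (Ball σ lam).ncard * (bdry σ B).ncard := by
    rw [← Set.image_uncurry_prod, ← Set.ncard_prod]
    exact Set.ncard_image_le ((ball_finite σ lam).prod hbf)
  have h1 := succ_le_cosN hσ.gen hL R
  omega

end Pool.Agent.LO86
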