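import Pool.Agent.LO86.Dist
import Pool.Agent.LO86.Limit
import Pool.Agent.LO86.RepCount
import Pool.Agent.LO86.Annih
import Pool.Agent.LO86.ThinIndex
import Pool.Agent.LO86.ThinLimit
import Pool.Agent.LO86.LimGrowth

set_option autoImplicit false
set_option linter.unusedSectionVars false
set_option linter.unusedVariables false

namespace Pool.Agent.LO86

open Pool.Agent.LHF

variable {G : Type*} [Group G] {ι : Type} [Fintype ι]

lemma subOrb_smul_encard {X : Type*} [MulAction G X] {N : Subgroup G} (hNn : N.Normal) (g : G)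
    (x : X) : (subOrb N (g • x)).encard = (subOrb N x).encard := by
  have h : subOrb N (g • x) = (fun z => g • z) '' subOrb N x := by
    ext y
    constructor
    · rintro ⟨m, hm, rfl⟩
      refine ⟨(g⁻¹ * m * g) • x, ⟨g⁻¹ * m * g, ?_, rfl⟩, ?_⟩
      · have := hNn.conj_mem m hm g⁻¹
        rwa [inv_inv] at this
      · simp only [← mul_smul]
        congr 1
        group
    · rintro ⟨_, ⟨m, hm, rfl⟩, rfl⟩
      refine ⟨g * m * g⁻¹, hNn.conj_mem m hm g, ?_⟩
      simp only [← mul_smul]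
      congr 1
      group
  rw [h]
  exact (MulAction.injective g).encard_image _

/-- a large orbit of `N` leaves the ball of radius `R` -/
lemma exists_far {σ : ι → G} {X : Type*} [MulAction G X] {N : Subgroup G} {x : X} {R : ℕ}
    (h : ((orbN σ x R : ℕ) : ℕ∞) < (subOrb N x).encard) :
    ∃ x' ∈ subOrb N x, ∀ g ∈ Ball σ R, g • x ≠ x' := by
  by_contra hcon
  push Not at hcon
  have hsub : subOrb N x ⊆ (fun g : G => g • x) '' Ball σ R := by
    intro x' hx'
    obtain ⟨g, hg, hgx⟩ := hcon x' hx'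
    exact ⟨g, hg, hgx⟩
  have hfin : ((fun g : G => g • x) '' Ball σ R).Finite := (ball_finite σ R).image _
  have h1 := Set.encard_le_encard hsub
  rw [← hfin.cast_ncard_eq] at h1
  exact absurd (lt_of_lt_of_le h h1) (lt_irrefl _)

/-- the orbits of the annihilator subgroup `N` are bounded, provided that limit stabilizers have no
room for infinitely many infinite orbits of `N` -/
theorem subOrb_bounded_of {σ : ι → G} (hσ : GenData σ) (hFin : FinHF σ) {X : Type*}
    [MulAction G X] {C : ℝ} {d : ℕ}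
    (hX : ∀ (x : X) (R : ℕ), (orbN σ x R : ℝ) ≤ C * ((R : ℝ) + 1) ^ d)
    {N : Subgroup G} (hNn : N.Normal)
    (hNfg : N.FG) (hN : ∀ F : G → ℝ, IsLHF σ F → VNm (annKer F) → N ≤ annKer F)
    (hE : ∀ y : ℕ → X, (limStab y ⊔ N).index = 0 → (limStab y).relIndex N ≠ 0) :
    ∃ Q : ℕ, ∀ x : X, (subOrb N x).encard ≤ (Q : ℕ∞) := by
  by_contra hcon
  push Not at hcon
  -- one scale for each `n`
  have hstep : ∀ n : ℕ, ∃ (y : X) (Ψ : G → ℝ), (n : ℕ∞) ≤ (subOrb N y).encard ∧
      (∀ x j, |Ψ (x * σ j) - Ψ x| ≤ 1) ∧ (∀ x, |Ψ x - avg σ Ψ x| ≤ 2) ∧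
      (∀ x, |(Ψ x - avg σ Ψ x) - avg σ (fun y => Ψ y - avg σ Ψ y) x| ≤ 4 / ((n : ℝ) + 1)) ∧
      (∃ j, 1 / 4 ≤ |Ψ (σ j) - Ψ 1|) ∧ (∀ k : G, k • y = y → ∀ g, Ψ (k * g) = Ψ g) := by
    intro n
    obtain ⟨x, hx⟩ := hcon (n + ⌈C * (((4 * (n + 1) - 1 : ℕ) : ℝ) + 1) ^ d⌉₊)
    have hx1 : ((orbN σ x (4 * (n + 1) - 1) : ℕ) : ℕ∞) < (subOrb N x).encard := by
      refine lt_of_le_of_lt ?_ hx
      have h1 : orbN σ x (4 * (n + 1) - 1) ≤ ⌈C * (((4 * (n + 1) - 1 : ℕ) : ℝ) + 1) ^ d⌉₊ := by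
        have h2 := (hX x (4 * (n + 1) - 1)).trans (Nat.le_ceil _)
        exact_mod_cast h2
      exact_mod_cast h1.trans (Nat.le_add_left _ _)
    obtain ⟨x', ⟨m, hm, hmx⟩, hfar⟩ := exists_far hx1
    obtain ⟨y, Ψ, ⟨g, hg⟩, h1, h2, h3, h4, h5⟩ :=
      exists_scale hσ x x' ⟨m, hmx⟩ (n := n + 1) (by omega) hfar
    refine ⟨y, Ψ, ?_, h1, h2, ?_, h4, h5⟩
    · rw [← hg, subOrb_smul_encard hNn]
      refine le_trans ?_ hx.le
      exact_mod_cast Nat.le_add_right _ _
    · intro x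
      have := h3 x
      push_cast at this
      exact this
  choose y Ψ hy h1 h2 h3 h4 h5 using hstep
  obtain ⟨F, hF, hnc, hinv⟩ := limit_harm hσ hFin h1 h2 h3 h4
  have hFK : ∀ k ∈ limStab y, ∀ x, F (k * x) = F x := by
    intro k hk
    apply hinv k
    rw [mem_limStab] at hk
    filter_upwards [hk] with n hn
    exact h5 n k hn
  have hcos : ∀ R : ℕ, (cosN σ (limStab y) R : ℝ) ≤ C * ((R : ℝ) + 1) ^ d :=
    fun R => cosN_limStab_le (f := fun R => C * ((R : ℝ) + 1) ^ d) hX y R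
  have hNF : N ≤ annKer F :=
    hN F hF (vnm_annKer_of_growth hσ hFin hF hFK hcos)
  have hFN : ∀ n ∈ N, ∀ x, F (n * x) = F x := by
    intro n hn x
    have := (mem_annKer.mp (hNF hn)) 1 x
    simpa using this
  let S : Subgroup G :=
    { carrier := {k | ∀ x, F (k * x) = F x}
      one_mem' := by intro x; simp
      mul_mem' := by
        intro a b ha hb x
        rw [mul_assoc, ha, hb]
      inv_mem' := by
        intro a ha x
        have := ha (a⁻¹ * x)
        rw [mul_inv_cancel_left] at this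
        exact this.symm }
  have hL : (limStab y ⊔ N).index = 0 := by
    apply index_eq_zero hσ hFin hF hnc
    have : limStab y ⊔ N ≤ S := sup_le (fun k hk => hFK k hk) (fun n hn => hFN n hn)
    intro k hk
    exact this hk
  have hrel := hE y hL
  have hev := subOrb_le_of_relIndex hNfg hrel
  have hbig : ∀ᶠ n in (Filter.hyperfilter ℕ : Filter ℕ), (limStab y).relIndex N < n := by
    apply Filter.hyperfilter_le_cofinite
    rw [Nat.cofinite_eq_atTop]
    exact Filter.eventually_gt_atTop _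
  obtain ⟨n, hn1, hn2⟩ := (hev.and hbig).exists
  have := (hy n).trans hn1
  exact absurd (by exact_mod_cast this : n ≤ (limStab y).relIndex N) (by omega)

/-- the orbits of the annihilator subgroup `N` are bounded -/
theorem subOrb_bounded {σ : ι → G} (hσ : GenData σ) (hFin : FinHF σ) {X : Type*}
    [MulAction G X] {C : ℝ} {d : ℕ}
    (hX : ∀ (x : X) (R : ℕ), (orbN σ x R : ℝ) ≤ C * ((R : ℝ) + 1) ^ d) (hthin : UThin σ X)
    {N : Subgroup G} (hNn : N.Normal)
    (hNfg : N.FG) (hN : ∀ F : G → ℝ, IsLHF σ F → VNm (annKer F) → N ≤ annKer F) :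
    ∃ Q : ℕ, ∀ x : X, (subOrb N x).encard ≤ (Q : ℕ∞) :=
  subOrb_bounded_of hσ hFin hX hNn hNfg hN fun y hL =>
    relIndex_ne_zero_of_thin hσ hNn hNfg (thinAt_limStab hthin y) hL

end Pool.Agent.LO86
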