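import Pool.Agent.LO86.Ulim

set_option autoImplicit false
set_option linter.unusedSectionVars false
set_option linter.unusedVariables false

namespace Pool.Agent.LO86

open Pool.Agent.LHF Filter Topology

variable {G : Type*} [Group G] {ι : Type} [Fintype ι] {X : Type*}

/-- average over a finite set -/
noncomputable def bav (B : Finset X) (f : X → ℝ) : ℝ := (∑ y ∈ B, f y) / (B.card : ℝ)

variable [MulAction G X]

/-- the averaging operator on functions on a `G`-set -/
noncomputable def pav (σ : ι → G) (f : X → ℝ) (x : X) : ℝ :=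
  (∑ j, f (σ j • x)) / (Fintype.card ι : ℝ)

/-- time averages on a `G`-set -/
noncomputable def tavX (σ : ι → G) (n : ℕ) (φ : X → ℝ) (x : X) : ℝ :=
  (∑ t ∈ Finset.range n, (pav σ)^[t] φ x) / (n : ℝ)

/-- sequences of functions `u n` on a `G`-set with energy at most `C` times the size of the finite
set `B n`, with bounded and almost harmonic Laplacian -/
structure Apx (σ : ι → G) (C : ℝ) (B : ℕ → Finset X) (u : ℕ → X → ℝ) : Prop where
  ne : ∀ n, (B n).Nonempty
  en : ∀ (n : ℕ) (j : ι) (A : Finset X),
    ∑ y ∈ A, (u n (σ j • y) - u n y) ^ 2 ≤ C * ((B n).card : ℝ)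
  lap : ∀ n y, |u n y - pav σ (u n) y| ≤ 2
  lap2 : ∀ n y, |(u n y - pav σ (u n) y) - pav σ (fun z => u n z - pav σ (u n) z) y| ≤
    4 / ((n : ℝ) + 1)

/-- the function on the group obtained from `u n` by averaging over `B n` with weights `ψ n` -/
noncomputable def Fpsi (B : ℕ → Finset X) (u ψ : ℕ → X → ℝ) (g : G) : ℝ :=
  ul (fun n => bav (B n) (fun y => ψ n y * (u n (g⁻¹ • y) - u n y)))

end Pool.Agent.LO86
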