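import Pool.Agent.LO86.QDefs

set_option autoImplicit false
set_option linter.unusedSectionVars false
set_option linter.unusedVariables false

namespace Pool.Agent.LO86

open Pool.Agent.LHF Filter Topology

variable {G : Type*} [Group G] {ι : Type} [Fintype ι] {X : Type*} [MulAction G X]

namespace QE

/-- finite support -/
def FS (f : X → ℝ) : Prop := (Function.support f).Finite

omit [MulAction G X] in
lemma FS.summable {f : X → ℝ} (hf : FS f) : Summable f := summable_of_hasFiniteSupport hf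

omit [MulAction G X] in
lemma FS.mul {f : X → ℝ} (hf : FS f) (g : X → ℝ) : FS (fun y => f y * g y) := by
  apply Set.Finite.subset hf
  intro y hy h
  apply hy
  simp [h]

omit [MulAction G X] in
lemma FS.sub {f g : X → ℝ} (hf : FS f) (hg : FS g) : FS (fun y => f y - g y) := by
  apply Set.Finite.subset (Set.Finite.union hf hg)
  intro y hy
  by_contra h
  simp only [Set.mem_union, Function.mem_support, not_or, not_not] at h
  apply hy
  simp [h.1, h.2]

lemma FS.comp {f : X → ℝ} (hf : FS f) (g : G) : FS (fun y => f (g • y)) := by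
  have : (Function.support fun y => f (g • y)) = (fun y : X => g • y) ⁻¹' f.support := rfl
  unfold FS
  rw [this]
  exact Set.Finite.preimage (MulAction.injective g).injOn hf

lemma FS.pav {f : X → ℝ} (hf : FS f) (σ : ι → G) : FS (pav σ f) := by
  refine Set.Finite.subset (Set.finite_iUnion (fun j => FS.comp hf (σ j))) ?_
  intro y hy
  simp only [Set.mem_iUnion]
  by_contra h
  push Not at h
  apply hy
  unfold Pool.Agent.LO86.pav
  rw [Finset.sum_eq_zero, zero_div]
  intro j _
  by_contra h2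
  exact h j h2

lemma FS.iter {f : X → ℝ} (hf : FS f) (σ : ι → G) (t : ℕ) : FS ((Pool.Agent.LO86.pav σ)^[t] f) := by
  induction t with
  | zero => exact hf
  | succ t ih => rw [Function.iterate_succ_apply']; exact ih.pav σ

/-- inner product -/
noncomputable def ip (f g : X → ℝ) : ℝ := ∑' y, f y * g y

omit [MulAction G X] in
lemma ip_comm (f g : X → ℝ) : ip f g = ip g f := by
  unfold ip; congr 1; funext y; ring

omit [MulAction G X] in
lemma ip_sub_left {f g h : X → ℝ} (hf : FS f) (hg : FS g) : ip (fun y => f y - g y) h = ip f h - ip g h := by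
  unfold ip
  rw [← Summable.tsum_sub (hf.mul h).summable (hg.mul h).summable]
  congr 1; funext y; ring

omit [MulAction G X] in
lemma ip_sub_right {f g h : X → ℝ} (hf : FS f) (hg : FS g) : ip h (fun y => f y - g y) = ip h f - ip h g := by
  rw [ip_comm, ip_sub_left hf hg, ip_comm, ip_comm g]

lemma tsum_smul (g : G) (f : X → ℝ) : ∑' y, f (g • y) = ∑' y, f y :=
  (MulAction.toPerm g).tsum_eq f

lemma ip_smul (g : G) (f h : X → ℝ) : ip (fun y => f (g • y)) (fun y => h (g • y)) = ip f h :=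
  tsum_smul g (fun y => f y * h y)

lemma card_mul_ip_pav {σ : ι → G} (hι : (Fintype.card ι : ℝ) ≠ 0) {f : X → ℝ} (hf : FS f) (g : X → ℝ) :
    (Fintype.card ι : ℝ) * ip (pav σ f) g = ∑ j, ip (fun y => f (σ j • y)) g := by
  unfold ip
  rw [← tsum_mul_left, ← Summable.tsum_finsetSum (fun j _ => ((hf.comp (σ j)).mul g).summable)]
  congr 1; funext y
  unfold pav
  rw [← Finset.sum_mul]
  field_simp

lemma ip_pav_comm {σ : ι → G} (hσ : GenData σ) (hι : (Fintype.card ι : ℝ) ≠ 0) {f g : X → ℝ} (hf : FS f)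
    (hg : FS g) : ip (pav σ f) g = ip f (pav σ g) := by
  obtain ⟨τ, hτ⟩ := hσ.sym
  have h1 := card_mul_ip_pav (σ := σ) hι hf g
  have h2 := card_mul_ip_pav (σ := σ) hι hg f
  have h3 : ∑ j, ip (fun y => f (σ j • y)) g = ∑ j, ip (fun y => g (σ j • y)) f := by
    rw [← Equiv.sum_comp τ]
    apply Finset.sum_congr rfl
    intro j _
    rw [hτ j, ← ip_smul (σ j) (fun y => f ((σ j)⁻¹ • y)) g]
    simp only [inv_smul_smul]
    exact ip_comm _ _
  rw [h3, ← h2] at h1
  rw [mul_left_cancel₀ hι h1, ip_comm]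

/-- the energy -/
noncomputable def En (σ : ι → G) (f : X → ℝ) : ℝ := ∑ j, ∑' y, (f (σ j • y) - f y) ^ 2

lemma en_eq {σ : ι → G} (hι : (Fintype.card ι : ℝ) ≠ 0) {f : X → ℝ} (hf : FS f) :
    En σ f = 2 * (Fintype.card ι : ℝ) * (ip f f - ip (pav σ f) f) := by
  have h1 : ∀ j, ∑' y, (f (σ j • y) - f y) ^ 2 = 2 * ip f f - 2 * ip (fun y => f (σ j • y)) f := by
    intro j
    have h2 : ∑' y, (f (σ j • y) - f y) ^ 2 = ip (fun y => f (σ j • y) - f y) (fun y => f (σ j • y) - f y) := by
      unfold ip; congr 1; funext y; ring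
    have h3 := ip_smul (σ j) f f
    rw [h2, ip_sub_left (hf.comp (σ j)) hf, ip_sub_right (hf.comp (σ j)) hf, ip_sub_right (hf.comp (σ j)) hf,
      h3, ip_comm f (fun y => f (σ j • y))]
    ring
  unfold En
  simp only [h1, Finset.sum_sub_distrib, ← Finset.mul_sum, Finset.sum_const, Finset.card_univ, nsmul_eq_mul]
  rw [← card_mul_ip_pav hι hf f]
  ring

lemma plus_nonneg {σ : ι → G} (hι : (0 : ℝ) < (Fintype.card ι : ℝ)) {f : X → ℝ} (hf : FS f) :
    0 ≤ ip f f + ip (pav σ f) f := by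
  have h1 : ∀ j, 0 ≤ 2 * ip f f + 2 * ip (fun y => f (σ j • y)) f := by
    intro j
    have h3 := ip_smul (σ j) f f
    have h4 : 2 * ip f f + 2 * ip (fun y => f (σ j • y)) f = ∑' y, (f (σ j • y) + f y) ^ 2 := by
      have h5 : ∑' y, (f (σ j • y) + f y) ^ 2 =
          ∑' y, (f (σ j • y) * f (σ j • y) + (2 * (f (σ j • y) * f y) + f y * f y)) := by
        congr 1; funext y; ring
      rw [h5, Summable.tsum_add, Summable.tsum_add, tsum_mul_left]
      · have h6 : ∑' y, f (σ j • y) * f (σ j • y) = ip f f := h3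
        rw [h6]
        unfold ip
        ring
      · exact ((hf.comp (σ j)).mul f).summable.mul_left 2
      · exact (hf.mul f).summable
      · exact ((hf.comp (σ j)).mul _).summable
      · exact (((hf.comp (σ j)).mul f).summable.mul_left 2).add (hf.mul f).summable
    rw [h4]
    exact tsum_nonneg fun y => sq_nonneg _
  have h2 := Finset.sum_nonneg (fun j (_ : j ∈ (Finset.univ : Finset ι)) => h1 j)
  rw [Finset.sum_add_distrib, ← Finset.mul_sum, ← Finset.mul_sum, ← card_mul_ip_pav hι.ne' hf f, Finset.sum_const,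
    Finset.card_univ, nsmul_eq_mul] at h2
  nlinarith

lemma en_pav_le {σ : ι → G} (hσ : GenData σ) (hι : (0 : ℝ) < (Fintype.card ι : ℝ)) {f : X → ℝ} (hf : FS f) :
    En σ (pav σ f) ≤ En σ f := by
  rw [en_eq hι.ne' hf, en_eq hι.ne' (hf.pav σ)]
  have h1 := plus_nonneg (σ := σ) hι (hf.sub (hf.pav σ))
  have h2 : pav σ (fun y => f y - pav σ f y) = fun y => pav σ f y - pav σ (pav σ f) y := by
    funext y
    unfold pav
    rw [Finset.sum_sub_distrib, sub_div]
  rw [h2, ip_sub_left hf (hf.pav σ), ip_sub_left (hf.pav σ) ((hf.pav σ).pav σ), ip_sub_right hf (hf.pav σ),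
    ip_sub_right hf (hf.pav σ), ip_sub_right hf (hf.pav σ),
    ip_comm f (pav σ f)] at h1
  have h3 := ip_pav_comm hσ hι.ne' (hf.pav σ) hf
  rw [h3] at h1
  apply mul_le_mul_of_nonneg_left _ (by positivity)
  linarith

lemma en_iter_le {σ : ι → G} (hσ : GenData σ) (hι : (0 : ℝ) < (Fintype.card ι : ℝ)) {f : X → ℝ} (hf : FS f)
    (t : ℕ) : En σ ((pav σ)^[t] f) ≤ En σ f := by
  induction t with
  | zero => exact le_rfl
  | succ t ih =>
    rw [Function.iterate_succ_apply']
    exact (en_pav_le hσ hι (hf.iter σ t)).trans ih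

lemma en_le {σ : ι → G} {φ : X → ℝ} (hL : ∀ y j, |φ (σ j • y) - φ y| ≤ 1) {S : Finset X}
    (hS : ∀ y j, φ (σ j • y) ≠ φ y → y ∈ S) : En σ φ ≤ (Fintype.card ι : ℝ) * (S.card : ℝ) := by
  have h1 : ∀ j, ∑' y, (φ (σ j • y) - φ y) ^ 2 ≤ (S.card : ℝ) := by
    intro j
    rw [tsum_eq_sum (s := S)]
    · calc ∑ y ∈ S, (φ (σ j • y) - φ y) ^ 2 ≤ ∑ y ∈ S, (1 : ℝ) := by
            apply Finset.sum_le_sum
            intro y _
            rw [sq_le_one_iff_abs_le_one]
            exact hL y j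
        _ = (S.card : ℝ) := by simp
    · intro y hy
      have : φ (σ j • y) = φ y := by
        by_contra h
        exact hy (hS y j h)
      rw [this, sub_self]; norm_num
  calc En σ φ ≤ ∑ j : ι, (S.card : ℝ) := Finset.sum_le_sum fun j _ => h1 j
    _ = _ := by simp

lemma sum_le_en {σ : ι → G} {f : X → ℝ} (hf : FS f) (j : ι) (A : Finset X) :
    ∑ y ∈ A, (f (σ j • y) - f y) ^ 2 ≤ En σ f := by
  have hs : Summable fun y => (f (σ j • y) - f y) ^ 2 := by
    have := (((hf.comp (σ j)).sub hf).mul (fun y => f (σ j • y) - f y)).summable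
    refine this.congr fun y => ?_
    ring
  refine (hs.sum_le_tsum A (fun y _ => sq_nonneg _)).trans ?_
  exact Finset.single_le_sum (f := fun j => ∑' y, (f (σ j • y) - f y) ^ 2)
    (fun i _ => tsum_nonneg fun y => sq_nonneg _) (Finset.mem_univ j)

end QE

/-- Energy does not increase under averaging. For finitely supported `f` put
`E f = ∑ j, ∑ y, (f (σ j • y) - f y)^2 = 2 card ι ⟨f - P f, f⟩` (`P = pav σ` is symmetric because
of `τ`). With `g = f - P f`: `E f - E (P f) = 2 card ι ⟨(1 + P) g, g⟩ ≥ 0` as `|⟨P g, g⟩| ≤ ⟨g, g⟩`.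
So `E (P^t φ) ≤ E φ ≤ card ι * S.card`, and the time average has at most this energy by
Cauchy-Schwarz; one `j` and a finite set `A` give a part of the energy. -/
theorem energy_tavX {σ : ι → G} (hσ : GenData σ) {φ : X → ℝ} (hφ : φ.support.Finite)
    (hL : ∀ y j, |φ (σ j • y) - φ y| ≤ 1) {S : Finset X}
    (hS : ∀ y j, φ (σ j • y) ≠ φ y → y ∈ S) {n : ℕ} (hn : 1 ≤ n) (j : ι) (A : Finset X) :
    ∑ y ∈ A, (tavX σ n φ (σ j • y) - tavX σ n φ y) ^ 2 ≤
      (Fintype.card ι : ℝ) * (S.card : ℝ) := by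
  have hι : (0 : ℝ) < (Fintype.card ι : ℝ) := by
    have : Nonempty ι := ⟨j⟩
    exact_mod_cast Fintype.card_pos
  have hn' : (0 : ℝ) < n := by exact_mod_cast hn
  have hE := QE.en_le (σ := σ) hL hS
  have h1 : ∀ y, (tavX σ n φ (σ j • y) - tavX σ n φ y) ^ 2 ≤
      (∑ t ∈ Finset.range n, ((pav σ)^[t] φ (σ j • y) - (pav σ)^[t] φ y) ^ 2) / (n : ℝ) := by
    intro y
    unfold tavX
    rw [← sub_div, ← Finset.sum_sub_distrib, div_pow, sq (n : ℝ), ← div_div]
    apply div_le_div_of_nonneg_right _ hn'.le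
    rw [div_le_iff₀ hn', mul_comm]
    have := sq_sum_le_card_mul_sum_sq (s := Finset.range n)
      (f := fun t => (pav σ)^[t] φ (σ j • y) - (pav σ)^[t] φ y)
    rwa [Finset.card_range] at this
  calc ∑ y ∈ A, (tavX σ n φ (σ j • y) - tavX σ n φ y) ^ 2
      ≤ ∑ y ∈ A, (∑ t ∈ Finset.range n, ((pav σ)^[t] φ (σ j • y) - (pav σ)^[t] φ y) ^ 2) / (n : ℝ) :=
        Finset.sum_le_sum fun y _ => h1 y
    _ = (∑ t ∈ Finset.range n, ∑ y ∈ A, ((pav σ)^[t] φ (σ j • y) - (pav σ)^[t] φ y) ^ 2) / (n : ℝ) := by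
        rw [← Finset.sum_div, Finset.sum_comm]
    _ ≤ (∑ t ∈ Finset.range n, (Fintype.card ι : ℝ) * (S.card : ℝ)) / (n : ℝ) := by
        apply div_le_div_of_nonneg_right _ hn'.le
        apply Finset.sum_le_sum
        intro t _
        exact ((QE.sum_le_en (QE.FS.iter hφ σ t) j A).trans (QE.en_iter_le hσ hι hφ t)).trans hE
    _ = (Fintype.card ι : ℝ) * (S.card : ℝ) := by
        rw [Finset.sum_const, Finset.card_range, nsmul_eq_mul]
        field_simp

end Pool.Agent.LO86
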