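import Pool.Agent.LO86.Defs
import Pool.Agent.LO86.Eval

set_option autoImplicit false
set_option linter.unusedSectionVars false
set_option linter.unusedVariables false

namespace Pool.Agent.LO86

open Pool.Agent.LHF Filter Topology

variable {G : Type*} [Group G] {ι : Type} [Fintype ι]

private lemma isLHF_zero (σ : ι → G) : IsLHF σ (fun _ => 0) := by
  refine ⟨?_, 0, fun x j => by simp⟩
  funext x
  simp [avg]

private lemma isLHF_add {σ : ι → G} {f g : G → ℝ} (hf : IsLHF σ f) (hg : IsLHF σ g) :
    IsLHF σ (fun x => f x + g x) := by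
  obtain ⟨h1, K, hK⟩ := hf
  obtain ⟨h2, K', hK'⟩ := hg
  refine ⟨?_, K + K', fun x j => ?_⟩
  · funext x
    rw [avg_add, h1, h2]
  · have e : f (x * σ j) + g (x * σ j) - (f x + g x) =
        (f (x * σ j) - f x) + (g (x * σ j) - g x) := by ring
    rw [e]
    exact (abs_add_le _ _).trans (add_le_add (hK x j) (hK' x j))

private lemma isLHF_smul {σ : ι → G} {f : G → ℝ} (hf : IsLHF σ f) (c : ℝ) :
    IsLHF σ (fun x => c * f x) := by
  obtain ⟨h1, K, hK⟩ := hf
  refine ⟨?_, |c| * K, fun x j => ?_⟩
  · funext x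
    rw [avg_smul, h1]
  · rw [← mul_sub, abs_mul]
    exact mul_le_mul_of_nonneg_left (hK x j) (abs_nonneg c)

/-- Evaluation lemma for Lipschitz harmonic functions: apply `exists_eval` to the submodule of
all Lipschitz harmonic functions, which is contained in the finite-dimensional `V` of `FinHF`. -/
theorem exists_eval_lhf {σ : ι → G} (hFin : FinHF σ) :
    ∃ (P : Finset G) (e : G → G → ℝ), (∀ p ∈ P, IsLHF σ (e p)) ∧
      ∀ f : G → ℝ, IsLHF σ f → ∀ g, f g = ∑ p ∈ P, f p * e p g := by
  obtain ⟨V, hV, hFV⟩ := hFin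
  have := hV
  let E : Submodule ℝ (G → ℝ) :=
    { carrier := {f | IsLHF σ f}
      add_mem' := fun {f g} hf hg => isLHF_add hf hg
      zero_mem' := isLHF_zero σ
      smul_mem' := fun c f hf => isLHF_smul hf c }
  have hle : E ≤ V := fun f hf => hFV f hf.1 hf.2
  have : FiniteDimensional ℝ E := Submodule.finiteDimensional_of_le hle
  obtain ⟨P, e, heE, hev, -, -⟩ := exists_eval E
  exact ⟨P, e, heE, fun f hf g => hev f hf g⟩

/-- linear combinations of Lipschitz harmonic functions -/
theorem isLHF_sum {σ : ι → G} {P : Finset G} {e : G → G → ℝ} (h : ∀ p ∈ P, IsLHF σ (e p))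
    (c : G → ℝ) : IsLHF σ (fun g => ∑ p ∈ P, c p * e p g) := by
  classical
  induction P using Finset.induction_on with
  | empty => simpa using isLHF_zero σ
  | insert a s ha ih =>
    have h1 := isLHF_smul (h a (Finset.mem_insert_self a s)) (c a)
    have h2 := ih fun p hp => h p (Finset.mem_insert_of_mem hp)
    have h3 := isLHF_add h1 h2
    have e3 : (fun g => ∑ p ∈ insert a s, c p * e p g) =
        fun g => c a * e a g + ∑ p ∈ s, c p * e p g := by
      funext g
      rw [Finset.sum_insert ha]
    rw [e3]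
    exact h3

end Pool.Agent.LO86
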