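import Pool.Agent.LO86.QWord
import Pool.Agent.LO86.Drift

set_option autoImplicit false
set_option linter.unusedSectionVars false
set_option linter.unusedVariables false

namespace Pool.Agent.LO86

open Pool.Agent.LHF Filter Topology

variable {G : Type*} [Group G] {ι : Type} [Fintype ι] {X : Type*} [MulAction G X]

lemma abs_bav_le (B : Finset X) (f : X → ℝ) : |bav B f| ≤ bav B (fun y => |f y|) := by
  unfold bav
  have hc : |(B.card : ℝ)| = (B.card : ℝ) := abs_of_nonneg (Nat.cast_nonneg _)
  rw [abs_div, hc]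
  exact div_le_div_of_nonneg_right (Finset.abs_sum_le_sum_abs _ _) (Nat.cast_nonneg _)

lemma bav_mono' (B : Finset X) {f g : X → ℝ} (h : ∀ y, f y ≤ g y) : bav B f ≤ bav B g := by
  unfold bav
  exact div_le_div_of_nonneg_right (Finset.sum_le_sum fun y _ => h y) (Nat.cast_nonneg _)

lemma abs_bav_mul_le (B : Finset X) {ψ f : X → ℝ} (hψ : ∀ y, |ψ y| ≤ 1) :
    |bav B (fun y => ψ y * f y)| ≤ bav B (fun y => |f y|) := by
  refine (abs_bav_le B _).trans (bav_mono' B fun y => ?_)
  rw [abs_mul]
  have := mul_le_mul_of_nonneg_right (hψ y) (abs_nonneg (f y))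
  linarith

lemma bav_const_le (B : Finset X) {f : X → ℝ} {c : ℝ} (hc : 0 ≤ c) (h : ∀ y, f y ≤ c) :
    bav B f ≤ c := by
  unfold bav
  rcases (Nat.cast_nonneg (α := ℝ) B.card).eq_or_lt with h0 | h0
  · rw [← h0, div_zero]; exact hc
  · rw [div_le_iff₀ h0]
    calc ∑ y ∈ B, f y ≤ ∑ _y ∈ B, c := Finset.sum_le_sum fun y _ => h y
      _ = c * (B.card : ℝ) := by rw [Finset.sum_const, nsmul_eq_mul]; ring

lemma bav_sub' (B : Finset X) (f g : X → ℝ) :
    bav B (fun y => f y - g y) = bav B f - bav B g := by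
  unfold bav
  rw [Finset.sum_sub_distrib, sub_div]

/-- averaging over the right multiplications is the operator `pav` -/
lemma avg_bav {σ : ι → G} (hσ : GenData σ) (B : Finset X) (ψ w : X → ℝ) (g : G) :
    avg σ (fun g' : G => bav B (fun y => ψ y * w (g'⁻¹ • y))) g
      = bav B (fun y => ψ y * pav σ w (g⁻¹ • y)) := by
  obtain ⟨τ, hτ⟩ := hσ.sym
  have h1 : ∀ z : X, ∑ j, w ((σ j)⁻¹ • z) = ∑ j, w (σ j • z) := by
    intro z
    rw [← Equiv.sum_comp τ (fun j => w (σ j • z))]
    exact Finset.sum_congr rfl fun j _ => by rw [hτ]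
  rw [avg_def]
  unfold bav pav
  simp only [mul_inv_rev, mul_smul]
  rw [← Finset.sum_div, Finset.sum_comm, div_right_comm]
  congr 1
  rw [Finset.sum_div]
  refine Finset.sum_congr rfl fun y _ => ?_
  rw [← Finset.mul_sum, h1, mul_div_assoc]

/-- The averaged functions are Lipschitz harmonic. `Fpsi (g * σ j) - Fpsi g` is bounded by
`bav_step_le`; `F - avg F = ul (bav (ψ * (u - pav u) (g⁻¹ y)))` (reindex by `τ`) is bounded by 2
and harmonic (`lap2`, `ul_eq_zero`), hence constant (`liouville`), hence zero (`no_drift`). -/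
theorem isLHF_Fpsi {σ : ι → G} (hσ : GenData σ) (hFin : FinHF σ) {C : ℝ} {B : ℕ → Finset X}
    {u : ℕ → X → ℝ} (h : Apx σ C B u) {ψ : ℕ → X → ℝ} (hψ : ∀ n y, |ψ n y| ≤ 1) :
    IsLHF σ (Fpsi (G := G) B u ψ) := by
  obtain ⟨i0, hi0⟩ := hσ.lazy
  haveI : Nonempty ι := ⟨i0⟩
  have hw : ∀ x : G, ∃ l : List ι, wprod σ l = x := fun x => hσ.gen x
  choose l hl using hw
  set A : ℕ → G → ℝ := fun n g => bav (B n) (fun y => ψ n y * (u n (g⁻¹ • y) - u n y)) with hA
  have hAb : ∀ n g, |A n g| ≤ (l g).length * Real.sqrt C := by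
    intro n g
    have h1 := bav_word_le hσ h (l g) n
    rw [hl g] at h1
    exact (abs_bav_mul_le (B n) (hψ n)).trans h1
  have hFA : ∀ g, Fpsi (G := G) B u ψ g = ul (fun n => A n g) := fun g => rfl
  -- Lipschitz
  have hlip : ∀ g j, |Fpsi (G := G) B u ψ (g * σ j) - Fpsi (G := G) B u ψ g| ≤ Real.sqrt C := by
    intro g j
    rw [hFA, hFA, ← ul_sub (fun n => hAb n (g * σ j)) (fun n => hAb n g)]
    refine abs_ul_le fun n => ?_
    have e : A n (g * σ j) - A n g
        = bav (B n) (fun y => ψ n y * (u n ((g * σ j)⁻¹ • y) - u n (g⁻¹ • y))) := by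
      rw [hA]
      simp only
      rw [← bav_sub']
      congr 1
      funext y
      ring
    rw [e]
    exact (abs_bav_mul_le (B n) (hψ n)).trans (bav_step_le hσ h g j n)
  -- the defect
  set w : ℕ → X → ℝ := fun n y => u n y - pav σ (u n) y with hwdef
  set D : ℕ → G → ℝ := fun n g => bav (B n) (fun y => ψ n y * w n (g⁻¹ • y)) with hD
  have havgA : ∀ n g, avg σ (A n) g
      = bav (B n) (fun y => ψ n y * pav σ (u n) (g⁻¹ • y)) - bav (B n) (fun y => ψ n y * u n y) := by
    intro n g
    have e1 : A n = fun g' => bav (B n) (fun y => ψ n y * u n (g'⁻¹ • y))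
        - bav (B n) (fun y => ψ n y * u n y) := by
      funext g'
      rw [hA]
      simp only
      rw [← bav_sub']
      congr 1
      funext y
      ring
    rw [e1, avg_sub, avg_const, avg_bav hσ]
  have hAD : ∀ n g, A n g - avg σ (A n) g = D n g := by
    intro n g
    rw [havgA]
    have e1 : A n g = bav (B n) (fun y => ψ n y * u n (g⁻¹ • y))
        - bav (B n) (fun y => ψ n y * u n y) := by
      rw [hA]
      simp only
      rw [← bav_sub']
      congr 1
      funext y
      ring
    rw [e1, hD]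
    simp only
    rw [sub_sub_sub_cancel_right, ← bav_sub']
    congr 1
    funext y
    rw [hwdef]
    ring
  have hDb : ∀ n g, |D n g| ≤ 2 := by
    intro n g
    exact (abs_bav_mul_le (B n) (hψ n)).trans
      (bav_const_le (B n) (by norm_num) fun y => h.lap n (g⁻¹ • y))
  set H : G → ℝ := fun g => ul (fun n => D n g) with hH
  have hdef : ∀ g, Fpsi (G := G) B u ψ g - avg σ (Fpsi (G := G) B u ψ) g = H g := by
    intro g
    have e1 : avg σ (Fpsi (G := G) B u ψ) g = ul (fun n => avg σ (A n) g) :=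
      avg_ul σ (Ψ := A) (B := fun g => (l g).length * Real.sqrt C) hAb g
    have hab : ∀ n, |avg σ (A n) g| ≤ (l g).length * Real.sqrt C + 2 := by
      intro n
      have h1 := hAD n g
      have h2 := hAb n g
      have h3 := hDb n g
      rw [abs_le] at h2 h3 ⊢
      constructor <;> linarith
    rw [e1, hFA, ← ul_sub (fun n => hAb n g) hab]
    congr 1
    funext n
    exact hAD n g
  have hHh : avg σ H = H := by
    funext g
    have e1 : avg σ H g = ul (fun n => avg σ (D n) g) :=
      avg_ul σ (Ψ := D) (B := fun _ => 2) hDb g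
    have hab2 : ∀ n, |avg σ (D n) g| ≤ 2 := by
      intro n
      rw [abs_le]
      constructor
      · exact le_avg σ fun j => (abs_le.mp (hDb n (g * σ j))).1
      · exact avg_le σ fun j => (abs_le.mp (hDb n (g * σ j))).2
    have e2 := ul_sub (fun n => hDb n g) hab2
    have e3 : ul (fun n => D n g - avg σ (D n) g) = 0 := by
      refine ul_eq_zero (c := 4) fun n => ?_
      have e4 : avg σ (D n) g = bav (B n) (fun y => ψ n y * pav σ (w n) (g⁻¹ • y)) :=
        avg_bav hσ (B n) (ψ n) (w n) g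
      rw [e4]
      have e5 : D n g - bav (B n) (fun y => ψ n y * pav σ (w n) (g⁻¹ • y))
          = bav (B n) (fun y => ψ n y * (w n (g⁻¹ • y) - pav σ (w n) (g⁻¹ • y))) := by
        rw [hD]
        simp only
        rw [← bav_sub']
        congr 1
        funext y
        ring
      rw [e5]
      exact (abs_bav_mul_le (B n) (hψ n)).trans
        (bav_const_le (B n) (by positivity) fun y => h.lap2 n (g⁻¹ • y))
    rw [e3] at e2
    rw [e1]
    show _ = ul (fun n => D n g)
    linarith
  have hHb : ∀ g, |H g| ≤ 2 := fun g => abs_ul_le fun n => hDb n g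
  have hconst : ∀ g, H g = H 1 := fun g => liouville hσ hFin hHh hHb g
  have hc : H 1 = 0 := no_drift hσ hFin hlip (c := H 1) (fun g => by rw [hdef g, hconst g])
  refine ⟨?_, Real.sqrt C, hlip⟩
  funext g
  have a1 := hdef g
  rw [hconst g, hc] at a1
  linarith

end Pool.Agent.LO86
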