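import Pool.Agent.LO86.Defs
import Pool.Agent.LHF.Super

set_option autoImplicit false
set_option linter.unusedSectionVars false
set_option linter.unusedVariables false

namespace Pool.Agent.LO86

open Pool.Agent.LHF

variable {G : Type*} [Group G] {ι : Type} [Fintype ι]

/-- time averages -/
noncomputable def tav (σ : ι → G) (n : ℕ) (φ : G → ℝ) (x : G) : ℝ :=
  (∑ t ∈ Finset.range n, it σ t φ x) / (n : ℝ)

lemma tav_sub_le [Nonempty ι] {σ : ι → G} {φ : G → ℝ} (hφ : ∀ x j, |φ (x * σ j) - φ x| ≤ 1)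
    {n : ℕ} (hn : 1 ≤ n) (x : G) : |tav σ n φ x - φ x| ≤ n := by
  have hn0 : (0 : ℝ) < n := by exact_mod_cast hn
  have h1 : tav σ n φ x - φ x = (∑ t ∈ Finset.range n, (it σ t φ x - φ x)) / (n : ℝ) := by
    rw [tav, Finset.sum_sub_distrib, Finset.sum_const, Finset.card_range, nsmul_eq_mul]
    field_simp
  rw [h1, abs_div, abs_of_pos hn0, div_le_iff₀ hn0]
  refine (Finset.abs_sum_le_sum_abs _ _).trans ?_
  have h2 : ∀ t ∈ Finset.range n, |it σ t φ x - φ x| ≤ (n : ℝ) := by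
    intro t ht
    have h3 := abs_it_sub_le hφ t x
    have h4 : (t : ℝ) ≤ n := by exact_mod_cast (Finset.mem_range.1 ht).le
    linarith
  refine (Finset.sum_le_sum h2).trans ?_
  rw [Finset.sum_const, Finset.card_range, nsmul_eq_mul]

lemma avg_tav (σ : ι → G) (n : ℕ) (φ : G → ℝ) (x : G) :
    tav σ n φ x - avg σ (tav σ n φ) x = (φ x - it σ n φ x) / (n : ℝ) := by
  have h1 : avg σ (tav σ n φ) x = (∑ t ∈ Finset.range n, it σ (t + 1) φ x) / (n : ℝ) := by
    have h2 : tav σ n φ = fun y => (n : ℝ)⁻¹ * ∑ t ∈ Finset.range n, it σ t φ y := by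
      funext y
      rw [tav, div_eq_inv_mul]
    rw [h2, avg_smul, avg_sum, div_eq_inv_mul]
    congr 1
    apply Finset.sum_congr rfl
    intro t _
    rw [it_succ']
  rw [h1, tav, ← sub_div, ← Finset.sum_sub_distrib, Finset.sum_range_sub' (fun t => it σ t φ x) n]
  rfl

lemma tav_inv {σ : ι → G} {φ : G → ℝ} (n : ℕ) {k : G} (hk : ∀ x, φ (k * x) = φ x) (x : G) :
    tav σ n φ (k * x) = tav σ n φ x := by
  rw [tav, tav]
  congr 1
  apply Finset.sum_congr rfl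
  intro t _
  rw [← it_translate]
  congr 1
  exact funext hk

/-- one scale: time averages of a `1`-Lipschitz function that increases linearly along a word -/
theorem scale {σ : ι → G} (hσ : GenData σ) {φ : G → ℝ}
    (hφ : ∀ x j, |φ (x * σ j) - φ x| ≤ 1) {n : ℕ} (hn : 1 ≤ n) (l : List ι)
    (hl : 4 * n ≤ l.length) (h : (l.length : ℝ) ≤ φ (wprod σ l) - φ 1) :
    ∃ (g0 : G) (Ψ : G → ℝ), (∀ x j, |Ψ (x * σ j) - Ψ x| ≤ 1) ∧
      (∀ x, |Ψ x - avg σ Ψ x| ≤ 2) ∧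
      (∀ x, |(Ψ x - avg σ Ψ x) - avg σ (fun y => Ψ y - avg σ Ψ y) x| ≤ 4 / (n : ℝ)) ∧
      (∃ j, 1 / 4 ≤ |Ψ (σ j) - Ψ 1|) ∧
      (∀ k : G, (∀ x, φ (k * x) = φ x) → ∀ x, Ψ (g0⁻¹ * k * g0 * x) = Ψ x) := by
  obtain ⟨i0, hi0⟩ := hσ.lazy
  have : Nonempty ι := ⟨i0⟩
  have hn0 : (0 : ℝ) < n := by exact_mod_cast hn
  set A : G → ℝ := tav σ n φ with hA
  set S : G × ι → ℝ := fun p => |A (p.1 * σ p.2) - A p.1| with hS
  have hbdd : BddAbove (Set.range S) := by
    refine ⟨1 + 2 * n, ?_⟩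
    rintro _ ⟨p, rfl⟩
    have h1 := tav_sub_le hφ hn (p.1 * σ p.2)
    have h2 := tav_sub_le hφ hn p.1
    have h3 := hφ p.1 p.2
    change |A (p.1 * σ p.2) - A p.1| ≤ _
    rw [abs_le] at *
    constructor <;> linarith [h1.1, h1.2, h2.1, h2.2, h3.1, h3.2]
  set v : ℝ := ⨆ p, S p with hv
  have hle : ∀ x j, |A (x * σ j) - A x| ≤ v := fun x j => le_ciSup hbdd (x, j)
  have hL4 : (4 : ℝ) * n ≤ l.length := by exact_mod_cast hl
  have hLpos : (0 : ℝ) < l.length := by linarith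
  have hv2 : 1 / 2 ≤ v := by
    have h1 := h_word σ hle l 1
    rw [one_mul] at h1
    have h2 := tav_sub_le hφ hn (wprod σ l)
    have h3 := tav_sub_le hφ hn (1 : G)
    have h4 : (l.length : ℝ) * (1 / 2) ≤ l.length * v := by
      have h5 := (abs_le.1 h1).2
      have h6 := (abs_le.1 h2).1
      have h7 := (abs_le.1 h3).2
      linarith
    exact le_of_mul_le_mul_left h4 hLpos
  have hvpos : 0 < v := by linarith
  obtain ⟨⟨g0, j⟩, hg0⟩ := exists_lt_of_lt_ciSup (f := S) (show v / 2 < ⨆ p, S p by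
    rw [← hv]; linarith)
  have hinv : v⁻¹ ≤ 2 := by
    rw [inv_le_comm₀ hvpos (by norm_num)]
    linarith
  have hinv0 : 0 < v⁻¹ := inv_pos.2 hvpos
  set Ψ : G → ℝ := fun x => v⁻¹ * A (g0 * x) with hΨ
  have hstep : ∀ x i, Ψ (x * σ i) - Ψ x = v⁻¹ * (A (g0 * x * σ i) - A (g0 * x)) := by
    intro x i
    simp only [hΨ]
    rw [← mul_assoc g0 x (σ i)]
    ring
  have havg : ∀ x, Ψ x - avg σ Ψ x = v⁻¹ * ((φ (g0 * x) - it σ n φ (g0 * x)) / n) := by
    intro x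
    have h1 : avg σ Ψ x = v⁻¹ * avg σ A (g0 * x) := by
      rw [hΨ, avg_smul, avg_translate]
    rw [h1, ← avg_tav σ n φ (g0 * x)]
    simp only [hΨ]
    ring
  have hu : ∀ x, |φ x - avg σ φ x| ≤ 1 := by
    intro x
    rw [abs_sub_comm]
    exact abs_avg_sub_le σ fun i => hφ x i
  have hitu : ∀ x, |it σ n (fun y => φ y - avg σ φ y) x| ≤ 1 := by
    intro x
    refine (abs_it_le σ n _ x).trans ?_
    have h1 := it_mono σ n (f := fun y => |φ y - avg σ φ y|) (g := fun _ => 1) hu x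
    rwa [it_const] at h1
  refine ⟨g0, Ψ, ?_, ?_, ?_, ⟨j, ?_⟩, ?_⟩
  · intro x i
    rw [hstep, abs_mul, abs_of_pos hinv0]
    have h1 := hle (g0 * x) i
    calc v⁻¹ * |A (g0 * x * σ i) - A (g0 * x)| ≤ v⁻¹ * v := by gcongr
      _ = 1 := inv_mul_cancel₀ hvpos.ne'
  · intro x
    rw [havg, abs_mul, abs_of_pos hinv0, abs_div, abs_of_pos hn0]
    have h1 := abs_it_sub_le hφ n (g0 * x)
    rw [abs_sub_comm, mul_one] at h1
    have h2 : |φ (g0 * x) - it σ n φ (g0 * x)| / n ≤ 1 := by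
      rw [div_le_one hn0]
      exact h1
    calc v⁻¹ * (|φ (g0 * x) - it σ n φ (g0 * x)| / n) ≤ v⁻¹ * 1 := by gcongr
      _ ≤ 2 := by linarith
  · intro x
    have h1 : (fun y => Ψ y - avg σ Ψ y) =
        fun y => (v⁻¹ / n) * ((fun z => φ z - it σ n φ z) (g0 * y)) := by
      funext y
      rw [havg]
      ring
    have h2 : avg σ (fun y => Ψ y - avg σ Ψ y) x =
        (v⁻¹ / n) * (avg σ φ (g0 * x) - it σ n (avg σ φ) (g0 * x)) := by
      rw [h1, avg_smul, avg_translate σ g0 (fun z => φ z - it σ n φ z) x, avg_sub,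
        ← it_succ', it_succ]
    have h3 : it σ n (fun y => φ y - avg σ φ y) (g0 * x) =
        it σ n φ (g0 * x) - it σ n (avg σ φ) (g0 * x) := it_sub σ n φ (avg σ φ) (g0 * x)
    have h4 : (Ψ x - avg σ Ψ x) - avg σ (fun y => Ψ y - avg σ Ψ y) x =
        (v⁻¹ / n) * ((φ (g0 * x) - avg σ φ (g0 * x)) -
          it σ n (fun y => φ y - avg σ φ y) (g0 * x)) := by
      rw [h2, h3, havg]
      ring
    rw [h4, abs_mul, abs_of_pos (div_pos hinv0 hn0)]
    have h5 := hu (g0 * x)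
    have h6 := hitu (g0 * x)
    have h7 : |(φ (g0 * x) - avg σ φ (g0 * x)) -
          it σ n (fun y => φ y - avg σ φ y) (g0 * x)| ≤ 2 := by
      rw [abs_le] at *
      constructor <;> linarith [h5.1, h5.2, h6.1, h6.2]
    calc v⁻¹ / n * |(φ (g0 * x) - avg σ φ (g0 * x)) -
          it σ n (fun y => φ y - avg σ φ y) (g0 * x)| ≤ 2 / n * 2 := by gcongr
      _ = 4 / n := by ring
  · have h1 : Ψ (σ j) - Ψ 1 = v⁻¹ * (A (g0 * σ j) - A g0) := by
      have h2 := hstep 1 j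
      rwa [one_mul, mul_one] at h2
    rw [h1, abs_mul, abs_of_pos hinv0]
    have h3 : v / 2 < |A (g0 * σ j) - A g0| := hg0
    calc (1 : ℝ) / 4 ≤ v⁻¹ * (v / 2) := by
          rw [← mul_div_assoc, inv_mul_cancel₀ hvpos.ne']
          norm_num
      _ ≤ v⁻¹ * |A (g0 * σ j) - A g0| := by gcongr
  · intro k hk x
    simp only [hΨ]
    have h1 : g0 * (g0⁻¹ * k * g0 * x) = k * (g0 * x) := by group
    rw [h1, hA, tav_inv n hk]

end Pool.Agent.LO86
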