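import Pool.Agent.LO86.QDefs
import Pool.Agent.LO86.Scale

set_option autoImplicit false
set_option linter.unusedSectionVars false
set_option linter.unusedVariables false

namespace Pool.Agent.LO86

open Pool.Agent.LHF Filter Topology

variable {G : Type*} [Group G] {ι : Type} [Fintype ι] {X : Type*} [MulAction G X]

/-- Translation to functions on the group: `pav σ f (g⁻¹ • x) = avg σ (fun g => f (g⁻¹ • x)) g`
(reindex by `τ`), and the same for iterates and time averages; then the lemmas `tav_sub_le`,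
`avg_tav` of `Scale` apply. -/
theorem pav_pull {σ : ι → G} (hσ : GenData σ) (f : X → ℝ) (x : X) (g : G) :
    pav σ f (g⁻¹ • x) = avg σ (fun g => f (g⁻¹ • x)) g := by
  obtain ⟨τ, hτ⟩ := hσ.sym
  unfold pav avg
  congr 1
  rw [← Equiv.sum_comp τ]
  refine Finset.sum_congr rfl fun j _ => ?_
  show f (σ (τ j) • g⁻¹ • x) = f ((g * σ j)⁻¹ • x)
  rw [hτ, mul_inv_rev, mul_smul]

lemma pav_it_pull {σ : ι → G} (hσ : GenData σ) (φ : X → ℝ) (x : X) (t : ℕ) (g : G) :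
    (pav σ)^[t] φ (g⁻¹ • x) = it σ t (fun g => φ (g⁻¹ • x)) g := by
  induction t generalizing g with
  | zero => rfl
  | succ t ih =>
    rw [Function.iterate_succ_apply', pav_pull hσ, it_succ']
    congr 1
    exact funext ih

theorem tavX_pull {σ : ι → G} (hσ : GenData σ) (φ : X → ℝ) (n : ℕ) (x : X) (g : G) :
    tavX σ n φ (g⁻¹ • x) = tav σ n (fun g => φ (g⁻¹ • x)) g := by
  unfold tavX tav
  congr 1
  exact Finset.sum_congr rfl fun t _ => pav_it_pull hσ φ x t g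

lemma pull_lip {σ : ι → G} (hσ : GenData σ) {φ : X → ℝ}
    (hL : ∀ y j, |φ (σ j • y) - φ y| ≤ 1) (x : X) :
    ∀ (g : G) (j : ι), |(fun g : G => φ (g⁻¹ • x)) (g * σ j) - (fun g : G => φ (g⁻¹ • x)) g| ≤ 1 := by
  obtain ⟨τ, hτ⟩ := hσ.sym
  intro g j
  have h := hL (g⁻¹ • x) (τ j)
  rw [hτ, ← mul_smul, ← mul_inv_rev] at h
  exact h

theorem abs_tavX_sub_le {σ : ι → G} (hσ : GenData σ) {φ : X → ℝ}
    (hL : ∀ y j, |φ (σ j • y) - φ y| ≤ 1) {n : ℕ} (hn : 1 ≤ n) (y : X) :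
    |tavX σ n φ y - φ y| ≤ n := by
  obtain ⟨i0, hi0⟩ := hσ.lazy
  have : Nonempty ι := ⟨i0⟩
  have h1 := tavX_pull hσ φ n y 1
  rw [inv_one, one_smul] at h1
  have h2 := tav_sub_le (φ := fun g : G => φ (g⁻¹ • y)) (pull_lip hσ hL y) hn (1 : G)
  rw [h1]
  simpa using h2

/-- the Laplacian of the time average, pulled back to the group -/
lemma lap_pull {σ : ι → G} (hσ : GenData σ) (φ : X → ℝ) (n : ℕ) (x : X) (g : G) :
    tavX σ n φ (g⁻¹ • x) - pav σ (tavX σ n φ) (g⁻¹ • x) =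
      (φ (g⁻¹ • x) - it σ n (fun g => φ (g⁻¹ • x)) g) / (n : ℝ) := by
  refine Eq.trans ?_ (avg_tav σ n (fun g : G => φ (g⁻¹ • x)) g)
  rw [pav_pull hσ, tavX_pull hσ]
  congr 2
  exact funext fun g => tavX_pull hσ φ n x g

theorem tavX_lap {σ : ι → G} (hσ : GenData σ) {φ : X → ℝ}
    (hL : ∀ y j, |φ (σ j • y) - φ y| ≤ 1) {n : ℕ} (hn : 1 ≤ n) (y : X) :
    |tavX σ n φ y - pav σ (tavX σ n φ) y| ≤ 1 := by
  obtain ⟨i0, hi0⟩ := hσ.lazy
  have : Nonempty ι := ⟨i0⟩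
  have hn0 : (0 : ℝ) < n := by exact_mod_cast hn
  have h1 := lap_pull hσ φ n y 1
  rw [inv_one, one_smul] at h1
  rw [h1, abs_div, abs_of_pos hn0, div_le_one hn0]
  have h2 := abs_it_sub_le (f := fun g : G => φ (g⁻¹ • y)) (pull_lip hσ hL y) n (1 : G)
  rw [abs_sub_comm, mul_one] at h2
  simpa using h2

theorem tavX_lap2 {σ : ι → G} (hσ : GenData σ) {φ : X → ℝ}
    (hL : ∀ y j, |φ (σ j • y) - φ y| ≤ 1) {n : ℕ} (hn : 1 ≤ n) (y : X) :
    |(tavX σ n φ y - pav σ (tavX σ n φ) y) -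
      pav σ (fun z => tavX σ n φ z - pav σ (tavX σ n φ) z) y| ≤ 2 / (n : ℝ) := by
  obtain ⟨i0, hi0⟩ := hσ.lazy
  have : Nonempty ι := ⟨i0⟩
  have hn0 : (0 : ℝ) < n := by exact_mod_cast hn
  set Φ : G → ℝ := fun g => φ (g⁻¹ • y) with hΦ
  have hΦL : ∀ x j, |Φ (x * σ j) - Φ x| ≤ 1 := pull_lip hσ hL y
  have hH : ∀ g : G, tavX σ n φ (g⁻¹ • y) - pav σ (tavX σ n φ) (g⁻¹ • y) =
      (n : ℝ)⁻¹ * (Φ g - it σ n Φ g) := by
    intro g
    rw [lap_pull hσ φ n y g, div_eq_inv_mul]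
  have h1 : tavX σ n φ y - pav σ (tavX σ n φ) y = (n : ℝ)⁻¹ * (Φ 1 - it σ n Φ 1) := by
    have h := hH 1
    rwa [inv_one, one_smul] at h
  have h2 : pav σ (fun z => tavX σ n φ z - pav σ (tavX σ n φ) z) y =
      (n : ℝ)⁻¹ * (avg σ Φ 1 - it σ n (avg σ Φ) 1) := by
    have h := pav_pull hσ (fun z => tavX σ n φ z - pav σ (tavX σ n φ) z) y 1
    rw [inv_one, one_smul] at h
    rw [h, show (fun g : G => (fun z => tavX σ n φ z - pav σ (tavX σ n φ) z) (g⁻¹ • y)) =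
      fun g => (n : ℝ)⁻¹ * (fun z => Φ z - it σ n Φ z) g from funext hH, avg_smul]
    rw [avg_sub, ← it_succ', it_succ]
  have hu : ∀ x, |Φ x - avg σ Φ x| ≤ 1 := by
    intro x
    rw [abs_sub_comm]
    exact abs_avg_sub_le σ fun i => hΦL x i
  have hitu : |it σ n (fun y => Φ y - avg σ Φ y) 1| ≤ 1 := by
    refine (abs_it_le σ n _ 1).trans ?_
    have h3 := it_mono σ n (f := fun y => |Φ y - avg σ Φ y|) (g := fun _ => 1) hu 1
    rwa [it_const] at h3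
  have h3 : it σ n (fun y => Φ y - avg σ Φ y) 1 = it σ n Φ 1 - it σ n (avg σ Φ) 1 :=
    it_sub σ n Φ (avg σ Φ) 1
  have h4 : (tavX σ n φ y - pav σ (tavX σ n φ) y) -
      pav σ (fun z => tavX σ n φ z - pav σ (tavX σ n φ) z) y =
      (n : ℝ)⁻¹ * ((Φ 1 - avg σ Φ 1) - it σ n (fun y => Φ y - avg σ Φ y) 1) := by
    rw [h1, h2, h3]
    ring
  rw [h4, abs_mul, abs_of_pos (inv_pos.2 hn0), div_eq_inv_mul]
  have h5 := hu 1
  have h6 : |(Φ 1 - avg σ Φ 1) - it σ n (fun y => Φ y - avg σ Φ y) 1| ≤ 2 := by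
    rw [abs_le] at *
    constructor <;> linarith [h5.1, h5.2, hitu.1, hitu.2]
  gcongr

lemma pav_it_eq_zero {σ : ι → G} {φ : X → ℝ} (t : ℕ) {y : X}
    (h : ∀ g ∈ Ball σ t, φ (g • y) = 0) : (pav σ)^[t] φ y = 0 := by
  induction t generalizing y with
  | zero =>
    have h1 := h 1 (one_mem_ball σ 0)
    rwa [one_smul] at h1
  | succ t ih =>
    rw [Function.iterate_succ_apply']
    unfold pav
    rw [Finset.sum_eq_zero, zero_div]
    intro j _
    refine ih fun g hg => ?_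
    rw [← mul_smul]
    exact h _ (mul_mem_ball σ hg (step_mem_ball σ j))

theorem tavX_eq_zero {σ : ι → G} {φ : X → ℝ} {n : ℕ} {y : X}
    (h : ∀ g ∈ Ball σ n, φ (g • y) = 0) : tavX σ n φ y = 0 := by
  unfold tavX
  rw [Finset.sum_eq_zero, zero_div]
  intro t ht
  exact pav_it_eq_zero t fun g hg => h g (ball_mono σ (Finset.mem_range.1 ht).le hg)

end Pool.Agent.LO86
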