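import Pool.Agent.LO86.QDefs

set_option autoImplicit false
set_option linter.unusedSectionVars false
set_option linter.unusedVariables false

namespace Pool.Agent.LO86

open Pool.Agent.LHF Filter Topology

variable {G : Type*} [Group G] {ι : Type} [Fintype ι] {X : Type*} [MulAction G X]

/-- the variation of `u` along a shortest `T`-path from `z` to `w` -/
theorem path_var {T : Finset G} {u : X → ℝ} {z w : X}
    (hl : ∃ l : List G, (∀ s ∈ l, s ∈ T) ∧ l.prod • z = w) :
    ∃ S : Finset X, (∀ y ∈ S, ∃ l : List G, (∀ s ∈ l, s ∈ T) ∧ l.prod • z = y) ∧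
      u z - u w ≤ ∑ y ∈ S, ∑ t ∈ T, |u (t • y) - u y| := by
  classical
  have hex : ∃ n : ℕ, ∃ l : List G, (∀ s ∈ l, s ∈ T) ∧ l.prod • z = w ∧ l.length = n := by
    obtain ⟨l, h1, h2⟩ := hl
    exact ⟨l.length, l, h1, h2, rfl⟩
  obtain ⟨l, h1, h2, h3⟩ := Nat.find_spec hex
  have hmin : ∀ l' : List G, (∀ s ∈ l', s ∈ T) → l'.prod • z = w → l.length ≤ l'.length := by
    intro l' h4 h5
    rw [h3]
    exact Nat.find_min' hex ⟨l', h4, h5, rfl⟩
  set v : ℕ → X := fun i => (l.drop i).prod • z with hv
  have hstep : ∀ i (hi : i < l.length), v i = l[i] • v (i + 1) := by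
    intro i hi
    simp only [hv]
    rw [List.drop_eq_getElem_cons hi, List.prod_cons, mul_smul]
  have hmem : ∀ i (hi : i < l.length), l[i] ∈ T := fun i hi => h1 _ (List.getElem_mem hi)
  have hdrop : ∀ i, ∀ s ∈ l.drop i, s ∈ T := fun i s hs => h1 s (List.mem_of_mem_drop hs)
  have hinj : Set.InjOn (fun i => v (i + 1)) (Finset.range l.length : Set ℕ) := by
    have key : ∀ i j, i < j → j < l.length → v (i + 1) ≠ v (j + 1) := by
      intro i j hij hj heq
      have h6 := hmin (l.take (i + 1) ++ l.drop (j + 1)) (by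
        intro s hs
        rcases List.mem_append.1 hs with h | h
        · exact h1 s (List.mem_of_mem_take h)
        · exact hdrop _ s h) (by
        rw [List.prod_append, mul_smul]
        show (l.take (i + 1)).prod • v (j + 1) = w
        rw [← heq]
        show (l.take (i + 1)).prod • (l.drop (i + 1)).prod • z = w
        rw [← mul_smul, ← List.prod_append, List.take_append_drop, h2])
      rw [List.length_append, List.length_take, List.length_drop] at h6
      omega
    intro i hi j hj heq
    have hi' : i < l.length := by simpa using hi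
    have hj' : j < l.length := by simpa using hj
    rcases lt_trichotomy i j with h | h | h
    · exact absurd heq (key i j h hj')
    · exact h
    · exact absurd heq.symm (key j i h hi')
  refine ⟨(Finset.range l.length).image fun i => v (i + 1), ?_, ?_⟩
  · intro y hy
    obtain ⟨i, _, hi⟩ := Finset.mem_image.1 hy
    exact ⟨l.drop (i + 1), hdrop _, hi⟩
  · rw [Finset.sum_image hinj]
    have h7 : u z - u w = ∑ i ∈ Finset.range l.length, (u (v (i + 1)) - u (v i)) := by
      rw [Finset.sum_range_sub (fun i => u (v i))]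
      have e1 : v l.length = z := by simp [hv]
      have e2 : v 0 = w := by simp [hv, h2]
      rw [e1, e2]
    rw [h7]
    refine Finset.sum_le_sum fun i hi => ?_
    have hi' : i < l.length := by simpa using hi
    have h8 : |u (l[i] • v (i + 1)) - u (v (i + 1))| ≤
        ∑ t ∈ T, |u (t • v (i + 1)) - u (v (i + 1))| :=
      Finset.single_le_sum (f := fun t => |u (t • v (i + 1)) - u (v (i + 1))|)
        (fun t _ => abs_nonneg _) (hmem i hi')
    rw [← hstep i hi'] at h8
    have h9 := neg_abs_le (u (v i) - u (v (i + 1)))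
    linarith

/-- Lower bound for the variation along the orbits of a subgroup `N` generated by `T`: the orbit
of `z i` contains a point where `u` vanishes; along a shortest `T`-path from `z i` to such a point
(distinct vertices) the variation is at least `u (z i) ≥ h`; the orbits of different `z i` are
disjoint. -/
theorem variation_ge {N : Subgroup G} {T : Finset G} (hT : ∀ t ∈ T, t ∈ N)
    (hgen : ∀ m ∈ N, ∃ l : List G, (∀ s ∈ l, s ∈ T) ∧ l.prod = m) {u : X → ℝ} {A : Finset X}
    (hA : ∀ y, ∀ t ∈ T, u (t • y) ≠ u y → y ∈ A) {k : ℕ} {h : ℝ} (z : Fin k → X)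
    (hz : ∀ i j, i ≠ j → z j ∉ subOrb N (z i)) (hinf : ∀ i, ∃ w ∈ subOrb N (z i), u w = 0)
    (hu : ∀ i, h ≤ u (z i)) : (k : ℝ) * h ≤ ∑ y ∈ A, ∑ t ∈ T, |u (t • y) - u y| := by
  classical
  have hpath : ∀ i, ∃ S : Finset X, (∀ y ∈ S, y ∈ subOrb N (z i)) ∧
      h ≤ ∑ y ∈ S, ∑ t ∈ T, |u (t • y) - u y| := by
    intro i
    obtain ⟨w, ⟨m, hm, hmw⟩, hw⟩ := hinf i
    obtain ⟨l, hl, hlm⟩ := hgen m hm
    obtain ⟨S, hS, hSu⟩ := path_var (T := T) (u := u) (z := z i) (w := w)
      ⟨l, hl, by rw [hlm, hmw]⟩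
    refine ⟨S, fun y hy => ?_, ?_⟩
    · obtain ⟨l', hl', hy'⟩ := hS y hy
      exact ⟨l'.prod, Subgroup.list_prod_mem N fun x hx => hT x (hl' x hx), hy'⟩
    · have := hu i
      rw [hw] at hSu
      linarith
  choose S hS hSu using hpath
  set g : X → ℝ := fun y => ∑ t ∈ T, |u (t • y) - u y| with hg
  have hg0 : ∀ y, 0 ≤ g y := fun y => Finset.sum_nonneg fun t _ => abs_nonneg _
  have hgA : ∀ y, y ∉ A → g y = 0 := by
    intro y hy
    refine Finset.sum_eq_zero fun t ht => ?_
    by_contra hne
    apply hy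
    refine hA y t ht fun heq => hne ?_
    rw [heq, sub_self, abs_zero]
  have hdisj : ∀ i ∈ (Finset.univ : Finset (Fin k)), ∀ j ∈ (Finset.univ : Finset (Fin k)), i ≠ j →
      Disjoint (S i) (S j) := by
    intro i _ j _ hij
    rw [Finset.disjoint_left]
    intro y hy1 hy2
    obtain ⟨m1, hm1, h1⟩ := hS i y hy1
    obtain ⟨m2, hm2, h2⟩ := hS j y hy2
    apply hz i j hij
    refine ⟨m2⁻¹ * m1, N.mul_mem (N.inv_mem hm2) hm1, ?_⟩
    rw [mul_smul, h1, ← h2, inv_smul_smul]
  calc (k : ℝ) * h = ∑ _i : Fin k, h := by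
        rw [Finset.sum_const, Finset.card_univ, Fintype.card_fin, nsmul_eq_mul]
    _ ≤ ∑ i : Fin k, ∑ y ∈ S i, g y := Finset.sum_le_sum fun i _ => hSu i
    _ = ∑ y ∈ Finset.univ.biUnion S, g y := (Finset.sum_biUnion hdisj).symm
    _ = ∑ y ∈ (Finset.univ.biUnion S).filter (· ∈ A), g y := by
        refine (Finset.sum_subset (Finset.filter_subset _ _) fun y hy hy' => ?_).symm
        refine hgA y fun hyA => hy' ?_
        rw [Finset.mem_filter]
        exact ⟨hy, hyA⟩
    _ ≤ ∑ y ∈ A, g y := by
        refine Finset.sum_le_sum_of_subset_of_nonneg (fun y hy => ?_) fun y _ _ => hg0 y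
        exact (Finset.mem_filter.1 hy).2

end Pool.Agent.LO86
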