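import Pool.Agent.LO86.QZero
import Pool.Agent.LO86.QEnergy
import Pool.Agent.LO86.QPoint
import Pool.Agent.LO86.QVar
import Pool.Agent.LO86.Index

set_option autoImplicit false
set_option linter.unusedSectionVars false
set_option linter.unusedVariables false

namespace Pool.Agent.LO86

open Pool.Agent.LHF Filter Topology

variable {G : Type*} [Group G] {ι : Type} [Fintype ι] {X : Type*} [MulAction G X]

/-- growth at most quadratic at arbitrarily large radii, uniformly -/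
def QGr (σ : ι → G) (X : Type*) [MulAction G X] : Prop :=
  ∃ C : ℝ, ∀ R0 : ℕ, ∃ R : ℕ, R0 ≤ R ∧ ∀ x : X, (orbN σ x R : ℝ) ≤ C * (R : ℝ) ^ 2

/-- distance from the base point in a coset space -/
noncomputable def dK (σ : ι → G) (K : Subgroup G) (z : G ⧸ K) : ℕ :=
  sInf {k | ∃ g ∈ Ball σ k, (QuotientGroup.mk g : G ⧸ K) = z}

theorem dK_le_iff {σ : ι → G} (hσ : GenData σ) {K : Subgroup G} {z : G ⧸ K} {R : ℕ} :
    dK σ K z ≤ R ↔ ∃ g ∈ Ball σ R, (QuotientGroup.mk g : G ⧸ K) = z := by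
  constructor
  · intro h
    have hne : {k | ∃ g ∈ Ball σ k, (QuotientGroup.mk g : G ⧸ K) = z}.Nonempty := by
      obtain ⟨g, rfl⟩ := QuotientGroup.mk_surjective z
      obtain ⟨k, hk⟩ := exists_mem_ball hσ g
      exact ⟨k, g, hk, rfl⟩
    obtain ⟨g, hg, hgz⟩ := Nat.sInf_mem hne
    exact ⟨g, ball_mono σ h hg, hgz⟩
  · intro h
    exact Nat.sInf_le h

theorem dK_smul_le {σ : ι → G} (hσ : GenData σ) {K : Subgroup G} (z : G ⧸ K) {h : G} {k : ℕ}
    (hh : h ∈ Ball σ k) : dK σ K (h • z) ≤ k + dK σ K z := by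
  obtain ⟨g, hg, hgz⟩ := (dK_le_iff hσ).1 (le_refl (dK σ K z))
  refine (dK_le_iff hσ).2 ⟨h * g, mul_mem_ball σ hh hg, ?_⟩
  rw [← hgz]
  rfl

theorem dK_le_smul {σ : ι → G} (hσ : GenData σ) {K : Subgroup G} (z : G ⧸ K) {h : G} {k : ℕ}
    (hh : h ∈ Ball σ k) : dK σ K z ≤ k + dK σ K (h • z) := by
  have h1 := dK_smul_le hσ (h • z) (inv_mem_ball hσ hh)
  rwa [inv_smul_smul] at h1

theorem setOf_dK {σ : ι → G} (hσ : GenData σ) (K : Subgroup G) (R : ℕ) :
    {z : G ⧸ K | dK σ K z ≤ R} =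
      (fun g : G => g • (QuotientGroup.mk (1 : G) : G ⧸ K)) '' Ball σ R := by
  ext z
  rw [Set.mem_setOf_eq, dK_le_iff hσ]
  constructor
  · rintro ⟨g, hg, hgz⟩
    refine ⟨g, hg, ?_⟩
    rw [← hgz]
    change (QuotientGroup.mk (g * 1 : G) : G ⧸ K) = _
    rw [mul_one]
  · rintro ⟨g, hg, hgz⟩
    refine ⟨g, hg, ?_⟩
    rw [← hgz]
    change _ = (QuotientGroup.mk (g * 1 : G) : G ⧸ K)
    rw [mul_one]

theorem finite_dK {σ : ι → G} (hσ : GenData σ) (K : Subgroup G) (R : ℕ) :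
    {z : G ⧸ K | dK σ K z ≤ R}.Finite := by
  rw [setOf_dK hσ]
  exact (ball_finite σ R).image _

/-- the ball in the coset space as a finset -/
noncomputable def BK {σ : ι → G} (hσ : GenData σ) (K : Subgroup G) (R : ℕ) : Finset (G ⧸ K) :=
  (finite_dK hσ K R).toFinset

theorem mem_BK {σ : ι → G} (hσ : GenData σ) {K : Subgroup G} {R : ℕ} {z : G ⧸ K} :
    z ∈ BK hσ K R ↔ dK σ K z ≤ R := by
  unfold BK
  rw [Set.Finite.mem_toFinset]
  rfl

theorem card_BK {σ : ι → G} (hσ : GenData σ) (K : Subgroup G) (R : ℕ) :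
    (BK hσ K R).card = orbN σ (QuotientGroup.mk (1 : G) : G ⧸ K) R := by
  unfold orbN BK
  rw [← setOf_dK hσ, Set.ncard_eq_toFinset_card _ (finite_dK hσ K R)]

/-- the cone of height `3 m` -/
noncomputable def ph (σ : ι → G) (K : Subgroup G) (m : ℕ) (z : G ⧸ K) : ℝ :=
  max 0 (3 * (m : ℝ) - dK σ K z)

theorem ph_zero {σ : ι → G} {K : Subgroup G} {m : ℕ} {z : G ⧸ K} (h : 3 * m ≤ dK σ K z) :
    ph σ K m z = 0 := by
  have h1 : (3 * (m : ℝ)) ≤ dK σ K z := by exact_mod_cast h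
  unfold ph
  exact max_eq_left (by linarith)

theorem ph_lip {σ : ι → G} (hσ : GenData σ) (K : Subgroup G) (m : ℕ) (y : G ⧸ K) (j : ι) :
    |ph σ K m (σ j • y) - ph σ K m y| ≤ 1 := by
  have h1 : (dK σ K (σ j • y) : ℝ) ≤ 1 + dK σ K y := by
    exact_mod_cast dK_smul_le hσ y (step_mem_ball σ j)
  have h2 : (dK σ K y : ℝ) ≤ 1 + dK σ K (σ j • y) := by
    exact_mod_cast dK_le_smul hσ y (step_mem_ball σ j)
  unfold ph
  rw [max_comm 0, max_comm 0]
  refine (abs_max_sub_max_le_abs _ _ _).trans ?_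
  rw [abs_le]
  constructor <;> linarith

theorem subOrb_infinite {K N : Subgroup G} (hNn : N.Normal) (h0 : K.relIndex N = 0) (g : G) :
    (subOrb N (QuotientGroup.mk g : G ⧸ K)).Infinite := by
  intro hfin
  have hF : Finite (subOrb N (QuotientGroup.mk g : G ⧸ K)) := hfin
  let f : N ⧸ (K.subgroupOf N) → subOrb N (QuotientGroup.mk g : G ⧸ K) := fun q =>
    ⟨QuotientGroup.mk (g * ((q.out : N) : G)),
      g * ((q.out : N) : G) * g⁻¹, hNn.conj_mem _ (q.out : N).2 g, by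
        change (QuotientGroup.mk (g * ((q.out : N) : G) * g⁻¹ * g) : G ⧸ K) = _
        rw [inv_mul_cancel_right]⟩
  have hf : Function.Injective f := by
    intro q q' h
    have h1 : (QuotientGroup.mk (g * ((q.out : N) : G)) : G ⧸ K) =
        QuotientGroup.mk (g * ((q'.out : N) : G)) := congrArg Subtype.val h
    rw [QuotientGroup.eq] at h1
    rw [← q.out_eq', ← q'.out_eq']
    rw [QuotientGroup.eq, Subgroup.mem_subgroupOf, Subgroup.coe_mul, Subgroup.coe_inv]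
    have e : (g * ((q.out : N) : G))⁻¹ * (g * ((q'.out : N) : G)) =
        ((q.out : N) : G)⁻¹ * ((q'.out : N) : G) := by group
    rw [e] at h1
    exact h1
  have hfi : Finite (N ⧸ (K.subgroupOf N)) := Finite.of_injective f hf
  exact Subgroup.index_ne_zero_of_finite (H := K.subgroupOf N) h0

theorem exists_reps {σ : ι → G} (hσ : GenData σ) {L : Subgroup G} (hL : L.index = 0) (m : ℕ) :
    ∃ g : Fin (m + 1) → G, (∀ i, g i ∈ Ball σ m) ∧
      ∀ i j, (QuotientGroup.mk (g i) : G ⧸ L) = QuotientGroup.mk (g j) → i = j := by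
  classical
  have h1 := succ_le_cosN hσ.gen hL m
  have hfin : ((fun g : G => (QuotientGroup.mk g : G ⧸ L)) '' Ball σ m).Finite :=
    (ball_finite σ m).image _
  unfold cosN at h1
  rw [Set.ncard_eq_toFinset_card _ hfin] at h1
  let e := hfin.toFinset.equivFin
  have h2 : ∀ i : Fin (m + 1), ∃ g ∈ Ball σ m, (QuotientGroup.mk g : G ⧸ L) =
      (e.symm (Fin.castLE h1 i) : G ⧸ L) := by
    intro i
    have h3 := (e.symm (Fin.castLE h1 i)).2
    rw [Set.Finite.mem_toFinset] at h3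
    obtain ⟨g, hg, hgi⟩ := h3
    exact ⟨g, hg, hgi⟩
  choose g hg hgi using h2
  refine ⟨g, hg, fun i j hij => ?_⟩
  rw [hgi, hgi] at hij
  have h4 := e.symm.injective (Subtype.ext hij)
  exact Fin.castLE_injective h1 h4

/-- Quadratic growth leaves no room for infinitely many infinite orbits of `N`. -/
theorem relIndex_ne_zero_of_quad {σ : ι → G} (hσ : GenData σ) (hFin : FinHF σ)
    {K N : Subgroup G} (hNn : N.Normal) (hNfg : N.FG)
    (hN : ∀ F : G → ℝ, IsLHF σ F → VNm (annKer F) → N ≤ annKer F)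
    {C' : ℝ} {d : ℕ} (hK : ∀ (z : G ⧸ K) (R : ℕ), (orbN σ z R : ℝ) ≤ C' * ((R : ℝ) + 1) ^ d)
    (hQ : QGr σ (G ⧸ K)) (hL : (K ⊔ N).index = 0) : K.relIndex N ≠ 0 := by
  classical
  intro h0
  obtain ⟨κ, _, σ', hσ'⟩ := exists_family hNfg
  obtain ⟨lam, hlam0⟩ := finite_subset_ball hσ
    (Set.finite_range (fun j : κ => (σ' j : G)))
  have hlam : ∀ j, (σ' j : G) ∈ Ball σ lam := fun j => hlam0 ⟨j, rfl⟩
  obtain ⟨C, hC⟩ := hQ
  have hpar : ∀ n : ℕ, ∃ R m : ℕ, n + 1 ≤ m ∧ 4 * m + lam ≤ R ∧ R ≤ 8 * m ∧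
      ∀ x : G ⧸ K, (orbN σ x R : ℝ) ≤ C * (R : ℝ) ^ 2 := by
    intro n
    obtain ⟨R, hR0, hR⟩ := hC (16 * (n + 1 + lam))
    exact ⟨R, (R - lam) / 4, by omega, by omega, by omega, hR⟩
  choose R m hm hmR hRm hRC using hpar
  have hm1 : ∀ n, 1 ≤ m n := fun n => by have := hm n; omega
  let B : ℕ → Finset (G ⧸ K) := fun n => BK hσ K (R n)
  let u : ℕ → (G ⧸ K) → ℝ := fun n => tavX σ (m n) (ph σ K (m n))
  have hApx : Apx σ (Fintype.card ι : ℝ) B u := by
    refine ⟨fun n => ?_, fun n j A => ?_, fun n y => ?_, fun n y => ?_⟩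
    · refine ⟨QuotientGroup.mk (1 : G), ?_⟩
      rw [mem_BK, dK_le_iff hσ]
      exact ⟨1, one_mem_ball σ _, rfl⟩
    · have hφ : (ph σ K (m n)).support.Finite := by
        refine (finite_dK hσ K (3 * m n)).subset ?_
        intro z hz
        by_contra hcon
        rw [Set.mem_setOf_eq, not_le] at hcon
        exact hz (ph_zero hcon.le)
      have hS : ∀ y j, ph σ K (m n) (σ j • y) ≠ ph σ K (m n) y → y ∈ BK hσ K (3 * m n) := by
        intro y j hy
        rw [mem_BK]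
        by_contra hcon
        rw [not_le] at hcon
        apply hy
        have h1 := dK_le_smul hσ y (step_mem_ball σ j)
        rw [ph_zero hcon.le, ph_zero (by omega)]
      refine (energy_tavX hσ hφ (fun y j => ph_lip hσ K (m n) y j) hS (hm1 n) j A).trans ?_
      refine mul_le_mul_of_nonneg_left ?_ (Nat.cast_nonneg _)
      rw [Nat.cast_le]
      refine Finset.card_le_card ?_
      intro z hz
      rw [mem_BK] at hz ⊢
      have := hmR n
      omega
    · exact (tavX_lap hσ (fun y j => ph_lip hσ K (m n) y j) (hm1 n) y).trans (by norm_num)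
    · refine (tavX_lap2 hσ (fun y j => ph_lip hσ K (m n) y j) (hm1 n) y).trans ?_
      have h1 : ((n : ℝ) + 1) ≤ m n := by exact_mod_cast hm n
      have h2 : (0 : ℝ) < (n : ℝ) + 1 := by positivity
      calc 2 / (m n : ℝ) ≤ 2 / ((n : ℝ) + 1) := by gcongr
        _ ≤ 4 / ((n : ℝ) + 1) := by gcongr; norm_num
  let T : Finset G := Finset.univ.image (fun j : κ => ((σ' j : N) : G))
  have hTN : ∀ t ∈ T, t ∈ N := by
    intro t ht
    obtain ⟨j, -, rfl⟩ := Finset.mem_image.1 ht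
    exact (σ' j).2
  have hTlam : ∀ t ∈ T, t ∈ Ball σ lam := by
    intro t ht
    obtain ⟨j, -, rfl⟩ := Finset.mem_image.1 ht
    exact hlam j
  have hgen : ∀ g ∈ N, ∃ l : List G, (∀ s ∈ l, s ∈ T) ∧ l.prod = g := by
    intro g hg
    obtain ⟨l, hl⟩ := hσ' ⟨g, hg⟩
    refine ⟨l.map (fun j => ((σ' j : N) : G)), ?_, ?_⟩
    · intro s hs
      obtain ⟨j, -, rfl⟩ := List.mem_map.1 hs
      exact Finset.mem_image.2 ⟨j, Finset.mem_univ j, rfl⟩
    · have h1 : ((wprod σ' l : N) : G) = g := by rw [hl]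
      rw [coe_wprod] at h1
      exact h1
  have hsum : Tendsto (fun n => ∑ t ∈ T, bav (B n) (fun y => |u n (t • y) - u n y|))
      (hyperfilter ℕ : Filter ℕ) (𝓝 0) := by
    have h1 : Tendsto (fun n => ∑ t ∈ T, bav (B n) (fun y => |u n (t • y) - u n y|))
        (hyperfilter ℕ : Filter ℕ) (𝓝 (∑ t ∈ T, (0 : ℝ))) := by
      refine tendsto_finset_sum T fun t ht => ?_
      have h2 := Apx.zero hσ hFin hApx hK hN (inv_mem (hTN t ht))
      simpa only [inv_inv] using h2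
    simpa using h1
  have hcard : ∀ n, ((B n).card : ℝ) ≤ C * (R n : ℝ) ^ 2 := by
    intro n
    change ((BK hσ K (R n)).card : ℝ) ≤ _
    rw [card_BK]
    exact hRC n _
  have hcard1 : ∀ n, (1 : ℝ) ≤ (B n).card := by
    intro n
    exact_mod_cast (hApx.ne n).card_pos
  have hC0 : 0 < C := by
    by_contra hcon
    have h1 := hcard 0
    have h2 := hcard1 0
    have h3 : C * (R 0 : ℝ) ^ 2 ≤ 0 := mul_nonpos_of_nonpos_of_nonneg (not_lt.1 hcon) (sq_nonneg _)
    linarith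
  have hev := hsum.eventually (gt_mem_nhds (show (0 : ℝ) < 1 / (64 * C) by positivity))
  obtain ⟨n, hn⟩ := hev.exists
  obtain ⟨g, hg, hgi⟩ := exists_reps hσ hL (m n)
  have hA : ∀ y, ∀ t ∈ T, u n (t • y) ≠ u n y → y ∈ B n := by
    intro y t ht hy
    change y ∈ BK hσ K (R n)
    rw [mem_BK]
    by_contra hcon
    apply hy
    have h1 := dK_le_smul hσ y (hTlam t ht)
    have h2 := hmR n
    change tavX σ (m n) (ph σ K (m n)) (t • y) = tavX σ (m n) (ph σ K (m n)) y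
    rw [tavX_eq_zero (y := y), tavX_eq_zero]
    · intro a ha
      apply ph_zero
      have h3 := dK_le_smul hσ (t • y) ha
      omega
    · intro a ha
      apply ph_zero
      have h3 := dK_le_smul hσ y ha
      omega
  have hzd : ∀ i j, i ≠ j → (QuotientGroup.mk (g j) : G ⧸ K) ∉
      subOrb N (QuotientGroup.mk (g i) : G ⧸ K) := by
    rintro i j hij ⟨a, ha, h⟩
    apply hij
    apply hgi
    have h1 : (QuotientGroup.mk (a * g i) : G ⧸ K) = QuotientGroup.mk (g j) := h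
    rw [QuotientGroup.eq] at h1 ⊢
    have e : (g i)⁻¹ * g j = ((g i)⁻¹ * a * ((g i)⁻¹)⁻¹) * ((a * g i)⁻¹ * g j) := by group
    rw [e]
    exact mul_mem ((le_sup_right : N ≤ K ⊔ N) (hNn.conj_mem a ha _))
      ((le_sup_left : K ≤ K ⊔ N) h1)
  have hinf : ∀ i, ∃ w ∈ subOrb N (QuotientGroup.mk (g i) : G ⧸ K), u n w = 0 := by
    intro i
    obtain ⟨w, hw, hw4⟩ := ((subOrb_infinite hNn h0 (g i)).diff
      (finite_dK hσ K (4 * m n))).nonempty
    refine ⟨w, hw, ?_⟩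
    rw [Set.mem_setOf_eq] at hw4
    apply tavX_eq_zero
    intro a ha
    apply ph_zero
    have h3 := dK_le_smul hσ w ha
    omega
  have hu : ∀ i, (m n : ℝ) ≤ u n (QuotientGroup.mk (g i) : G ⧸ K) := by
    intro i
    have h1 := abs_tavX_sub_le hσ (fun y j => ph_lip hσ K (m n) y j) (hm1 n)
      (QuotientGroup.mk (g i) : G ⧸ K)
    have h2 : dK σ K (QuotientGroup.mk (g i) : G ⧸ K) ≤ m n :=
      (dK_le_iff hσ).2 ⟨g i, hg i, rfl⟩
    have h3 : (dK σ K (QuotientGroup.mk (g i) : G ⧸ K) : ℝ) ≤ m n := by exact_mod_cast h2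
    have h4 : 3 * (m n : ℝ) - dK σ K (QuotientGroup.mk (g i) : G ⧸ K) ≤
        ph σ K (m n) (QuotientGroup.mk (g i) : G ⧸ K) := le_max_right _ _
    have h5 := (abs_le.1 h1).1
    change (m n : ℝ) ≤ tavX σ (m n) (ph σ K (m n)) (QuotientGroup.mk (g i) : G ⧸ K)
    linarith
  have hvar := variation_ge hTN hgen hA (fun i => (QuotientGroup.mk (g i) : G ⧸ K)) hzd hinf hu
  obtain ⟨s, hs⟩ : ∃ s : ℝ, s = ∑ t ∈ T, bav (B n) (fun y => |u n (t • y) - u n y|) := ⟨_, rfl⟩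
  rw [← hs] at hn
  have hB0 : (0 : ℝ) < (B n).card := lt_of_lt_of_le one_pos (hcard1 n)
  have hsw : ∑ y ∈ B n, ∑ t ∈ T, |u n (t • y) - u n y| = ((B n).card : ℝ) * s := by
    rw [Finset.sum_comm, hs, Finset.mul_sum]
    refine Finset.sum_congr rfl fun t _ => ?_
    unfold bav
    rw [mul_div_cancel₀ _ hB0.ne']
  rw [hsw] at hvar
  have hs0 : 0 ≤ s := by
    rw [hs]
    refine Finset.sum_nonneg fun t _ => ?_
    unfold bav
    exact div_nonneg (Finset.sum_nonneg fun _ _ => abs_nonneg _) (Nat.cast_nonneg _)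
  have hR8 : (R n : ℝ) ≤ 8 * m n := by exact_mod_cast hRm n
  have hm0 : (1 : ℝ) ≤ m n := by exact_mod_cast hm1 n
  have h6 : (R n : ℝ) ^ 2 ≤ (8 * m n) ^ 2 := pow_le_pow_left₀ (Nat.cast_nonneg _) hR8 2
  have h7 : ((B n).card : ℝ) ≤ C * (8 * m n) ^ 2 :=
    (hcard n).trans (mul_le_mul_of_nonneg_left h6 hC0.le)
  have h8 : ((B n).card : ℝ) * s ≤ C * (8 * m n) ^ 2 * (1 / (64 * C)) :=
    mul_le_mul h7 hn.le hs0 (by positivity)
  have h9 : C * (8 * (m n : ℝ)) ^ 2 * (1 / (64 * C)) = (m n : ℝ) ^ 2 := by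
    field_simp
    ring
  rw [h9] at h8
  push_cast at hvar
  nlinarith

end Pool.Agent.LO86
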