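import Pool.Agent.LO86.Orbits
import Pool.Agent.LO86.QGrow
import Pool.Agent.LO86.QQuad

set_option autoImplicit false
set_option linter.unusedSectionVars false
set_option linter.unusedVariables false

namespace Pool.Agent.LO86

open Pool.Agent.LHF

variable {G : Type*} [Group G] {ι : Type} [Fintype ι]

/-- the orbits of the annihilator subgroup `N` are bounded: quadratic growth -/
theorem subOrb_bounded_quad {σ : ι → G} (hσ : GenData σ) (hFin : FinHF σ) {X : Type*}
    [MulAction G X] {C : ℝ} {d : ℕ}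
    (hX : ∀ (x : X) (R : ℕ), (orbN σ x R : ℝ) ≤ C * ((R : ℝ) + 1) ^ d) (hQ : QGr σ X)
    {N : Subgroup G} (hNn : N.Normal)
    (hNfg : N.FG) (hN : ∀ F : G → ℝ, IsLHF σ F → VNm (annKer F) → N ≤ annKer F) :
    ∃ Q : ℕ, ∀ x : X, (subOrb N x).encard ≤ (Q : ℕ∞) := by
  refine subOrb_bounded_of hσ hFin hX hNn hNfg hN fun y hL => ?_
  refine relIndex_ne_zero_of_quad hσ hFin hNn hNfg hN (C' := C) (d := d) ?_ ?_ hL
  · intro z R
    exact orbN_limStab_le (f := fun R => C * ((R : ℝ) + 1) ^ d) hX y z R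
  · obtain ⟨C', hC'⟩ := hQ
    refine ⟨C', fun R0 => ?_⟩
    obtain ⟨R, hR, h⟩ := hC' R0
    exact ⟨R, hR, fun z => orbN_limStab_le' h y z⟩

end Pool.Agent.LO86
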