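import Pool.Agent.LO86.QDefs

set_option autoImplicit false
set_option linter.unusedSectionVars false
set_option linter.unusedVariables false

namespace Pool.Agent.LO86

open Pool.Agent.LHF Filter Topology

lemma hyper_le_atTop : (hyperfilter ℕ : Filter ℕ) ≤ atTop := by
  rw [← Nat.cofinite_eq_atTop]
  exact hyperfilter_le_cofinite

lemma bav_nonneg {X : Type*} {B : Finset X} {f : X → ℝ} (hf : ∀ y ∈ B, 0 ≤ f y) :
    0 ≤ bav B f := div_nonneg (Finset.sum_nonneg hf) (Nat.cast_nonneg _)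

lemma bav_mono {X : Type*} {B : Finset X} {f g : X → ℝ} (hfg : ∀ y ∈ B, f y ≤ g y) :
    bav B f ≤ bav B g := div_le_div_of_nonneg_right (Finset.sum_le_sum hfg) (Nat.cast_nonneg _)

lemma bav_const {X : Type*} {B : Finset X} (hB : B.Nonempty) (c : ℝ) :
    bav B (fun _ => c) = c := by
  have h : (0 : ℝ) < B.card := by exact_mod_cast hB.card_pos
  rw [bav, Finset.sum_const, nsmul_eq_mul]
  field_simp

lemma bav_sum {X : Type*} {B : Finset X} {κ : Type*} (s : Finset κ) (f : κ → X → ℝ) :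
    bav B (fun y => ∑ k ∈ s, f k y) = ∑ k ∈ s, bav B (f k) := by
  simp only [bav]
  rw [Finset.sum_comm, Finset.sum_div]

lemma bav_mul {X : Type*} {B : Finset X} (c : ℝ) (f : X → ℝ) :
    bav B (fun y => c * f y) = c * bav B f := by
  simp only [bav]
  rw [← Finset.mul_sum, mul_div_assoc]

lemma bav_sub {X : Type*} {B : Finset X} (f g : X → ℝ) :
    bav B (fun y => f y - g y) = bav B f - bav B g := by
  simp only [bav]
  rw [Finset.sum_sub_distrib, sub_div]

lemma exists_ge_bav {X : Type*} {B : Finset X} (hB : B.Nonempty) {f : X → ℝ} {c : ℝ}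
    (h : c ≤ bav B f) : ∃ y ∈ B, c ≤ f y := by
  by_contra hcon
  push Not at hcon
  have hpos : (0 : ℝ) < B.card := by exact_mod_cast hB.card_pos
  have h1 : ∑ y ∈ B, f y < ∑ _y ∈ B, c := Finset.sum_lt_sum_of_nonempty hB hcon
  rw [Finset.sum_const, nsmul_eq_mul] at h1
  have h2 : bav B f < c := by
    rw [bav, div_lt_iff₀ hpos, mul_comm]
    exact h1
  linarith

/-- tails of the weighted sums are small -/
lemma weighted_sum_le {c : ℕ → ℝ} (h0 : ∀ i, 0 ≤ c i) (h1 : ∀ i, c i ≤ 1) (K n : ℕ) :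
    ∑ i ∈ Finset.range n, (1 / 2 : ℝ) ^ i * c i
      ≤ ∑ i ∈ Finset.range K, (1 / 2 : ℝ) ^ i * c i + 2 * (1 / 2 : ℝ) ^ K := by
  have e1 : ∑ i ∈ Finset.range n, (1 / 2 : ℝ) ^ i * c i
      ≤ ∑ i ∈ Finset.range (K + n), (1 / 2 : ℝ) ^ i * c i := by
    apply Finset.sum_le_sum_of_subset_of_nonneg
    · exact Finset.range_mono (Nat.le_add_left n K)
    · intro i _ _
      have := h0 i
      positivity
  refine e1.trans ?_
  rw [Finset.sum_range_add]
  have e2 : ∑ x ∈ Finset.range n, (1 / 2 : ℝ) ^ (K + x) * c (K + x)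
      ≤ (1 / 2 : ℝ) ^ K * ∑ x ∈ Finset.range n, (1 / 2 : ℝ) ^ x := by
    rw [Finset.mul_sum]
    apply Finset.sum_le_sum
    intro x _
    rw [pow_add]
    have h2 : (0 : ℝ) ≤ (1 / 2 : ℝ) ^ K * (1 / 2 : ℝ) ^ x := by positivity
    calc (1 / 2 : ℝ) ^ K * (1 / 2 : ℝ) ^ x * c (K + x)
        ≤ (1 / 2 : ℝ) ^ K * (1 / 2 : ℝ) ^ x * 1 := mul_le_mul_of_nonneg_left (h1 _) h2
      _ = _ := mul_one _
  have e3 : ∑ x ∈ Finset.range n, (1 / 2 : ℝ) ^ x ≤ 2 := sum_geometric_two_le n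
  have e4 : (1 / 2 : ℝ) ^ K * ∑ x ∈ Finset.range n, (1 / 2 : ℝ) ^ x ≤ (1 / 2 : ℝ) ^ K * 2 :=
    mul_le_mul_of_nonneg_left e3 (by positivity)
  linarith

/-- weighted sums of null sequences with values in `[0, 1]` form a null sequence -/
lemma tendsto_weighted {c : ℕ → ℕ → ℝ} (h0 : ∀ i n, 0 ≤ c i n) (h1 : ∀ i n, c i n ≤ 1)
    (h : ∀ i, Tendsto (c i) (hyperfilter ℕ : Filter ℕ) (𝓝 0)) :
    Tendsto (fun n => ∑ i ∈ Finset.range n, (1 / 2 : ℝ) ^ i * c i n)
      (hyperfilter ℕ : Filter ℕ) (𝓝 0) := by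
  rw [Metric.tendsto_nhds]
  intro ε hε
  obtain ⟨K, hK⟩ := exists_pow_lt_of_lt_one (show (0 : ℝ) < ε / 4 by positivity)
    (show (1 / 2 : ℝ) < 1 by norm_num)
  have hfin : Tendsto (fun n => ∑ i ∈ Finset.range K, (1 / 2 : ℝ) ^ i * c i n)
      (hyperfilter ℕ : Filter ℕ) (𝓝 0) := by
    have := tendsto_finsetSum (Finset.range K)
      (fun i _ => (h i).const_mul ((1 / 2 : ℝ) ^ i))
    simpa using this
  have hev := (Metric.tendsto_nhds.mp hfin) (ε / 2) (by positivity)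
  filter_upwards [hev] with n hn
  rw [Real.dist_eq, sub_zero] at hn ⊢
  have h2 := weighted_sum_le (c := fun i => c i n) (fun i => h0 i n) (fun i => h1 i n) K n
  have h3 : 0 ≤ ∑ i ∈ Finset.range n, (1 / 2 : ℝ) ^ i * c i n :=
    Finset.sum_nonneg (fun i _ => by have := h0 i n; positivity)
  rw [abs_of_nonneg h3]
  have h4 := le_abs_self (∑ i ∈ Finset.range K, (1 / 2 : ℝ) ^ i * c i n)
  linarith

/-- Selection of typical points. Let `S n y = ∑ i ∈ range n, (1/2)^i * min 1 (r i n y)`; then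
`bav (B n) (S n) → 0` along the hyperfilter. Put `q n = sqrt (bav (B n) (S n)) + 1/(n+1)` and
choose `κ > 0` with `κ (C + D) ≤ c/4`. The average over `B n` of
`a - κ a^2 - κ W - S / q` is at least `c - c/4 - sqrt (bav S) ≥ c/4` for almost all `n`, so some
`y ∈ B n` has this quantity `≥ c/4`: then `a ≥ c/4`, `κ a^2 ≤ a`, so `a ≤ 1/κ`, `κ W ≤ a`,
so `W ≤ 1/κ^2`, and `S ≤ q a ≤ q/κ → 0`, hence `min 1 (r i n y) ≤ 2^i S → 0`. -/
theorem exists_typical {X : Type*} {B : ℕ → Finset X} (hB : ∀ n, (B n).Nonempty)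
    {a W : ℕ → X → ℝ} {r : ℕ → ℕ → X → ℝ} (ha : ∀ n y, 0 ≤ a n y) (hW : ∀ n y, 0 ≤ W n y)
    (hr : ∀ i n y, 0 ≤ r i n y) {C D c : ℝ} (hc : 0 < c)
    (h1 : ∀ n, bav (B n) (fun y => a n y ^ 2) ≤ C) (h2 : ∀ n, bav (B n) (W n) ≤ D)
    (h3 : ∀ᶠ n in (hyperfilter ℕ : Filter ℕ), c ≤ bav (B n) (a n))
    (h4 : ∀ i, Tendsto (fun n => bav (B n) (r i n)) (hyperfilter ℕ : Filter ℕ) (𝓝 0)) :
    ∃ (y : ℕ → X) (A : ℝ),
      (∀ᶠ n in (hyperfilter ℕ : Filter ℕ), c / 4 ≤ a n (y n) ∧ W n (y n) ≤ A) ∧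
      ∀ i, Tendsto (fun n => r i n (y n)) (hyperfilter ℕ : Filter ℕ) (𝓝 0) := by
  have hC : 0 ≤ C := (bav_nonneg (fun y _ => sq_nonneg (a 0 y))).trans (h1 0)
  have hD : 0 ≤ D := (bav_nonneg (fun y _ => hW 0 y)).trans (h2 0)
  -- the weighted sums
  let S : ℕ → X → ℝ := fun n y => ∑ i ∈ Finset.range n, (1 / 2 : ℝ) ^ i * min 1 (r i n y)
  have hSdef : ∀ n y, S n y = ∑ i ∈ Finset.range n, (1 / 2 : ℝ) ^ i * min 1 (r i n y) :=
    fun n y => rfl
  have hmin0 : ∀ i n y, 0 ≤ min 1 (r i n y) := fun i n y => le_min zero_le_one (hr i n y)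
  have hS0 : ∀ n y, 0 ≤ S n y := fun n y =>
    Finset.sum_nonneg (fun i _ => by have := hmin0 i n y; positivity)
  set b : ℕ → ℝ := fun n => bav (B n) (S n) with hb
  have hb0 : ∀ n, 0 ≤ b n := fun n => bav_nonneg (fun y _ => hS0 n y)
  have hbt : Tendsto b (hyperfilter ℕ : Filter ℕ) (𝓝 0) := by
    have e1 : b = fun n => ∑ i ∈ Finset.range n,
        (1 / 2 : ℝ) ^ i * bav (B n) (fun y => min 1 (r i n y)) := by
      funext n
      simp only [hb, S]
      rw [bav_sum]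
      apply Finset.sum_congr rfl
      intro i _
      rw [bav_mul]
    rw [e1]
    apply tendsto_weighted
    · exact fun i n => bav_nonneg (fun y _ => hmin0 i n y)
    · intro i n
      calc bav (B n) (fun y => min 1 (r i n y)) ≤ bav (B n) (fun _ => (1 : ℝ)) :=
            bav_mono (fun y _ => min_le_left _ _)
        _ = 1 := bav_const (hB n) 1
    · intro i
      exact squeeze_zero (fun n => bav_nonneg (fun y _ => hmin0 i n y))
        (fun n => bav_mono (fun y _ => min_le_right _ _)) (h4 i)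
  set q : ℕ → ℝ := fun n => Real.sqrt (b n) + 1 / ((n : ℝ) + 1) with hq
  have hq0 : ∀ n, 0 < q n := by
    intro n
    have e1 := Real.sqrt_nonneg (b n)
    have e2 : (0 : ℝ) < 1 / ((n : ℝ) + 1) := by positivity
    change 0 < Real.sqrt (b n) + 1 / ((n : ℝ) + 1)
    linarith
  have hqt : Tendsto q (hyperfilter ℕ : Filter ℕ) (𝓝 0) := by
    have e1 : Tendsto (fun n => Real.sqrt (b n)) (hyperfilter ℕ : Filter ℕ) (𝓝 0) := by
      have := (Real.continuous_sqrt.tendsto 0).comp hbt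
      rw [Real.sqrt_zero] at this
      exact this
    have e2 : Tendsto (fun n : ℕ => 1 / ((n : ℝ) + 1)) (hyperfilter ℕ : Filter ℕ) (𝓝 0) :=
      tendsto_one_div_add_atTop_nhds_zero_nat.mono_left hyper_le_atTop
    have := e1.add e2
    rw [add_zero] at this
    exact this
  -- the constant
  set κ : ℝ := c / (4 * (C + D + 1)) with hκ
  have hκ0 : 0 < κ := by positivity
  have hκCD : κ * (C + D) ≤ c / 4 := by
    have e1 : κ * (C + D + 1) = c / 4 := by
      rw [hκ]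
      field_simp
    have e2 : κ * (C + D) ≤ κ * (C + D + 1) := mul_le_mul_of_nonneg_left (by linarith) hκ0.le
    linarith
  let Φ : ℕ → X → ℝ := fun n y => a n y - κ * a n y ^ 2 - κ * W n y - (q n)⁻¹ * S n y
  have hΦ : ∀ n, c ≤ bav (B n) (a n) → Real.sqrt (b n) ≤ c / 2 → c / 4 ≤ bav (B n) (Φ n) := by
    intro n hn1 hn2
    have e1 : bav (B n) (Φ n) = bav (B n) (a n) - κ * bav (B n) (fun y => a n y ^ 2)
        - κ * bav (B n) (W n) - (q n)⁻¹ * b n := by
      simp only [Φ]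
      rw [bav_sub, bav_sub, bav_sub, bav_mul, bav_mul, bav_mul]
    have e2 : (q n)⁻¹ * b n ≤ Real.sqrt (b n) := by
      rw [inv_mul_le_iff₀ (hq0 n)]
      have e3 : b n = Real.sqrt (b n) * Real.sqrt (b n) := (Real.mul_self_sqrt (hb0 n)).symm
      have e4 : Real.sqrt (b n) ≤ q n := by
        have : (0 : ℝ) < 1 / ((n : ℝ) + 1) := by positivity
        change Real.sqrt (b n) ≤ Real.sqrt (b n) + 1 / ((n : ℝ) + 1)
        linarith
      calc b n = Real.sqrt (b n) * Real.sqrt (b n) := e3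
        _ ≤ q n * Real.sqrt (b n) := mul_le_mul_of_nonneg_right e4 (Real.sqrt_nonneg _)
    have e5 : κ * bav (B n) (fun y => a n y ^ 2) ≤ κ * C :=
      mul_le_mul_of_nonneg_left (h1 n) hκ0.le
    have e6 : κ * bav (B n) (W n) ≤ κ * D := mul_le_mul_of_nonneg_left (h2 n) hκ0.le
    have e7 : κ * (C + D) = κ * C + κ * D := by ring
    rw [e1]
    linarith
  have hchoice : ∀ n, ∃ y ∈ B n,
      (c ≤ bav (B n) (a n) ∧ Real.sqrt (b n) ≤ c / 2) → c / 4 ≤ Φ n y := by
    intro n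
    by_cases hn : c ≤ bav (B n) (a n) ∧ Real.sqrt (b n) ≤ c / 2
    · obtain ⟨y, hy, hy2⟩ := exists_ge_bav (hB n) (hΦ n hn.1 hn.2)
      exact ⟨y, hy, fun _ => hy2⟩
    · obtain ⟨y, hy⟩ := hB n
      exact ⟨y, hy, fun h => absurd h hn⟩
  choose y hyB hy using hchoice
  have hsq : ∀ᶠ n in (hyperfilter ℕ : Filter ℕ), Real.sqrt (b n) ≤ c / 2 := by
    have e1 : Tendsto (fun n => Real.sqrt (b n)) (hyperfilter ℕ : Filter ℕ) (𝓝 0) := by
      have := (Real.continuous_sqrt.tendsto 0).comp hbt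
      rw [Real.sqrt_zero] at this
      exact this
    exact e1.eventually_le_const (by positivity)
  have hgood : ∀ᶠ n in (hyperfilter ℕ : Filter ℕ), c / 4 ≤ Φ n (y n) := by
    filter_upwards [h3, hsq] with n hn1 hn2
    exact hy n ⟨hn1, hn2⟩
  -- consequences at a good point
  have hcons : ∀ n, c / 4 ≤ Φ n (y n) → c / 4 ≤ a n (y n) ∧ W n (y n) ≤ 1 / κ ^ 2 ∧
      S n (y n) ≤ q n / κ := by
    intro n hn
    have hn' : c / 4 ≤ a n (y n) - κ * a n (y n) ^ 2 - κ * W n (y n) - (q n)⁻¹ * S n (y n) := hn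
    have f1 : 0 ≤ κ * a n (y n) ^ 2 := by positivity
    have f2 : 0 ≤ κ * W n (y n) := mul_nonneg hκ0.le (hW n (y n))
    have f3 : 0 ≤ (q n)⁻¹ * S n (y n) := mul_nonneg (inv_nonneg.mpr (hq0 n).le) (hS0 n (y n))
    have f4 : c / 4 ≤ a n (y n) := by linarith
    have f5 : 0 < a n (y n) := by linarith
    have f6 : a n (y n) ≤ 1 / κ := by
      rw [le_div_iff₀ hκ0]
      have f7 : κ * a n (y n) ^ 2 ≤ a n (y n) := by linarith
      have f8 : a n (y n) * (κ * a n (y n)) ≤ a n (y n) * 1 := by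
        calc a n (y n) * (κ * a n (y n)) = κ * a n (y n) ^ 2 := by ring
          _ ≤ a n (y n) * 1 := by linarith
      have f9 := le_of_mul_le_mul_left f8 f5
      linarith
    refine ⟨f4, ?_, ?_⟩
    · have g1 : κ * W n (y n) ≤ 1 / κ := by linarith
      have g2 : W n (y n) ≤ 1 / κ / κ := by
        rw [le_div_iff₀ hκ0, mul_comm]
        exact g1
      calc W n (y n) ≤ 1 / κ / κ := g2
        _ = 1 / κ ^ 2 := by rw [div_div, pow_two]
    · have g1 : (q n)⁻¹ * S n (y n) ≤ 1 / κ := by linarith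
      rw [inv_mul_le_iff₀ (hq0 n)] at g1
      calc S n (y n) ≤ q n * (1 / κ) := g1
        _ = q n / κ := by rw [mul_one_div]
  refine ⟨y, 1 / κ ^ 2, ?_, ?_⟩
  · filter_upwards [hgood] with n hn
    exact ⟨(hcons n hn).1, (hcons n hn).2.1⟩
  · intro i
    have ht : Tendsto (fun n => 2 ^ i * (q n / κ)) (hyperfilter ℕ : Filter ℕ) (𝓝 0) := by
      have := (hqt.div_const κ).const_mul ((2 : ℝ) ^ i)
      simpa using this
    have hlt : ∀ᶠ n in (hyperfilter ℕ : Filter ℕ), 2 ^ i * (q n / κ) < 1 :=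
      ht.eventually_lt_const one_pos
    have hin : ∀ᶠ n in (hyperfilter ℕ : Filter ℕ), i < n :=
      hyper_le_atTop (eventually_gt_atTop i)
    apply tendsto_of_tendsto_of_tendsto_of_le_of_le' tendsto_const_nhds ht
    · exact Eventually.of_forall (fun n => hr i n (y n))
    · filter_upwards [hgood, hlt, hin] with n hn1 hn2 hn3
      have g1 := (hcons n hn1).2.2
      have g2 : (1 / 2 : ℝ) ^ i * min 1 (r i n (y n)) ≤ S n (y n) := by
        rw [hSdef]
        exact Finset.single_le_sum (f := fun i => (1 / 2 : ℝ) ^ i * min 1 (r i n (y n)))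
          (fun k _ => by have := hmin0 k n (y n); positivity) (Finset.mem_range.mpr hn3)
      have g3 : min 1 (r i n (y n)) ≤ 2 ^ i * (q n / κ) := by
        have e1 : (2 : ℝ) ^ i * ((1 / 2 : ℝ) ^ i * min 1 (r i n (y n))) = min 1 (r i n (y n)) := by
          rw [← mul_assoc, ← mul_pow]
          norm_num
        calc min 1 (r i n (y n)) = (2 : ℝ) ^ i * ((1 / 2 : ℝ) ^ i * min 1 (r i n (y n))) := e1.symm
          _ ≤ 2 ^ i * (q n / κ) :=
              mul_le_mul_of_nonneg_left (g2.trans g1) (by positivity)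
      have g4 : min 1 (r i n (y n)) < 1 := lt_of_le_of_lt g3 hn2
      have g5 : r i n (y n) < 1 := by
        by_contra hge
        push Not at hge
        rw [min_eq_left hge] at g4
        exact lt_irrefl _ g4
      rw [min_eq_right g5.le] at g3
      exact g3

end Pool.Agent.LO86
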