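import Pool.Agent.LO86.QDefs

set_option autoImplicit false
set_option linter.unusedSectionVars false
set_option linter.unusedVariables false

namespace Pool.Agent.LO86

open Pool.Agent.LHF Filter Topology

variable {G : Type*} [Group G] {ι : Type} [Fintype ι] {X : Type*} [MulAction G X]

/-- energy of one step after any group element, over any finite set -/
lemma sum_step_sq_le {σ : ι → G} {C : ℝ} {B : ℕ → Finset X}
    {u : ℕ → X → ℝ} (h : Apx σ C B u) (g : G) (j : ι) (n : ℕ) (A : Finset X) :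
    ∑ y ∈ A, (u n ((g * σ j)⁻¹ • y) - u n (g⁻¹ • y)) ^ 2 ≤ C * ((B n).card : ℝ) := by
  classical
  have h1 := h.en n j (A.image fun y => (g * σ j)⁻¹ • y)
  rw [Finset.sum_image (fun x _ y _ hxy => MulAction.injective _ hxy)] at h1
  refine le_trans (le_of_eq (Finset.sum_congr rfl fun y _ => ?_)) h1
  have h2 : σ j • (g * σ j)⁻¹ • y = g⁻¹ • y := by
    rw [smul_smul]
    congr 1
    group
  rw [h2]
  ring

/-- energy along a word, over any finite set -/
lemma sum_word_sq_le {σ : ι → G} {C : ℝ} {B : ℕ → Finset X}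
    {u : ℕ → X → ℝ} (h : Apx σ C B u) (n : ℕ) (l : List ι) :
    ∀ A : Finset X, ∑ y ∈ A, (u n ((wprod σ l)⁻¹ • y) - u n y) ^ 2 ≤
      (l.length : ℝ) ^ 2 * (C * ((B n).card : ℝ)) := by
  classical
  induction l with
  | nil => intro A; simp
  | cons j l ih =>
    intro A
    have hb : ∑ y ∈ A, (u n ((σ j)⁻¹ • y) - u n y) ^ 2 ≤ C * ((B n).card : ℝ) := by
      have := sum_step_sq_le h 1 j n A
      simpa using this
    rcases Nat.eq_zero_or_pos l.length with h0 | hpos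
    · rw [List.length_eq_zero_iff] at h0
      subst h0
      simpa using hb
    have ha : ∑ y ∈ A, (u n ((wprod σ l)⁻¹ • (σ j)⁻¹ • y) - u n ((σ j)⁻¹ • y)) ^ 2 ≤
        (l.length : ℝ) ^ 2 * (C * ((B n).card : ℝ)) := by
      have h1 := ih (A.image fun y => (σ j)⁻¹ • y)
      rwa [Finset.sum_image (fun x _ y _ hxy => MulAction.injective _ hxy)] at h1
    have hL : (0 : ℝ) < (l.length : ℝ) := by exact_mod_cast hpos
    set L : ℝ := (l.length : ℝ) with hLdef
    have hpt : ∀ y ∈ A, L * (u n ((wprod σ (j :: l))⁻¹ • y) - u n y) ^ 2 ≤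
        (L + 1) * (u n ((wprod σ l)⁻¹ • (σ j)⁻¹ • y) - u n ((σ j)⁻¹ • y)) ^ 2 +
        L * (L + 1) * (u n ((σ j)⁻¹ • y) - u n y) ^ 2 := by
      intro y _
      have e : (wprod σ (j :: l))⁻¹ • y = (wprod σ l)⁻¹ • (σ j)⁻¹ • y := by
        rw [wprod_cons, mul_inv_rev, mul_smul]
      rw [e]
      set a := u n ((wprod σ l)⁻¹ • (σ j)⁻¹ • y) - u n ((σ j)⁻¹ • y) with hadef
      set b := u n ((σ j)⁻¹ • y) - u n y with hbdef
      have e2 : u n ((wprod σ l)⁻¹ • (σ j)⁻¹ • y) - u n y = a + b := by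
        rw [hadef, hbdef]; ring
      rw [e2]
      nlinarith [sq_nonneg (a - L * b)]
    have hs := Finset.sum_le_sum hpt
    rw [Finset.sum_add_distrib, ← Finset.mul_sum, ← Finset.mul_sum, ← Finset.mul_sum] at hs
    have h3 : L * ∑ y ∈ A, (u n ((wprod σ (j :: l))⁻¹ • y) - u n y) ^ 2 ≤
        L * ((L + 1) ^ 2 * (C * ((B n).card : ℝ))) := by
      refine hs.trans ?_
      have h4 := mul_le_mul_of_nonneg_left ha (by positivity : (0 : ℝ) ≤ L + 1)
      have h5 := mul_le_mul_of_nonneg_left hb (by positivity : (0 : ℝ) ≤ L * (L + 1))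
      refine (add_le_add h4 h5).trans (le_of_eq ?_)
      ring
    have h6 := le_of_mul_le_mul_left h3 hL
    have h7 : (((j :: l).length : ℕ) : ℝ) = L + 1 := by
      rw [List.length_cons]; push_cast; rfl
    rw [h7]
    exact h6

lemma bav_abs_le_sqrt {B : Finset X} (hB : B.Nonempty) {f : X → ℝ} {K : ℝ}
    (h : ∑ y ∈ B, f y ^ 2 ≤ K * (B.card : ℝ)) : bav B (fun y => |f y|) ≤ Real.sqrt K := by
  have hc : (0 : ℝ) < (B.card : ℝ) := by exact_mod_cast hB.card_pos
  have h1 : (∑ y ∈ B, |f y|) ^ 2 ≤ (B.card : ℝ) * ∑ y ∈ B, |f y| ^ 2 :=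
    sq_sum_le_card_mul_sum_sq
  simp only [sq_abs] at h1
  unfold bav
  apply Real.le_sqrt_of_sq_le
  rw [div_pow, div_le_iff₀ (by positivity)]
  calc (∑ y ∈ B, |f y|) ^ 2 ≤ (B.card : ℝ) * ∑ y ∈ B, f y ^ 2 := h1
    _ ≤ (B.card : ℝ) * (K * (B.card : ℝ)) := mul_le_mul_of_nonneg_left h hc.le
    _ = K * (B.card : ℝ) ^ 2 := by ring

/-- Energy bound along a word: `(wprod σ l)⁻¹ • y` is reached from `y` by `l.length` steps
`σ (τ j)`; Cauchy-Schwarz and, for each step, `Apx.en` for the image of `B n` under a translation. -/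
theorem bav_word_sq_le {σ : ι → G} (hσ : GenData σ) {C : ℝ} {B : ℕ → Finset X}
    {u : ℕ → X → ℝ} (h : Apx σ C B u) (l : List ι) (n : ℕ) :
    bav (B n) (fun y => (u n ((wprod σ l)⁻¹ • y) - u n y) ^ 2) ≤ (l.length : ℝ) ^ 2 * C := by
  have hc : (0 : ℝ) < ((B n).card : ℝ) := by exact_mod_cast (h.ne n).card_pos
  unfold bav
  rw [div_le_iff₀ hc]
  refine (sum_word_sq_le h n l (B n)).trans (le_of_eq ?_)
  ring

theorem bav_word_le {σ : ι → G} (hσ : GenData σ) {C : ℝ} {B : ℕ → Finset X}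
    {u : ℕ → X → ℝ} (h : Apx σ C B u) (l : List ι) (n : ℕ) :
    bav (B n) (fun y => |u n ((wprod σ l)⁻¹ • y) - u n y|) ≤ l.length * Real.sqrt C := by
  have h1 : bav (B n) (fun y => |u n ((wprod σ l)⁻¹ • y) - u n y|) ≤
      Real.sqrt ((l.length : ℝ) ^ 2 * C) := by
    apply bav_abs_le_sqrt (h.ne n)
    refine (sum_word_sq_le h n l (B n)).trans (le_of_eq ?_)
    ring
  rwa [Real.sqrt_mul (by positivity), Real.sqrt_sq (by positivity)] at h1

/-- one step after any group element -/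
theorem bav_step_le {σ : ι → G} (hσ : GenData σ) {C : ℝ} {B : ℕ → Finset X}
    {u : ℕ → X → ℝ} (h : Apx σ C B u) (g : G) (j : ι) (n : ℕ) :
    bav (B n) (fun y => |u n ((g * σ j)⁻¹ • y) - u n (g⁻¹ • y)|) ≤ Real.sqrt C :=
  bav_abs_le_sqrt (h.ne n) (sum_step_sq_le h g j n (B n))

end Pool.Agent.LO86
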