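import Pool.Agent.LO86.QFpsi
import Pool.Agent.LO86.QWord

set_option autoImplicit false
set_option linter.unusedSectionVars false
set_option linter.unusedVariables false

namespace Pool.Agent.LO86

open Pool.Agent.LHF Filter Topology

variable {G : Type*} [Group G] {ι : Type} [Fintype ι] {X : Type*} [MulAction G X]

/-- `bav (B n) |R n| → 0` for `R n y = (u n (g⁻¹ y) - u n y) - ∑ p, e p g * (u n (p⁻¹ y) - u n y)`:
take `ψ n y = SignType.sign (R n y)`; `Fpsi B u ψ` is Lipschitz harmonic, so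
`Fpsi g - ∑ p, Fpsi p * e p g = 0`, and this is `ul (bav (ψ * R)) = ul (bav |R|)`. -/
theorem bav_remainder {σ : ι → G} (hσ : GenData σ) (hFin : FinHF σ) {C : ℝ}
    {B : ℕ → Finset X} {u : ℕ → X → ℝ} (h : Apx σ C B u) {P : Finset G} {e : G → G → ℝ}
    (hP : ∀ f : G → ℝ, IsLHF σ f → ∀ g, f g = ∑ p ∈ P, f p * e p g) (g : G) :
    Tendsto (fun n => bav (B n) (fun y =>
      |(u n (g⁻¹ • y) - u n y) - ∑ p ∈ P, e p g * (u n (p⁻¹ • y) - u n y)|))
      (hyperfilter ℕ : Filter ℕ) (𝓝 0) := by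
  classical
  set R : ℕ → X → ℝ := fun n y =>
    (u n (g⁻¹ • y) - u n y) - ∑ p ∈ P, e p g * (u n (p⁻¹ • y) - u n y) with hR
  set ψ : ℕ → X → ℝ := fun n y => ((SignType.sign (R n y) : SignType) : ℝ) with hψdef
  have hψ : ∀ n y, |ψ n y| ≤ 1 := by
    intro n y
    rw [hψdef]
    simp only
    rcases SignType.trichotomy (SignType.sign (R n y)) with h1 | h1 | h1 <;> rw [h1] <;> simp
  have hψR : ∀ n y, ψ n y * R n y = |R n y| := by
    intro n y
    rw [hψdef]
    simp only
    rw [mul_comm]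
    exact self_mul_sign (R n y)
  have hF := isLHF_Fpsi hσ hFin h hψ
  have hPg := hP _ hF g
  set A : G → ℕ → ℝ := fun q n => bav (B n) (fun y => ψ n y * (u n (q⁻¹ • y) - u n y)) with hA
  have hAb : ∀ q : G, ∃ K : ℝ, ∀ n, |A q n| ≤ K := by
    intro q
    obtain ⟨l, hl⟩ := hσ.gen q
    refine ⟨l.length * Real.sqrt C, fun n => ?_⟩
    have h1 := bav_word_le hσ h l n
    rw [hl] at h1
    refine le_trans ?_ h1
    rw [hA]
    simp only
    unfold bav
    have hc : |((B n).card : ℝ)| = ((B n).card : ℝ) := abs_of_nonneg (Nat.cast_nonneg _)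
    rw [abs_div, hc]
    refine div_le_div_of_nonneg_right ?_ (Nat.cast_nonneg _)
    refine (Finset.abs_sum_le_sum_abs _ _).trans (Finset.sum_le_sum fun y _ => ?_)
    rw [abs_mul]
    have := mul_le_mul_of_nonneg_right (hψ n y) (abs_nonneg (u n (q⁻¹ • y) - u n y))
    linarith
  have hAt : ∀ q : G, Tendsto (A q) (hyperfilter ℕ : Filter ℕ)
      (𝓝 (Fpsi (G := G) B u ψ q)) := by
    intro q
    obtain ⟨K, hK⟩ := hAb q
    exact tendsto_ul hK
  have key : ∀ n, bav (B n) (fun y => |R n y|) = A g n - ∑ p ∈ P, e p g * A p n := by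
    intro n
    have e1 : ∀ y, |R n y| = ψ n y * (u n (g⁻¹ • y) - u n y)
        - ∑ p ∈ P, e p g * (ψ n y * (u n (p⁻¹ • y) - u n y)) := by
      intro y
      rw [← hψR n y]
      have e2 : R n y = (u n (g⁻¹ • y) - u n y) - ∑ p ∈ P, e p g * (u n (p⁻¹ • y) - u n y) := rfl
      rw [e2, mul_sub, Finset.mul_sum]
      congr 1
      refine Finset.sum_congr rfl fun p _ => ?_
      ring
    simp only [e1]
    rw [hA]
    simp only
    unfold bav
    rw [Finset.sum_sub_distrib, sub_div]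
    congr 1
    rw [Finset.sum_comm, Finset.sum_div]
    refine Finset.sum_congr rfl fun p _ => ?_
    rw [← Finset.mul_sum, mul_div_assoc]
  have hlim : Tendsto (fun n => A g n - ∑ p ∈ P, e p g * A p n) (hyperfilter ℕ : Filter ℕ)
      (𝓝 (Fpsi (G := G) B u ψ g - ∑ p ∈ P, e p g * Fpsi (G := G) B u ψ p)) :=
    (hAt g).sub (tendsto_finsetSum P fun p _ => (hAt p).const_mul (e p g))
  have hz : Fpsi (G := G) B u ψ g - ∑ p ∈ P, e p g * Fpsi (G := G) B u ψ p = 0 := by
    rw [sub_eq_zero, hPg]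
    refine Finset.sum_congr rfl fun p _ => ?_
    ring
  rw [hz] at hlim
  exact hlim.congr fun n => (key n).symm

end Pool.Agent.LO86
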