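import Pool.Agent.LO86.QEval
import Pool.Agent.LO86.QTend
import Pool.Agent.LO86.QSelect
import Pool.Agent.LO86.RepCount
import Pool.Agent.LO86.LimGrowth
import Pool.Agent.LO86.QWord

set_option autoImplicit false
set_option linter.unusedSectionVars false
set_option linter.unusedVariables false

namespace Pool.Agent.LO86

open Pool.Agent.LHF Filter Topology

variable {G : Type*} [Group G] {ι : Type} [Fintype ι] {X : Type*} [MulAction G X]

lemma qz_bav_nonneg {X : Type*} {B : Finset X} {f : X → ℝ} (h : ∀ y, 0 ≤ f y) : 0 ≤ bav B f :=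
  div_nonneg (Finset.sum_nonneg fun y _ => h y) (Nat.cast_nonneg _)

lemma qz_bav_sum {X κ : Type*} (B : Finset X) (P : Finset κ) (f : κ → X → ℝ) :
    bav B (fun y => ∑ p ∈ P, f p y) = ∑ p ∈ P, bav B (f p) := by
  unfold bav
  rw [Finset.sum_comm, Finset.sum_div]

lemma exists_surj_nat {σ : ι → G} (hσ : GenData σ) : ∃ γ : ℕ → G, Function.Surjective γ := by
  have h1 : (Set.univ : Set G) = ⋃ R : ℕ, Ball σ R := by
    ext g
    simp only [Set.mem_univ, Set.mem_iUnion, true_iff]
    exact exists_mem_ball hσ g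
  have h2 : (Set.univ : Set G).Countable := by
    rw [h1]
    exact Set.countable_iUnion fun R => (ball_finite σ R).countable
  have h3 : Countable G := Set.countable_univ_iff.1 h2
  exact exists_surjective_nat G

/-- an eventually bounded sequence has a limit along the hyperfilter -/
lemma exists_tendsto_of_eventually {s : ℕ → ℝ} {A : ℝ}
    (h : ∀ᶠ n in (hyperfilter ℕ : Filter ℕ), |s n| ≤ A) :
    ∃ c, Tendsto s (hyperfilter ℕ : Filter ℕ) (𝓝 c) := by
  classical
  refine ⟨ul (fun n => if |s n| ≤ A then s n else 0), ?_⟩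
  have h1 : ∀ n, |(fun n => if |s n| ≤ A then s n else 0) n| ≤ max A 0 := by
    intro n
    beta_reduce
    by_cases hn : |s n| ≤ A
    · rw [if_pos hn]
      exact hn.trans (le_max_left _ _)
    · rw [if_neg hn, abs_zero]
      exact le_max_right _ _
  refine (tendsto_ul h1).congr' ?_
  filter_upwards [h] with n hn
  rw [if_pos hn]

/-- On a `G`-set of uniformly polynomial growth the elements of the annihilator subgroup `N` move
the functions `u n` of an `Apx` sequence by `o(1)` on average. Proof by contradiction: the averages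
are bounded (`bav_word_le`), so otherwise their `ul`-limit is `> 0` and `exists_typical` applies to
`a n y = |u n (t⁻¹ y) - u n y|`, `W n y = ∑ p ∈ P, |u n (p⁻¹ y) - u n y|` and
`r i n y = |R n|` for the `i`-th group element (`G` is countable: it is a union of finite balls).
It gives `y n`; for all `g`, `u n (g⁻¹ • y n) - u n (y n)` tends to
`F g := ∑ p ∈ P, F0 p * e p g`, where `F0 p` is the limit of the bounded sequence
`u n (p⁻¹ • y n) - u n (y n)`. `F` is Lipschitz harmonic (`isLHF_sum`) and invariant under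
`limStab y`, so `VNm (annKer F)` by `vnm_annKer_of_growth` and `cosN_limStab_le`, so
`N ≤ annKer F` and `F t = F 1 = 0`, but `|u n (t⁻¹ • y n) - u n (y n)| ≥ c / 4`. -/
theorem Apx.zero {σ : ι → G} (hσ : GenData σ) (hFin : FinHF σ) {C : ℝ}
    {B : ℕ → Finset X} {u : ℕ → X → ℝ} (h : Apx σ C B u) {C' : ℝ} {d : ℕ}
    (hX : ∀ (x : X) (R : ℕ), (orbN σ x R : ℝ) ≤ C' * ((R : ℝ) + 1) ^ d) {N : Subgroup G}
    (hN : ∀ F : G → ℝ, IsLHF σ F → VNm (annKer F) → N ≤ annKer F) {t : G} (ht : t ∈ N) :
    Tendsto (fun n => bav (B n) (fun y => |u n (t⁻¹ • y) - u n y|))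
      (hyperfilter ℕ : Filter ℕ) (𝓝 0) := by
  classical
  obtain ⟨l, hl⟩ := hσ.gen t
  set b : ℕ → ℝ := fun n => bav (B n) (fun y => |u n (t⁻¹ • y) - u n y|) with hb
  have hb0 : ∀ n, 0 ≤ b n := fun n => qz_bav_nonneg fun y => abs_nonneg _
  have hb1 : ∀ n, b n ≤ l.length * Real.sqrt C := by
    intro n
    have h1 := bav_word_le hσ h l n
    rw [hl] at h1
    exact h1
  have hbt : Tendsto b (hyperfilter ℕ : Filter ℕ) (𝓝 (ul b)) :=
    tendsto_ul (B := l.length * Real.sqrt C) fun n => by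
      rw [abs_of_nonneg (hb0 n)]
      exact hb1 n
  by_cases hz : ul b = 0
  · rw [hz] at hbt
    exact hbt
  exfalso
  have hpos : 0 < ul b :=
    lt_of_le_of_ne (ge_of_tendsto hbt (Filter.univ_mem' hb0)) (Ne.symm hz)
  obtain ⟨P, e, he, hP⟩ := exists_eval_lhf hFin
  obtain ⟨γ, hγ⟩ := exists_surj_nat hσ
  have hlen : ∀ g : G, ∃ M : ℝ, ∀ n, bav (B n) (fun y => |u n (g⁻¹ • y) - u n y|) ≤ M := by
    intro g
    obtain ⟨l', hl'⟩ := hσ.gen g
    refine ⟨l'.length * Real.sqrt C, fun n => ?_⟩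
    have h1 := bav_word_le hσ h l' n
    rw [hl'] at h1
    exact h1
  choose M hM using hlen
  obtain ⟨y, A, hy1, hy2⟩ := exists_typical (B := B) h.ne
    (a := fun n y => |u n (t⁻¹ • y) - u n y|)
    (W := fun n y => ∑ p ∈ P, |u n (p⁻¹ • y) - u n y|)
    (r := fun i n y => |(u n ((γ i)⁻¹ • y) - u n y) -
      ∑ p ∈ P, e p (γ i) * (u n (p⁻¹ • y) - u n y)|)
    (fun n y => abs_nonneg _) (fun n y => Finset.sum_nonneg fun p _ => abs_nonneg _)
    (fun i n y => abs_nonneg _)
    (C := (l.length : ℝ) ^ 2 * C) (D := ∑ p ∈ P, M p) (c := ul b / 2) (by linarith)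
    (by
      intro n
      have h1 := bav_word_sq_le hσ h l n
      rw [hl] at h1
      simpa only [sq_abs] using h1)
    (by
      intro n
      rw [qz_bav_sum]
      exact Finset.sum_le_sum fun p _ => hM p n)
    (by
      have h1 : ∀ᶠ x in 𝓝 (ul b), ul b / 2 ≤ x := by
        refine (lt_mem_nhds (by linarith : ul b / 2 < ul b)).mono fun x hx => ?_
        exact le_of_lt hx
      exact hbt.eventually h1)
    (fun i => bav_remainder hσ hFin h hP (γ i))
  -- the limits for `p ∈ P`
  have hF0 : ∀ p : G, ∃ c : ℝ, p ∈ P →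
      Tendsto (fun n => u n (p⁻¹ • y n) - u n (y n)) (hyperfilter ℕ : Filter ℕ) (𝓝 c) := by
    intro p
    by_cases hp : p ∈ P
    · obtain ⟨c, hc⟩ := exists_tendsto_of_eventually
        (s := fun n => u n (p⁻¹ • y n) - u n (y n)) (A := A) (by
          filter_upwards [hy1] with n hn
          refine le_trans ?_ hn.2
          exact Finset.single_le_sum (f := fun p => |u n (p⁻¹ • y n) - u n (y n)|)
            (fun q _ => abs_nonneg _) hp)
      exact ⟨c, fun _ => hc⟩
    · exact ⟨0, fun h => absurd h hp⟩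
  choose F0 hF0 using hF0
  set F : G → ℝ := fun g => ∑ p ∈ P, F0 p * e p g with hFdef
  have hFl : IsLHF σ F := isLHF_sum he F0
  have hlim : ∀ g : G, Tendsto (fun n => u n (g⁻¹ • y n) - u n (y n))
      (hyperfilter ℕ : Filter ℕ) (𝓝 (F g)) := by
    intro g
    obtain ⟨i, rfl⟩ := hγ g
    have h1 : Tendsto (fun n => (u n ((γ i)⁻¹ • y n) - u n (y n)) -
        ∑ p ∈ P, e p (γ i) * (u n (p⁻¹ • y n) - u n (y n))) (hyperfilter ℕ : Filter ℕ) (𝓝 0) :=
      (tendsto_zero_iff_abs_tendsto_zero _).2 (hy2 i)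
    have h2 : Tendsto (fun n => ∑ p ∈ P, e p (γ i) * (u n (p⁻¹ • y n) - u n (y n)))
        (hyperfilter ℕ : Filter ℕ) (𝓝 (∑ p ∈ P, e p (γ i) * F0 p)) :=
      tendsto_finsetSum P fun p hp => (hF0 p hp).const_mul _
    have h3 := h1.add h2
    rw [zero_add] at h3
    have h4 : F (γ i) = ∑ p ∈ P, e p (γ i) * F0 p := by
      rw [hFdef]
      exact Finset.sum_congr rfl fun p _ => mul_comm _ _
    rw [h4]
    refine h3.congr fun n => ?_
    ring
  have hinv : ∀ k ∈ limStab y, ∀ x, F (k * x) = F x := by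
    intro k hk x
    refine tendsto_nhds_unique (hlim (k * x)) ((hlim x).congr' ?_)
    have hk' : k⁻¹ ∈ limStab y := inv_mem hk
    filter_upwards [mem_limStab.1 hk'] with n hn
    rw [mul_inv_rev, mul_smul, hn]
  have hV : VNm (annKer F) := by
    refine vnm_annKer_of_growth hσ hFin hFl (K := limStab y) hinv (C := C') (d := d) ?_
    intro R
    exact cosN_limStab_le (f := fun R => C' * ((R : ℝ) + 1) ^ d) hX y R
  have ht' : t ∈ annKer F := hN F hFl hV ht
  have h1 : F t = F 1 := by
    have h2 := mem_annKer.1 ht' 1 1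
    simpa using h2
  have h2 : F 1 = 0 := by
    refine tendsto_nhds_unique (hlim 1) ?_
    have h3 : (fun n => u n ((1 : G)⁻¹ • y n) - u n (y n)) = fun _ => (0 : ℝ) := by
      funext n
      rw [inv_one, one_smul, sub_self]
    rw [h3]
    exact tendsto_const_nhds
  have h3 := (hlim t).abs
  rw [h1, h2, abs_zero] at h3
  have h4 : ul b / 2 / 4 ≤ 0 := by
    refine ge_of_tendsto h3 ?_
    filter_upwards [hy1] with n hn
    exact hn.1
  linarith

end Pool.Agent.LO86
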