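import Pool.Agent.LO86.Thin

set_option autoImplicit false
set_option linter.unusedSectionVars false
set_option linter.unusedVariables false

namespace Pool.Agent.LO86

open Pool.Agent.LHF

variable {G : Type*} [Group G] {ι : Type} [Fintype ι]

/-- Uniformly subquadratic growth implies uniform thinness. Proof: take `R ≥ max R0 1` with
`f (2 R) ≤ ε * R ^ 2` and `R' = 2 R`. The boundary of `B_r = {g • x : g ∈ Ball σ r}` is contained
in `B_r \ B_{r-1}`; these sets are disjoint for `r = R + 1, …, 2 R`, so one of them has at most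
`f (2 R) / R ≤ ε R` elements. (helper22) -/
theorem uthin_of_subq {σ : ι → G} {X : Type*} [MulAction G X] {f : ℕ → ℝ} (hf : Subq f)
    (hX : ∀ (x : X) (R : ℕ), (orbN σ x R : ℝ) ≤ f R) : UThin σ X := by
  intro ε hε R0
  obtain ⟨R1, hR1⟩ := hf (ε / 4) (by positivity)
  set R : ℕ := max (max R0 R1) 1 with hR
  have hRR0 : R0 ≤ R := (le_max_left _ _).trans (le_max_left _ _)
  have hRR1 : R1 ≤ R := (le_max_right _ _).trans (le_max_left _ _)
  have hR_1 : 1 ≤ R := le_max_right _ _
  clear_value R
  have hf2 : f (2 * R) ≤ ε * (R : ℝ) ^ 2 := by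
    have h := hR1 (2 * R) (by omega)
    push_cast at h
    linarith
  refine ⟨R, hRR0, 2 * R, fun x => ?_⟩
  let B : ℕ → Set X := fun r => (fun g : G => g • x) '' Ball σ r
  have hBfin : ∀ r, (B r).Finite := fun r => (ball_finite σ r).image _
  have hBmono : ∀ r, B r ⊆ B (r + 1) := fun r => Set.image_mono (ball_mono σ (Nat.le_succ r))
  have hbd : ∀ r, bdry σ (B (r + 1)) ⊆ B (r + 1) \ B r := by
    rintro r y ⟨hy, j, hj⟩
    refine ⟨hy, ?_⟩
    rintro ⟨g, hg, rfl⟩
    apply hj
    refine ⟨σ j * g, ?_, mul_smul _ _ _⟩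
    have := mul_mem_ball σ (step_mem_ball σ j) hg
    rwa [add_comm 1 r] at this
  -- one of the shells is small
  obtain ⟨k, hk, hkb⟩ : ∃ k, k < R ∧ ((B (R + k + 1) \ B (R + k)).ncard : ℝ) ≤ ε * R := by
    by_contra hcon
    push Not at hcon
    have key : ∀ k ≤ R, (k : ℝ) * (ε * R) + 1 ≤ ((B (R + k)).ncard : ℝ) := by
      intro k
      induction k with
      | zero =>
        intro _
        have h1 : 0 < (B (R + 0)).ncard := by
          rw [Set.ncard_pos (hBfin _)]
          exact ⟨x, 1, one_mem_ball σ _, one_smul G x⟩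
        have h2 : (1 : ℝ) ≤ ((B (R + 0)).ncard : ℝ) := by exact_mod_cast h1
        simpa using h2
      | succ k ih =>
        intro hk
        have h1 := ih (by omega)
        have h2 := hcon k (by omega)
        have h3 : (B (R + k + 1) \ B (R + k)).ncard + (B (R + k)).ncard = (B (R + k + 1)).ncard :=
          Set.ncard_diff_add_ncard_of_subset (hBmono _) (hBfin _)
        have h4 : ((B (R + k + 1) \ B (R + k)).ncard : ℝ) + ((B (R + k)).ncard : ℝ) =
            ((B (R + k + 1)).ncard : ℝ) := by exact_mod_cast h3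
        have e : R + (k + 1) = R + k + 1 := by omega
        rw [e]
        push_cast
        linarith
    have h1 := key R le_rfl
    have h2 : ((B (R + R)).ncard : ℝ) ≤ f (2 * R) := by
      rw [two_mul]
      exact hX x (R + R)
    have h3 : (R : ℝ) * (ε * R) = ε * (R : ℝ) ^ 2 := by ring
    linarith
  refine ⟨B (R + k + 1), ?_, ?_, ?_⟩
  · intro g hg
    exact ⟨g, ball_mono σ (by omega) hg, rfl⟩
  · rintro y ⟨g, hg, rfl⟩
    exact ⟨g, ball_mono σ (by omega) hg, rfl⟩
  · have h1 : (bdry σ (B (R + k + 1))).ncard ≤ (B (R + k + 1) \ B (R + k)).ncard :=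
      Set.ncard_le_ncard (hbd _) ((hBfin _).diff)
    have h2 : ((bdry σ (B (R + k + 1))).ncard : ℝ) ≤ ((B (R + k + 1) \ B (R + k)).ncard : ℝ) := by
      exact_mod_cast h1
    exact h2.trans hkb

end Pool.Agent.LO86
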