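import Pool.Agent.LO86.Defs

set_option autoImplicit false
set_option linter.unusedSectionVars false
set_option linter.unusedVariables false

namespace Pool.Agent.LO86

open Pool.Agent.LHF

variable {G : Type*} [Group G] {ι : Type} [Fintype ι]

/-- the points of `B` from which some generator leads out of `B` -/
def bdry {X : Type*} [MulAction G X] (σ : ι → G) (B : Set X) : Set X :=
  {y | y ∈ B ∧ ∃ j, σ j • y ∉ B}

/-- large balls at `x` are contained in finite sets with few boundary points -/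
def ThinAt {X : Type*} [MulAction G X] (σ : ι → G) (x : X) : Prop :=
  ∀ ε : ℝ, 0 < ε → ∀ R0 : ℕ, ∃ R : ℕ, R0 ≤ R ∧ ∃ B : Set X, B.Finite ∧
    (∀ g ∈ Ball σ R, g • x ∈ B) ∧ ((bdry σ B).ncard : ℝ) ≤ ε * R

/-- the same uniformly on a `G`-set, the finite sets being contained in balls of a radius that
does not depend on the point -/
def UThin (σ : ι → G) (X : Type*) [MulAction G X] : Prop :=
  ∀ ε : ℝ, 0 < ε → ∀ R0 : ℕ, ∃ R : ℕ, R0 ≤ R ∧ ∃ R' : ℕ, ∀ x : X, ∃ B : Set X,
    (∀ g ∈ Ball σ R, g • x ∈ B) ∧ (∀ y ∈ B, ∃ g ∈ Ball σ R', g • x = y) ∧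
      ((bdry σ B).ncard : ℝ) ≤ ε * R

end Pool.Agent.LO86
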