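import Pool.Agent.LO86.Defs

set_option autoImplicit false
set_option linter.unusedSectionVars false

namespace Pool.Agent.LO86

open Pool.Agent.LHF Filter Topology

/-- limit of a bounded real sequence along the hyperfilter -/
noncomputable def ul (a : ℕ → ℝ) : ℝ := limUnder (Filter.hyperfilter ℕ : Filter ℕ) a

lemma tendsto_ul {a : ℕ → ℝ} {B : ℝ} (h : ∀ n, |a n| ≤ B) :
    Tendsto a (hyperfilter ℕ : Filter ℕ) (𝓝 (ul a)) := by
  have hc : IsCompact (Set.Icc (-B) B) := isCompact_Icc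
  have h1 : (↑((hyperfilter ℕ).map a) : Filter ℝ) ≤ 𝓟 (Set.Icc (-B) B) := by
    rw [le_principal_iff, Ultrafilter.coe_map, mem_map]
    exact Filter.univ_mem' fun n => abs_le.mp (h n)
  obtain ⟨x, -, hx⟩ := hc.ultrafilter_le_nhds _ h1
  exact tendsto_nhds_limUnder ⟨x, hx⟩

lemma ul_eq {a : ℕ → ℝ} {c : ℝ} (h : Tendsto a (hyperfilter ℕ : Filter ℕ) (𝓝 c)) : ul a = c :=
  h.limUnder_eq

lemma ul_const (c : ℝ) : ul (fun _ => c) = c := ul_eq tendsto_const_nhds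

lemma ul_add {a b : ℕ → ℝ} {A B : ℝ} (ha : ∀ n, |a n| ≤ A) (hb : ∀ n, |b n| ≤ B) :
    ul (fun n => a n + b n) = ul a + ul b := ul_eq ((tendsto_ul ha).add (tendsto_ul hb))

lemma ul_sub {a b : ℕ → ℝ} {A B : ℝ} (ha : ∀ n, |a n| ≤ A) (hb : ∀ n, |b n| ≤ B) :
    ul (fun n => a n - b n) = ul a - ul b := ul_eq ((tendsto_ul ha).sub (tendsto_ul hb))

lemma ul_mul_left (c : ℝ) {a : ℕ → ℝ} {A : ℝ} (ha : ∀ n, |a n| ≤ A) :
    ul (fun n => c * a n) = c * ul a := ul_eq ((tendsto_ul ha).const_mul c)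

lemma ul_div (c : ℝ) {a : ℕ → ℝ} {A : ℝ} (ha : ∀ n, |a n| ≤ A) :
    ul (fun n => a n / c) = ul a / c := ul_eq ((tendsto_ul ha).div_const c)

lemma ul_sum {κ : Type*} (s : Finset κ) {a : κ → ℕ → ℝ} {A : κ → ℝ}
    (ha : ∀ k ∈ s, ∀ n, |a k n| ≤ A k) :
    ul (fun n => ∑ k ∈ s, a k n) = ∑ k ∈ s, ul (a k) :=
  ul_eq (tendsto_finsetSum s fun k hk => tendsto_ul (ha k hk))

lemma abs_ul_le {a : ℕ → ℝ} {B : ℝ} (h : ∀ n, |a n| ≤ B) : |ul a| ≤ B :=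
  le_of_tendsto (tendsto_ul h).abs (Filter.univ_mem' h)

lemma le_abs_ul {a : ℕ → ℝ} {B c : ℝ} (h : ∀ n, |a n| ≤ B)
    (hc : ∀ᶠ n in (hyperfilter ℕ : Filter ℕ), c ≤ |a n|) : c ≤ |ul a| :=
  ge_of_tendsto (tendsto_ul h).abs hc

lemma ul_congr {a b : ℕ → ℝ} (h : ∀ᶠ n in (hyperfilter ℕ : Filter ℕ), a n = b n) :
    ul a = ul b := by
  unfold ul limUnder
  rw [Filter.map_congr h]

lemma ul_eq_zero {a : ℕ → ℝ} {c : ℝ} (h : ∀ n : ℕ, |a n| ≤ c / ((n : ℝ) + 1)) : ul a = 0 := by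
  apply ul_eq
  have h1 : Tendsto (fun n : ℕ => c / ((n : ℝ) + 1)) atTop (𝓝 0) :=
    tendsto_const_div_atTop_nhds_zero_nat c |>.comp (tendsto_add_atTop_nat 1) |>.congr
      (fun n => by simp)
  have h2 : Tendsto a atTop (𝓝 0) := squeeze_zero_norm (fun n => by simpa using h n) h1
  exact h2.mono_left (by rw [← Nat.cofinite_eq_atTop]; exact hyperfilter_le_cofinite)

variable {G : Type*} [Group G] {ι : Type} [Fintype ι]

lemma avg_ul (σ : ι → G) {Ψ : ℕ → G → ℝ} {B : G → ℝ} (h : ∀ n x, |Ψ n x| ≤ B x) (x : G) :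
    avg σ (fun y => ul (fun n => Ψ n y)) x = ul (fun n => avg σ (Ψ n) x) := by
  have h1 : ul (fun n => avg σ (Ψ n) x) =
      ul (fun n => ∑ j, Ψ n (x * σ j)) / (Fintype.card ι : ℝ) := by
    exact ul_div (a := fun n => ∑ j, Ψ n (x * σ j)) (Fintype.card ι : ℝ)
      (A := ∑ j, B (x * σ j))
      (fun n => (Finset.abs_sum_le_sum_abs _ _).trans (Finset.sum_le_sum fun j _ => h n _))
  rw [h1, ul_sum _ (A := fun j => B (x * σ j)) (fun j _ n => h n _)]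
  rfl

end Pool.Agent.LO86
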